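import Pool.Agent.Mg.F1392dc.G6496f6

section

namespace W5

open Finset
open scoped Classical

variable {V : Type} [Fintype V]

theorem mw_ge_Up (H : SimpleGraph V) (σ : V → Bool) (x : V → ℝ) (c : ℝ)
    (h : ∀ u v, Ms H σ u v → c ≤ 2 * x u * x v) : c * mu H σ ≤ mw H σ x := by
  unfold mu mw
  rw [card_filter, ← Fintype.sum_prod_type']
  push_cast
  rw [mul_sum]
  refine sum_le_sum fun e _ => ?_
  split_ifs with he
  · simpa using h _ _ he
  · simp

theorem mw_le_Up (H : SimpleGraph V) (σ : V → Bool) (x : V → ℝ) (c : ℝ)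
    (h : ∀ u v, Ms H σ u v → 2 * x u * x v ≤ c) : mw H σ x ≤ c * mu H σ := by
  unfold mu mw
  rw [card_filter, ← Fintype.sum_prod_type']
  push_cast
  rw [mul_sum]
  refine sum_le_sum fun e _ => ?_
  split_ifs with he
  · simpa using h _ _ he
  · simp

theorem mw_zero_Up (H : SimpleGraph V) (σ : V → Bool) (x : V → ℝ) (h : mu H σ = 0) :
    mw H σ x = 0 := by
  unfold mu at h
  rw [card_eq_zero, filter_eq_empty_iff] at h
  unfold mw
  refine sum_eq_zero fun u _ => sum_eq_zero fun v _ => ?_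
  have := h (mem_univ (u, v))
  simp only at this
  simp [this]

theorem wt_ge_Up (H : SimpleGraph V) (σ : V → Bool) (x : V → ℝ) (c : Bool) (r : ℝ) (hr : 0 ≤ r)
    (h : ∀ u, σ u = c → NI H u → r ≤ x u) :
    ((mt H σ c : ℝ) + um H σ c) * r ^ 2 ≤ wt x (fun v => σ v = c) := by
  unfold mt um wt
  rw [card_filter, card_filter]
  push_cast
  rw [← sum_add_distrib, sum_mul]
  refine sum_le_sum fun u _ => ?_
  by_cases hc : σ u = c
  · by_cases hn : NI H u
    · have h1 := h u hc hn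
      have h2 : r ^ 2 ≤ x u ^ 2 := pow_le_pow_left₀ hr h1 2
      by_cases hm : Mt H σ u <;> simp [hc, hn, hm, h2]
    · have hm : ¬ Mt H σ u := fun ⟨v, hv, _⟩ => hn ⟨v, hv⟩
      simp [hc, hn, hm]; positivity
  · simp [hc]

theorem root_Up (Y : ℝ) (hY : 0 < Y) : ∃ t : ℝ, 0 < t ∧ t ^ 2 + t = Y := by
  refine ⟨(-1 + √(1 + 4 * Y)) / 2, ?_, ?_⟩
  · have : 1 < √(1 + 4 * Y) := by
      rw [Real.lt_sqrt (by norm_num)]; linarith
    linarith
  · have := Real.sq_sqrt (show 0 ≤ 1 + 4 * Y by linarith)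
    nlinarith

theorem int_sq_Up (p q : ℕ) (k : ℕ) (h : ((p : ℝ) - q) ^ 2 < ((k : ℝ) + 1) ^ 2) :
    |(p : ℤ) - q| ≤ k := by
  have h1 : |(p : ℝ) - q| < (k : ℝ) + 1 := abs_lt_of_sq_lt_sq h (by positivity)
  have h2 : ((|(p : ℤ) - q| : ℤ) : ℝ) < ((k : ℤ) + 1 : ℤ) := by push_cast; exact h1
  have h3 : |(p : ℤ) - q| < (k : ℤ) + 1 := by exact_mod_cast h2
  omega

theorem mono_Up {t s : ℝ} (hs : 0 ≤ s) (h : t ^ 2 + t ≤ s ^ 2 + s) : t ≤ s := by
  by_contra hlt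
  push Not at hlt
  nlinarith

theorem au_Up {l a : ℝ} (hl : 0 < l) (h : 0.89 * l * (0.99 * a) ^ 2 ≤ 1.01 * l) :
    a ^ 2 ≤ 1.16 := by
  by_contra hlt
  push Not at hlt
  nlinarith

theorem al_Up {a b : ℝ} (ha : 0 ≤ a) (hb : 0 ≤ b) (h : b ^ 2 ≤ 1.16) (hp : 0.99 ≤ a * b) :
    0.9 ≤ a := by
  have : b ≤ 1.08 := by nlinarith
  nlinarith

theorem sq2_Up {x a : ℝ} (hx : 0 ≤ x) (h : x ≤ a) (ha : a ^ 2 ≤ 1.16) : x ^ 2 ≤ 2 := by
  nlinarith

theorem big_Up {L m : ℝ} (hL : 0 ≤ L) (hm : 10 ^ 72 ≤ m) (h : m - 1 ≤ L ^ 2 - L) :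
    10 ^ 30 ≤ L := by
  by_contra hlt
  push Not at hlt
  nlinarith

theorem fin4_Up {e s d t l : ℝ} (hl : 10 ^ 32 ≤ l) (h1 : e ^ 2 ≤ 2 * s * d) (h2 : s ≤ t + 2)
    (h3 : t ≤ l) (hd : 0 ≤ d) (h4 : d ≤ 11 / (l - 1)) : e ^ 2 < (4 + 1) ^ 2 := by
  have h5 : d * (l - 1) ≤ 11 := by rwa [le_div_iff₀ (by linarith)] at h4
  have h6 : 2 * s * d ≤ 2 * (l + 2) * d := mul_le_mul_of_nonneg_right (by linarith) hd
  have h7 : d ≤ 0.001 := by
    by_contra hlt
    push Not at hlt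
    nlinarith
  nlinarith

theorem fin1_Up {e s d t L : ℝ} (hl : 10 ^ 30 ≤ L) (h1 : e ^ 2 ≤ 2 * s * d) (h2 : s ≤ t + 2)
    (h3 : t ≤ L) (hd : 0 ≤ d) (h4 : d ≤ 1.4 / L) : e ^ 2 < (1 + 1) ^ 2 := by
  have h5 : d * L ≤ 1.4 := by rwa [le_div_iff₀ (by linarith)] at h4
  have h6 : 2 * s * d ≤ 2 * (L + 2) * d := mul_le_mul_of_nonneg_right (by linarith) hd
  have h7 : d ≤ 0.001 := by
    by_contra hlt
    push Not at hlt
    nlinarith
  nlinarith

theorem prod_Up {a b x y : ℝ} (hb : 0 ≤ b) (hx : 0 ≤ x) (h1 : 0.99 * a ≤ x) (h2 : 0.99 * b ≤ y)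
    (hp : 0.99 ≤ a * b) : 1.8 ≤ 2 * x * y := by
  have h3 := mul_le_mul h1 h2 (by positivity) hx
  nlinarith

theorem four_Up {x y : ℝ} (hx : x ^ 2 ≤ 2) (hy : y ^ 2 ≤ 2) : 2 * x * y ≤ 4 := by
  nlinarith [sq_nonneg (x - y)]

/-- The book case. -/
theorem book_Up (hE : EdS) (hC : CntS) (hB : BookS) (G H : SimpleGraph V) (m : ℕ) (σ : V → Bool)
    (c : Bool) (hG : ∀ u, NI G u) (hm : ed G = m) (hle : H ≤ G) (he : ed G = ed H) (hP : Par H σ)
    (hmu : mu H σ = 0) (h1 : mt H σ c = 2) (h2 : um H σ c = 0) (h3 : mt H σ (!c) = 0) :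
    ∃ s : ℕ, m = 2 * s + 1 ∧ Nonempty (G ≃g split 2 s) := by
  have hGH : G = H := ((hE V G).2 H hle).2.1 he
  subst hGH
  refine ⟨um G σ (!c), ?_, (hB V G).1 σ c hG hmu h1 h2 h3⟩
  have h4 := (hC V G σ hP).2.1
  rw [hm, hmu] at h4
  have : (m : ℝ) = 2 * (um G σ (!c) : ℝ) + 1 := by
    cases c
    · simp only [Bool.not_false] at h3 ⊢
      rw [h1, h2, h3] at h4; push_cast at h4; linarith
    · simp only [Bool.not_true] at h3 ⊢
      rw [h1, h2, h3] at h4; push_cast at h4; linarith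
  exact_mod_cast this

theorem upS (hP : PerS) (hE : EdS) (hCo : CoreS) (hL : LightS) (hH : HeavyS) (hX : XbS)
    (hC : CntS) (hT : TinS) (hA1 : Ari1S) (hA2 : Ari2S) (hMu : MuS) (hN1 : Nu1S) (hN2 : Nu2S)
    (hB : BookS) : UpS := by
  intro V _ G m hG hK hm hbig hge
  have hbig' : (10 : ℝ) ^ 72 ≤ m := by exact_mod_cast hbig
  obtain ⟨H, l, x, hle, hc, hE', hpsi⟩ := hCo V G hK (hm ▸ hbig') (hm ▸ hge)
  obtain ⟨ν, hν⟩ := ((hE V G).2 H hle).1
  have hl := hc.big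
  have heps : eps = 1 / 20480000 := rfl
  have hν0 : (0 : ℝ) ≤ ν := Nat.cast_nonneg _
  have hpsi' : lam G ^ 2 - lam G - ed G + eps * ν ≤ l ^ 2 - l - ed H := by
    have : ed G - ed H = ν := by linarith only [hν]
    rwa [this] at hpsi
  clear hpsi
  -- the structure: sides, and a lower bound for the weight of missing pairs
  have key : ∀ σ : V → Bool, Par H σ → (1.8 : ℝ) * mu H σ ≤ mw H σ x →
      ∃ (p q : ℕ) (t : ℝ), mt H σ true = 2 * p ∧ mt H σ false = 2 * q ∧ l - 1 ≤ t ∧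
        t ^ 2 + t = l ^ 2 - l + mw H σ x ∧
        Tin (2 * p) (um H σ true) (2 * q) (um H σ false) t ∧
        dl p (um H σ true) q (um H σ false) t = ed H + mu H σ - (l ^ 2 - l) - mw H σ x ∧
        ed H + mu H σ = (2 * (p : ℝ) + um H σ true) * (2 * (q : ℝ) + um H σ false) + p + q := by
    intro σ hPar hw
    obtain ⟨p, hp⟩ := (hC V H σ hPar).1 true
    obtain ⟨q, hq⟩ := (hC V H σ hPar).1 false
    have hmu0 : (0 : ℝ) ≤ mu H σ := Nat.cast_nonneg _
    have hw0 : 0 ≤ mw H σ x := by linarith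
    obtain ⟨t, ht0, ht⟩ := root_Up (l ^ 2 - l + mw H σ x) (by nlinarith only [hl, hw0])
    have h4 := (hC V H σ hPar).2.1
    rw [hp, hq] at h4
    push_cast at h4
    refine ⟨p, q, t, hp, hq, ?_, ht, ?_, ?_, by linarith⟩
    · exact mono_Up ht0.le (by linarith only [ht, hw0])
    · have := hT V H l x σ t hc.per (by linarith) hPar ht0 ht
      rwa [hp, hq] at this
    · unfold dl; linarith
  have bookc : ∀ (σ : V → Bool) (p q : ℕ) (t : ℝ), Par H σ → (1.8 : ℝ) * mu H σ ≤ mw H σ x →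
      mt H σ true = 2 * p → mt H σ false = 2 * q →
      dl p (um H σ true) q (um H σ false) t = ed H + mu H σ - (l ^ 2 - l) - mw H σ x →
      dl p (um H σ true) q (um H σ false) t = 1 →
      ((p = 1 ∧ um H σ true = 0 ∧ q = 0) ∨ (q = 1 ∧ um H σ false = 0 ∧ p = 0)) →
      (lam G ^ 2 - lam G = m - 1 ∧ ∃ s : ℕ, m = 2 * s + 1 ∧ Nonempty (G ≃g split 2 s)) := by
    intro σ p q t hPar hw hp hq hd hd1 hcase
    have hmu0 : (0 : ℝ) ≤ mu H σ := Nat.cast_nonneg _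
    have h1 : eps * ν + 0.8 * mu H σ ≤ 0 := by
      linarith only [hpsi', hge, hm, hd, hd1, hw, hν]
    have hν1 : (ν : ℝ) = 0 := by rw [heps] at h1; linarith
    have hmu1 : (mu H σ : ℝ) = 0 := by rw [heps] at h1; linarith
    have hmu2 : mu H σ = 0 := by exact_mod_cast hmu1
    have hw0 := mw_zero_Up H σ x hmu2
    have he : ed G = ed H := by linarith
    refine ⟨?_, ?_⟩
    · rw [hν1] at hpsi'
      linarith only [hpsi', hge, hm, hd, hd1, hw0, he, hmu1]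
    · rcases hcase with ⟨h1, h2, h3⟩ | ⟨h1, h2, h3⟩
      · exact book_Up hE hC hB G H m σ true hG hm hle he hPar hmu2 (by omega) h2
          (by simp only [Bool.not_true]; omega)
      · exact book_Up hE hC hB G H m σ false hG hm hle he hPar hmu2 (by omega) h2
          (by simp only [Bool.not_false]; omega)
  by_cases hlight : ∀ u, x u ^ 2 ≤ kap * l
  swap
  · push Not at hlight
    obtain ⟨u, hu⟩ := hlight
    obtain ⟨σ, hPar, hmu, hmt⟩ := hH V H l x hc ⟨u, hu.le⟩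
    have hw : (1.8 : ℝ) * mu H σ ≤ mw H σ x := by rw [mw_zero_Up H σ x hmu, hmu]; simp
    obtain ⟨p, q, t, hp, hq, ht1, ht, hTin, hd, -⟩ := key σ hPar hw
    have hd1 : dl p (um H σ true) q (um H σ false) t ≤ 1 := by
      have hmu0 : (0 : ℝ) ≤ mu H σ := Nat.cast_nonneg _
      have := hc.hm
      linarith
    rcases hA1 p _ q _ t (by linarith) hTin hd1 with ⟨h1, h2⟩ | ⟨-, -, -, -, h5, -⟩
    · exact Or.inl (bookc σ p q t hPar hw hp hq hd h1 h2)
    · exfalso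
      have : q = 0 := by omega
      subst this
      push_cast at h5; linarith
  obtain ⟨σ, hPar⟩ := hL V H l x hc hlight
  obtain ⟨α, hα1, hα2, hα0, hαp, hαw⟩ := hX V H l x σ hc hlight hPar
  have hw : (1.8 : ℝ) * mu H σ ≤ mw H σ x := by
    refine mw_ge_Up H σ x 1.8 fun u v ⟨hu, hv, hnu, hnv, _⟩ => ?_
    have h1 := hα2 u hnu
    have h2 := hα2 v hnv
    rw [hu] at h1; rw [hv] at h2
    exact prod_Up (hα0 false) (hc.per.pos u) h1 h2 hαp
  obtain ⟨p, q, t, hp, hq, ht1, ht, hTin, hd, hed⟩ := key σ hPar hw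
  have hmu0 : (0 : ℝ) ≤ mu H σ := Nat.cast_nonneg _
  have hd1 : dl p (um H σ true) q (um H σ false) t ≤ 1 := by
    have := hc.hm
    linarith
  rcases hA1 p _ q _ t (by linarith) hTin hd1 with ⟨h1, h2⟩ | ⟨g1, g2, g3, g4, g5, g6, g7⟩
  · exact Or.inl (bookc σ p q t hPar hw hp hq hd h1 h2)
  right
  set a2 := um H σ true with ha2
  set b2 := um H σ false with hb2
  set d := dl p a2 q b2 t with hdd
  have ha0 : (0 : ℝ) ≤ a2 := Nat.cast_nonneg _
  have hb0 : (0 : ℝ) ≤ b2 := Nat.cast_nonneg _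
  have hd0 : 0 ≤ d := by linarith
  have hsz : ∀ c, 0.9 * t ≤ (mt H σ c : ℝ) + um H σ c ∧ (mt H σ c : ℝ) + um H σ c ≤ 1.1 * t := by
    intro c
    cases c
    · rw [hq, ← hb2]; push_cast; constructor <;> linarith
    · rw [hp, ← ha2]; push_cast; constructor <;> linarith
  have hαu : ∀ c, α c ^ 2 ≤ 1.16 := by
    intro c
    have h1 := wt_ge_Up H σ x c (0.99 * α c) (by have := hα0 c; positivity)
      (fun u hu hn => hu ▸ hα2 u hn)
    have h2 := hαw c
    have h3 := (hsz c).1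
    have h4 : 0.89 * l * (0.99 * α c) ^ 2 ≤ 1.01 * l :=
      le_trans (mul_le_mul_of_nonneg_right (by linarith only [h3, ht1, hl]) (sq_nonneg _)) (h1.trans h2)
    exact au_Up (by linarith only [hl]) h4
  have hαl : ∀ c, 0.9 ≤ α c := by
    intro c
    cases c
    · exact al_Up (hα0 false) (hα0 true) (hαu true) (by linarith only [hαp])
    · exact al_Up (hα0 true) (hα0 false) (hαu false) hαp
  have hx2 : ∀ u, x u ^ 2 ≤ 2 := fun u => sq2_Up (hc.per.pos u) (hα1 u) (hαu (σ u))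
  have hout : ∀ u v, G.Adj u v → ¬ H.Adj u v → ¬ NI H u ∨ ¬ NI H v := by
    intro u v h1 h2
    by_contra hn
    push Not at hn
    have h3 := hE' u v h1 h2
    have h4 := hα2 u hn.1
    have h5 := hα2 v hn.2
    have h6 := hαl (σ u)
    have h7 := hαl (σ v)
    have h8 : 0.89 * 0.89 ≤ x u * x v :=
      mul_le_mul (by linarith only [h4, h6]) (by linarith only [h5, h7]) (by norm_num)
        (hc.per.pos u)
    rw [heps] at h3
    linarith only [h3, h8]
  obtain ⟨hL0, -, hLp⟩ := hP V G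
  set L := lam G with hLdef
  have hL30 : (10 : ℝ) ^ 30 ≤ L := big_Up hL0 hbig' hge
  obtain ⟨y, hy⟩ := hLp (by linarith)
  have hνb : eps * ν + d + 0.8 * mu H σ ≤ 1 := by
    linarith only [hpsi', hge, hm, hd, hw, hν]
  have hmu1 : mu H σ ≤ 1 := by
    have : (mu H σ : ℝ) < 2 := by rw [heps] at hνb; linarith
    have : mu H σ < 2 := by exact_mod_cast this
    omega
  have hmu1' : (mu H σ : ℝ) ≤ 1 := by exact_mod_cast hmu1
  have htL : t ≤ L := by
    have h0 : d = ed H + mu H σ - t ^ 2 - t := by linarith only [hd, ht]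
    exact mono_Up hL0 (by linarith only [h0, hd0, hν, hν0, hm, hge, hmu1', hL30])
  have hN := hN1 V G H L l y hle hy hc.per.ray hL30 (by rw [heps] at hνb; linarith)
    (fun u => by
      have h1 := (hC V H σ hPar).2.2.1 u
      have h2 := (hsz (!σ u)).2
      linarith) hout
  have hfin : 0.9 * ν + d + 0.8 * mu H σ ≤ 1 := by
    linarith only [hN, hν, hm, hge, hd, hw]
  have hν1 : ν ≤ 1 := by
    have : (ν : ℝ) < 2 := by linarith
    have : ν < 2 := by exact_mod_cast this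
    omega
  have hs0 : (0 : ℝ) ≤ 2 * ((p : ℝ) + q) := by positivity
  rcases Nat.le_one_iff_eq_zero_or_eq_one.1 hν1 with rfl | rfl
  · rcases Nat.le_one_iff_eq_zero_or_eq_one.1 hmu1 with hz | hz
    · have hmm : m = (2 * p + a2) * (2 * q + b2) + p + q := by
        have : (m : ℝ) = (2 * (p : ℝ) + a2) * (2 * (q : ℝ) + b2) + p + q := by
          rw [hz] at hed; push_cast at hed hν; linarith
        exact_mod_cast this
      rw [hmm]
      refine hA2 p a2 q b2 t (by linarith) hTin hd1 ?_ ?_ g4 g5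
      · have : (a2 : ℝ) + b2 < 3 := by linarith
        have : a2 + b2 < 3 := by exact_mod_cast this
        omega
      · exact g1.trans (mul_le_of_le_one_right hs0 hd1)
    · have hk : a2 = 0 ∧ b2 = 0 := by
        have : (a2 : ℝ) + b2 < 1 := by rw [hz] at hfin; push_cast at hfin; linarith
        have : a2 + b2 < 1 := by exact_mod_cast this
        omega
      have h1 := hMu V H l x σ hc.per (by linarith) hPar hk.1 hk.2 hz hx2
      have h2 : mw H σ x ≤ 4 * mu H σ := mw_le_Up H σ x 4 fun u v _ => four_Up (hx2 u) (hx2 v)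
      have h3 : d ≤ 11 / (l - 1) := by
        have := hc.hm
        rw [hz] at hd; push_cast at hd; linarith
      have h4 : t ≤ l := mono_Up (by linarith only [hl]) (by linarith only [ht, h2, hmu1', hl])
      refine ⟨p, q, Or.inr (Or.inr (Or.inl ⟨?_, int_sq_Up p q 4 ?_⟩))⟩
      · have : (m : ℝ) + 1 = 4 * p * q + p + q := by
          rw [hz, hk.1, hk.2] at hed; push_cast at hed hν; linarith
        exact_mod_cast this
      · push_cast
        exact fin4_Up hl g1 g3 h4 hd0 h3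
  · have hz : mu H σ = 0 := by
      have : (mu H σ : ℝ) < 1 := by push_cast at hfin; linarith
      have : mu H σ < 1 := by exact_mod_cast this
      omega
    have hk : a2 = 0 ∧ b2 = 0 := by
      have : (a2 : ℝ) + b2 < 1 := by push_cast at hfin; linarith
      have : a2 + b2 < 1 := by exact_mod_cast this
      omega
    obtain ⟨p0, w0, hpw, hnpw, hiff⟩ := ((hE V G).2 H hle).2.2 (by rw [hν]; simp)
    have hsz' : ∀ c, (mt H σ c : ℝ) + um H σ c ≤ 1.15 * L := fun c => by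
      have := (hsz c).2
      linarith
    have h1 : L ^ 2 - L - 1.4 / L ≤ l ^ 2 - l := by
      rcases hout p0 w0 hpw hnpw with hn | hn
      · exact hN2 V G H L l y σ w0 p0 hy hc.per.ray (by linarith) hPar hpw.ne.symm hn
          (fun u v => by rw [hiff]; tauto) hsz'
      · exact hN2 V G H L l y σ p0 w0 hy hc.per.ray (by linarith) hPar hpw.ne hn hiff hsz'
    have hw0 := mw_zero_Up H σ x hz
    have h3 : d ≤ 1.4 / L := by
      rw [hz] at hd; push_cast at hd hν; linarith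
    refine ⟨p, q, Or.inr (Or.inr (Or.inr (Or.inr ⟨?_, int_sq_Up p q 1 ?_⟩)))⟩
    · have : (m : ℝ) = 4 * p * q + p + q + 1 := by
        rw [hz, hk.1, hk.2] at hed; push_cast at hed hν; linarith
      exact_mod_cast this
    · push_cast
      exact fin1_Up hL30 g1 g3 htL hd0 h3

end W5

end

section

namespace W5

open Finset
open scoped Classical

theorem th_Fin (m : ℕ) (hm : 10 ^ 72 ≤ m) :
    ((1 + √(4 * (m : ℝ) - 3)) / 2) ^ 2 - (1 + √(4 * (m : ℝ) - 3)) / 2 = m - 1 ∧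
      1 < (1 + √(4 * (m : ℝ) - 3)) / 2 := by
  have h1 : (10 : ℝ) ^ 72 ≤ m := by exact_mod_cast hm
  have h2 := Real.sq_sqrt (show 0 ≤ 4 * (m : ℝ) - 3 by linarith)
  have h3 : 1 < √(4 * (m : ℝ) - 3) := by
    rw [Real.lt_sqrt (by norm_num)]; linarith
  constructor
  · nlinarith
  · linarith

theorem card_Fin (p a2 q b2 s : ℕ) (hp : 100 ≤ p) (hq : 100 ≤ q) (e : ℕ) (he : e ≤ 1)
    (h1 : (2 * p + a2) * (2 * q + b2) + p + q + e = 2 * s + 1)
    (h2 : 2 * p + a2 + 2 * q + b2 + e = s + 2) : False := by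
  obtain ⟨a, ha⟩ : ∃ a, 2 * p + a2 = a + 200 := ⟨2 * p + a2 - 200, by omega⟩
  obtain ⟨b, hb⟩ : ∃ b, 2 * q + b2 = b + 200 := ⟨2 * q + b2 - 200, by omega⟩
  rw [ha, hb] at h1
  have h3 : s + 2 = a + b + 400 + e := by omega
  nlinarith [Nat.zero_le (a * b)]

theorem fin_all (hE : EdS) (hU : UpS) (hC : CntS) (hA3 : Ari3S) (hB : BookS)
    (hLow : LowS) (hW : WfS) (hCon : ConS) (hPen : PenS)
    (T : Set ℕ) (h5 : 5 ∈ T) (hT : ∀ t ∈ T, 5 ≤ t) (m : ℕ) (hm : 10 ^ 72 ≤ m) :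
    (∀ (V : Type) [Fintype V] (G : SimpleGraph V), (∀ v, ∃ w, G.Adj v w) →
      (∀ t ∈ T, ¬ (wheel (t - 1)).IsContained G) → G.edgeSet.ncard = m →
      lam G ≤ (1 + √(4 * (m : ℝ) - 3)) / 2 ∧
        (lam G = (1 + √(4 * (m : ℝ) - 3)) / 2 ↔
          ∃ s : ℕ, m = 2 * s + 1 ∧ Nonempty (G ≃g split 2 s))) ↔ ¬ Exc m := by
  obtain ⟨hθ, hθ1⟩ := th_Fin m hm
  set θ := (1 + √(4 * (m : ℝ) - 3)) / 2 with hθdef
  constructor
  · intro hH hexc
    have main : ∀ (V : Type) [Fintype V] (G : SimpleGraph V) (σ : V → Bool), (∀ u, NI G u) →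
        Par G σ → ed G = m → θ ≤ lam G → ∃ s : ℕ, m = 2 * s + 1 ∧ Fintype.card V = s + 2 := by
      intro V _ G σ hG hPar hed hle
      have hn : G.edgeSet.ncard = m := by
        have := (hE V G).1
        rw [hed] at this
        exact_mod_cast this.symm
      obtain ⟨h1, h2⟩ := hH V G hG
        (fun t ht => (hW V G).2 σ hPar (t - 1) (by have := hT t ht; omega)) hn
      obtain ⟨s, hs, hiso⟩ := h2.1 (le_antisymm h1 hle)
      refine ⟨s, hs, ((hB V G).2 s θ hiso (by linarith) ?_).2⟩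
      rw [hθ, hs]; push_cast; ring
    have hm12 : 10 ^ 12 ≤ m := le_trans (by norm_num) hm
    rcases hA3 m (θ - 1) hm12 hexc (by linarith) (by linarith) with
      ⟨p, a2, q, b2, hmm, hp, hq, -, hTin⟩ | ⟨p, q, hmm, hp, hq⟩
    · obtain ⟨V, _, G, σ, hG, hPar, hmu, h1, h2, h3, h4, hcard⟩ :=
        hCon p a2 q b2 (by omega) (by omega)
      have hed : ed G = m := by
        have := (hC V G σ hPar).2.1
        rw [hmu, h1, h2, h3, h4] at this
        rw [hmm]; push_cast at this ⊢; linarith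
      have hl := hLow V G σ (θ - 1) hmu (by linarith) (by rwa [h1, h2, h3, h4])
      obtain ⟨s, hs1, hs2⟩ := main V G σ hG hPar hed (by linarith)
      exact card_Fin p a2 q b2 s hp hq 0 (by omega) (by omega) (by omega)
    · obtain ⟨V, _, G, σ, hG, hPar, hed, hcard, hl⟩ := hPen p q θ hp hq hθ1.le
        (by rw [hθ, hmm]; push_cast; ring)
      obtain ⟨s, hs1, hs2⟩ := main V G σ hG hPar (by rw [hed, hmm]; push_cast; ring) hl
      refine card_Fin p 0 q 0 s hp (by omega) 1 le_rfl ?_ (by omega)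
      rw [← hs1, hmm]; ring
  · intro hexc V _ G hG hfree hn
    have hK : K122 G := (hW V G).1 (hfree 5 h5)
    have hed : ed G = m := by rw [(hE V G).1, hn]
    have main : θ ≤ lam G → lam G = θ ∧ ∃ s : ℕ, m = 2 * s + 1 ∧ Nonempty (G ≃g split 2 s) := by
      intro hle
      rcases hU V G m hG hK hed hm (by nlinarith) with ⟨h1, h2⟩ | h
      · refine ⟨?_, h2⟩
        have h3 : (lam G - θ) * (lam G + θ - 1) = 0 := by linarith
        rcases mul_eq_zero.1 h3 with h4 | h4 <;> linarith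
      · exact absurd h hexc
    refine ⟨?_, fun h => (main h.ge).2, ?_⟩
    · by_contra hlt
      push Not at hlt
      exact hlt.ne' (main hlt.le).1
    · rintro ⟨s, hs, hiso⟩
      refine (main ((hB V G).2 s θ hiso (by linarith) ?_).1).1
      rw [hθ, hs]; push_cast; ring

end W5

end

section

namespace W5

open Finset
open scoped Classical

theorem poly_Ari2 {u t G M : ℝ} (hu : 0 ≤ u) (ht : 0 ≤ t) (h1 : t * u ≤ G) (h2 : M ≤ t ^ 2 + t) :
    M * u ^ 2 ≤ G * (G + u) := by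
  have h0 : 0 ≤ t * u := mul_nonneg ht hu
  have h3 : M * u ^ 2 ≤ (t ^ 2 + t) * u ^ 2 := mul_le_mul_of_nonneg_right h2 (sq_nonneg _)
  have h4 : (t * u) * (t * u + u) ≤ G * (G + u) :=
    mul_le_mul h1 (by linarith) (by linarith) (by linarith)
  nlinarith

theorem c00_Ari2 (p q : ℤ) (hp : 1000 ≤ p) (hq : 1000 ≤ q)
    (h : (4 * p * q + (p + q - 1)) * (p + q - 1) ^ 2 ≤ 4 * p * q * (4 * p * q + (p + q - 1))) :
    (p - q) ^ 2 + 1 ≤ 2 * (p + q) := by
  have h0 : 0 < 4 * p * q + (p + q - 1) := by nlinarith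
  have h1 : (p + q - 1) ^ 2 ≤ 4 * p * q := by
    by_contra hlt
    push Not at hlt
    nlinarith
  nlinarith

theorem c10_Ari2 (u e r : ℤ) (hu : 100000 ≤ u) (he : e ^ 2 ≤ 2 * u + 2) (hr : r = u + e - e ^ 2)
    (h : 0 ≤ u ^ 2 * (r + 2) + 3 * u * (1 - e + r) + (1 - e + r) ^ 2) :
    -1 ≤ r ∨ (r = -2 ∧ e < 0) := by
  have h1 : 100 * e ≤ u := by nlinarith
  have h2 : -u ≤ 100 * e := by nlinarith
  by_contra hc
  push Not at hc
  obtain ⟨h3, h4⟩ := hc
  by_cases h5 : r = -2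
  · have h6 := h4 h5
    rw [h5] at h
    nlinarith
  · obtain ⟨k, hk⟩ : ∃ k, r = -k := ⟨-r, by ring⟩
    have hk3 : 3 ≤ k := by omega
    have hk4 : k ≤ 2 * u := by nlinarith
    subst hk
    have h7 : (1 - e + -k) ^ 2 ≤ 2 * k ^ 2 + 2 * (1 - e) ^ 2 := by nlinarith [sq_nonneg (1 - e + k)]
    have h8 : k ^ 2 ≤ 2 * u * k := by nlinarith
    have h9 : 100 * (1 - e) ^ 2 ≤ u ^ 2 := by nlinarith
    have h10 : 100 * (u * (1 - e + -k)) ≤ u ^ 2 := by nlinarith
    have h11 : 3 * (u * (u - 12)) ≤ k * (u * (u - 12)) :=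
      mul_le_mul_of_nonneg_right hk3 (by nlinarith)
    have h12 : 3 * u ^ 2 ≤ k * u ^ 2 := mul_le_mul_of_nonneg_right hk3 (by positivity)
    nlinarith

theorem c20_Ari2 (u e : ℤ) (hu : 100000 ≤ u) (he : e ^ 2 ≤ 2 * u + 2)
    (h : u ^ 2 * (e - 1) ^ 2 ≤ (3 * u + 1 - e ^ 2) * (2 * u + 1 - e ^ 2)) : |e + 1| ≤ 4 := by
  have h1 : (3 * u + 1 - e ^ 2) * (2 * u + 1 - e ^ 2) ≤ (3 * u + 1) * (2 * u + 1) := by
    nlinarith [sq_nonneg e]
  have h2 : (e - 1) ^ 2 < 9 := by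
    by_contra hc
    push Not at hc
    have : u ^ 2 * 9 ≤ u ^ 2 * (e - 1) ^ 2 := mul_le_mul_of_nonneg_left hc (by positivity)
    nlinarith
  rw [abs_le]
  constructor <;> nlinarith

theorem c11_Ari2 (u z t : ℝ) (hu : 100000 ≤ u) (hz : z ≤ 2 * u + 2) (ht : 10 ^ 6 ≤ t)
    (h1 : u * t * (t + 1) + t ≤ ((u + 1) ^ 2 - z) * (t + 1))
    (h2 : (u + 1) ^ 2 - z + 3 * u + 3 ≤ t ^ 2 + t) : z < 4 := by
  by_contra hc
  push Not at hc
  have h3 : t * u ≤ (u + 1) ^ 2 - z - 0.99 := by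
    by_contra hlt
    push Not at hlt
    have := mul_lt_mul_of_pos_right hlt (show 0 < t + 1 by linarith)
    nlinarith
  have h4 := poly_Ari2 (by linarith) (by linarith) h3 h2
  have h5 : z * z ≤ z * (2 * u + 2) := mul_le_mul_of_nonneg_left hz (by linarith)
  have h6 : 4 * u ^ 2 ≤ z * u ^ 2 := mul_le_mul_of_nonneg_right hc (by positivity)
  have h7 : 0 ≤ z * (3 * u - 2) := mul_nonneg (by linarith) (by linarith)
  nlinarith

theorem f10_Ari2 (p q : ℕ) (t : ℝ) (hp : 100000 ≤ p) (hq : 100000 ≤ q) (ht : 0 ≤ t)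
    (he : ((p : ℤ) - q) ^ 2 ≤ 2 * (p + q)) (h1 : t * ((p : ℝ) + q - 1) ≤ 4 * p * q)
    (h2 : (2 * (p : ℝ) + 1) * (2 * q) + (p + q - 1) ≤ t ^ 2 + t) :
    Exc (4 * p * q + p + 3 * q) := by
  have hp' : (100000 : ℝ) ≤ p := by exact_mod_cast hp
  have hq' : (100000 : ℝ) ≤ q := by exact_mod_cast hq
  have h3 := poly_Ari2 (by linarith) ht h1 h2
  have h4 : ((2 * (p : ℤ) + 1) * (2 * q) + (p + q - 1)) * (p + q - 1) ^ 2 ≤
      4 * p * q * (4 * p * q + (p + q - 1)) := by exact_mod_cast h3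
  have h5 := c10_Ari2 ((p : ℤ) + q - 1) (p - q) (2 * p - 1 - (p - q) ^ 2) (by omega) (by linarith)
    (by ring) (by nlinarith)
  refine ⟨p, q, Or.inr (Or.inl ⟨rfl, ?_⟩)⟩
  rcases h5 with h5 | ⟨h5, h6⟩
  · left; linarith
  · right; exact ⟨by linarith, by omega⟩

theorem f20_Ari2 (p q : ℕ) (t : ℝ) (hp : 100000 ≤ p) (hq : 100000 ≤ q) (ht : 0 ≤ t)
    (he : ((p : ℤ) - q) ^ 2 ≤ 2 * (p + q)) (h1 : t * ((p : ℝ) + q - 1) ≤ 4 * p * q)
    (h2 : (2 * (p : ℝ) + 2) * (2 * q) + (p + q - 1) ≤ t ^ 2 + t) :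
    Exc ((2 * p + 2) * (2 * q) + p + q) := by
  have hp' : (100000 : ℝ) ≤ p := by exact_mod_cast hp
  have hq' : (100000 : ℝ) ≤ q := by exact_mod_cast hq
  have h3 := poly_Ari2 (by linarith) ht h1 h2
  have h4 : ((2 * (p : ℤ) + 2) * (2 * q) + (p + q - 1)) * (p + q - 1) ^ 2 ≤
      4 * p * q * (4 * p * q + (p + q - 1)) := by exact_mod_cast h3
  have h5 := c20_Ari2 ((p : ℤ) + q - 1) (p - q) (by omega) (by linarith) (by nlinarith)
  refine ⟨p + 1, q, Or.inr (Or.inr (Or.inl ⟨by ring, ?_⟩))⟩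
  push_cast
  rwa [show (p : ℤ) + 1 - q = p - q + 1 by ring]

theorem ari2S : Ari2S := by
  intro p a2 q b2 t ht hT hd hk he hp hq
  have hp1 : 100000 ≤ p := by
    have : (100000 : ℝ) ≤ p := by linarith
    exact_mod_cast this
  have hq1 : 100000 ≤ q := by
    have : (100000 : ℝ) ≤ q := by linarith
    exact_mod_cast this
  have hp' : (100000 : ℝ) ≤ p := by exact_mod_cast hp1
  have hq' : (100000 : ℝ) ≤ q := by exact_mod_cast hq1
  have he' : ((p : ℤ) - q) ^ 2 ≤ 2 * (p + q) := by exact_mod_cast he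
  have he'' : ((q : ℤ) - p) ^ 2 ≤ 2 * (q + p) := by linarith
  have ht0 : 0 < t := by linarith
  have hK : ((p : ℝ) + q - 1) * t * (t + 1) + a2 * b2 * t ≤ 4 * p * q * (t + 1) := by
    unfold Tin at hT
    push_cast at hT
    have h1 : dl p a2 q b2 t * (t * (t + 1)) ≤ 1 * (t * (t + 1)) :=
      mul_le_mul_of_nonneg_right hd (by positivity)
    unfold dl at h1
    nlinarith
  have hM : (2 * (p : ℝ) + a2) * (2 * q + b2) + (p + q - 1) ≤ t ^ 2 + t := by
    unfold dl at hd; linarith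
  have hG : t * ((p : ℝ) + q - 1) ≤ 4 * p * q := by
    have h0 : (0 : ℝ) ≤ a2 * b2 * t := by positivity
    by_contra hlt
    push Not at hlt
    have := mul_lt_mul_of_pos_right hlt (show 0 < t + 1 by linarith)
    nlinarith
  have hG' : t * ((q : ℝ) + p - 1) ≤ 4 * q * p := by linarith
  have hc : (a2 = 0 ∧ b2 = 0) ∨ (a2 = 1 ∧ b2 = 0) ∨ (a2 = 0 ∧ b2 = 1) ∨ (a2 = 2 ∧ b2 = 0) ∨
      (a2 = 0 ∧ b2 = 2) ∨ (a2 = 1 ∧ b2 = 1) := by omega
  rcases hc with ⟨rfl, rfl⟩ | ⟨rfl, rfl⟩ | ⟨rfl, rfl⟩ | ⟨rfl, rfl⟩ | ⟨rfl, rfl⟩ | ⟨rfl, rfl⟩ <;>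
    push_cast at hM hK
  · have h3 := poly_Ari2 (by linarith) ht0.le hG
      (show 4 * (p : ℝ) * q + (p + q - 1) ≤ t ^ 2 + t by linarith)
    have h4 : (4 * (p : ℤ) * q + (p + q - 1)) * (p + q - 1) ^ 2 ≤
        4 * p * q * (4 * p * q + (p + q - 1)) := by exact_mod_cast h3
    exact ⟨p, q, Or.inl ⟨by ring, c00_Ari2 p q (by omega) (by omega) h4⟩⟩
  · have := f10_Ari2 p q t hp1 hq1 ht0.le he' hG (by linarith)
    rwa [show (2 * p + 1) * (2 * q + 0) + p + q = 4 * p * q + p + 3 * q by ring]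
  · have := f10_Ari2 q p t hq1 hp1 ht0.le he'' hG' (by linarith)
    rwa [show (2 * p + 0) * (2 * q + 1) + p + q = 4 * q * p + q + 3 * p by ring]
  · exact f20_Ari2 p q t hp1 hq1 ht0.le he' hG (by linarith)
  · have := f20_Ari2 q p t hq1 hp1 ht0.le he'' hG' (by linarith)
    rwa [show (2 * p + 0) * (2 * q + 2) + p + q = (2 * q + 2) * (2 * p) + q + p by ring]
  · have h5 := c11_Ari2 ((p : ℝ) + q - 1) (((p : ℝ) - q) ^ 2) t (by linarith) (by linarith) ht
      (by nlinarith) (by nlinarith)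
    refine ⟨p, q, Or.inr (Or.inr (Or.inr (Or.inl ⟨rfl, ?_⟩)))⟩
    have h6 : ((p : ℤ) - q) ^ 2 < 4 := by exact_mod_cast h5
    rw [abs_le]
    constructor <;> nlinarith

end W5

end
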