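import Pool.Agent.MP_1392dc_co.St

section

/-! Working definitions and the statements of the steps of the proof. -/

namespace W5

open Finset
open scoped Classical

section
variable {V : Type} [Fintype V]

/-- Sum of `x` over the neighbours of `u`. -/
noncomputable def ns (G : SimpleGraph V) (x : V → ℝ) (u : V) : ℝ :=
  ∑ v, if G.Adj u v then x v else 0
/-- The quadratic form of the adjacency matrix. -/
noncomputable def qf (G : SimpleGraph V) (x : V → ℝ) : ℝ := ∑ u, x u * ns G x u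
/-- Squared norm. -/
noncomputable def nn (x : V → ℝ) : ℝ := ∑ u, x u ^ 2
/-- Degree, as a real number. -/
noncomputable def dg (G : SimpleGraph V) (u : V) : ℝ := ns G (fun _ => 1) u
/-- Number of edges, as a real number. -/
noncomputable def ed (G : SimpleGraph V) : ℝ := (∑ u, dg G u) / 2
/-- Weight of a set of vertices. -/
noncomputable def wt (x : V → ℝ) (S : V → Prop) : ℝ := ∑ v, if S v then x v ^ 2 else 0

/-- No wheel on five vertices. -/
def K122 (G : SimpleGraph V) : Prop :=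
  ∀ w a b p q, G.Adj w a → G.Adj w b → G.Adj w p → G.Adj w q → a ≠ b →
    G.Adj a p → G.Adj a q → G.Adj b p → G.Adj b q → p = q
/-- Not isolated. -/
def NI (G : SimpleGraph V) (u : V) : Prop := ∃ v, G.Adj u v
/-- Every vertex has at most one neighbour on its own side. -/
def Par (G : SimpleGraph V) (σ : V → Bool) : Prop :=
  ∀ w a b, G.Adj w a → G.Adj w b → σ a = σ w → σ b = σ w → a = b
/-- The vertex has a neighbour on its own side. -/
def Mt (G : SimpleGraph V) (σ : V → Bool) (u : V) : Prop := ∃ v, G.Adj u v ∧ σ v = σ u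

/-- Number of matched vertices on side `c`. -/
noncomputable def mt (G : SimpleGraph V) (σ : V → Bool) (c : Bool) : ℕ :=
  (univ.filter fun u => σ u = c ∧ Mt G σ u).card
/-- Number of non-isolated unmatched vertices on side `c`. -/
noncomputable def um (G : SimpleGraph V) (σ : V → Bool) (c : Bool) : ℕ :=
  (univ.filter fun u => σ u = c ∧ NI G u ∧ ¬ Mt G σ u).card
/-- A missing cross pair. -/
def Ms (G : SimpleGraph V) (σ : V → Bool) (u v : V) : Prop :=
  σ u = true ∧ σ v = false ∧ NI G u ∧ NI G v ∧ ¬ G.Adj u v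
/-- Number of missing cross pairs. -/
noncomputable def mu (G : SimpleGraph V) (σ : V → Bool) : ℕ :=
  (univ.filter fun e : V × V => Ms G σ e.1 e.2).card
/-- Weight of the missing cross pairs. -/
noncomputable def mw (G : SimpleGraph V) (σ : V → Bool) (x : V → ℝ) : ℝ :=
  ∑ u, ∑ v, if Ms G σ u v then 2 * x u * x v else 0

noncomputable def eps : ℝ := 1 / 20480000
noncomputable def kap : ℝ := 1 / 640000

/-- A Perron vector with squared norm `2 l - 1`. -/
structure Per (H : SimpleGraph V) (l : ℝ) (x : V → ℝ) : Prop where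
  pos : ∀ u, 0 ≤ x u
  eig : ∀ u, ns H x u = l * x u
  nrm : nn x = 2 * l - 1
  ray : ∀ y, qf H y ≤ l * nn y

/-- The properties of the core. -/
structure Core (H : SimpleGraph V) (l : ℝ) (x : V → ℝ) : Prop where
  per : Per H l x
  free : K122 H
  big : 10 ^ 32 ≤ l
  he : ∀ u v, H.Adj u v → 1 - eps ≤ 2 * x u * x v
  hv : ∀ u, (1 - eps) * dg H u ≤ l * x u ^ 2 + x u ^ 4 / 4
  hm : ed H ≤ l ^ 2 - l + 1

theorem qf_eq (G : SimpleGraph V) (x : V → ℝ) :
    qf G x = ∑ u, ∑ v, if G.Adj u v then x u * x v else 0 := by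
  unfold qf ns
  refine sum_congr rfl fun u _ => ?_
  rw [mul_sum]
  refine sum_congr rfl fun v _ => ?_
  split_ifs <;> simp

theorem two_ed (G : SimpleGraph V) :
    2 * ed G = ∑ u, ∑ v, if G.Adj u v then (1 : ℝ) else 0 := by
  unfold ed dg ns; ring

theorem wt_nonneg (x : V → ℝ) (S : V → Prop) : 0 ≤ wt x S :=
  sum_nonneg fun v _ => by split_ifs <;> positivity

theorem wt_mono (x : V → ℝ) {S T : V → Prop} (h : ∀ v, S v → T v) : wt x S ≤ wt x T :=
  sum_le_sum fun v _ => by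
    by_cases hs : S v
    · simp [hs, h v hs]
    · simp only [hs, if_false]; split_ifs <;> positivity

theorem wt_le_nn (x : V → ℝ) (S : V → Prop) : wt x S ≤ nn x :=
  sum_le_sum fun v _ => by split_ifs <;> [exact le_rfl; positivity]

theorem wt_split (x : V → ℝ) (S T : V → Prop) :
    wt x S = wt x (fun v => S v ∧ T v) + wt x (fun v => S v ∧ ¬ T v) := by
  unfold wt
  rw [← sum_add_distrib]
  refine sum_congr rfl fun v _ => ?_
  by_cases hs : S v <;> by_cases ht : T v <;> simp [hs, ht]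

theorem wt_compl (x : V → ℝ) (S : V → Prop) : wt x S + wt x (fun v => ¬ S v) = nn x := by
  unfold wt nn
  rw [← sum_add_distrib]
  refine sum_congr rfl fun v _ => ?_
  by_cases hs : S v <;> simp [hs]

theorem wt_le_of_sub (x : V → ℝ) (S : V → Prop) (c : ℝ) (hc : 0 ≤ c) (hx : ∀ v, x v ^ 2 ≤ c)
    (h : ∀ p q, S p → S q → p = q) : wt x S ≤ c := by
  by_cases he : ∃ p, S p
  · obtain ⟨p, hp⟩ := he
    have : wt x S = x p ^ 2 := by
      unfold wt
      rw [sum_eq_single p]
      · simp [hp]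
      · intro b _ hb
        have : ¬ S b := fun hb' => hb (h _ _ hb' hp)
        simp [this]
      · simp
    rw [this]; exact hx p
  · push Not at he
    have : wt x S = 0 := by unfold wt; simp [he]
    rw [this]; exact hc

theorem ns_sq_le (G : SimpleGraph V) (x : V → ℝ) (u : V) :
    ns G x u ^ 2 ≤ dg G u * wt x (G.Adj u) := by
  have h := sum_mul_sq_le_sq_mul_sq univ (fun v => if G.Adj u v then (1 : ℝ) else 0)
    (fun v => if G.Adj u v then x v else 0)
  have e1 : ns G x u = ∑ v, (if G.Adj u v then (1 : ℝ) else 0) * (if G.Adj u v then x v else 0) :=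
    sum_congr rfl fun v _ => by split_ifs <;> simp
  have e2 : dg G u = ∑ v, (if G.Adj u v then (1 : ℝ) else 0) ^ 2 :=
    sum_congr rfl fun v _ => by split_ifs <;> simp
  have e3 : wt x (G.Adj u) = ∑ v, (if G.Adj u v then x v else 0) ^ 2 :=
    sum_congr rfl fun v _ => by split_ifs <;> simp
  rw [e1, e2, e3]; exact h

theorem Per.zero {H : SimpleGraph V} {l : ℝ} {x : V → ℝ} (h : Per H l x) (hl : 0 < l) {u : V}
    (hu : ¬ NI H u) : x u = 0 := by
  have h1 := h.eig u
  have h2 : ns H x u = 0 := by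
    unfold ns
    refine sum_eq_zero fun v _ => ?_
    have : ¬ H.Adj u v := fun hv => hu ⟨v, hv⟩
    simp [this]
  rw [h2] at h1
  rcases mul_eq_zero.1 h1.symm with h3 | h3
  · exact absurd h3 hl.ne'
  · exact h3

theorem Per.qf_val {H : SimpleGraph V} {l : ℝ} {x : V → ℝ} (h : Per H l x) :
    qf H x = l * (2 * l - 1) := by
  rw [← h.nrm]; unfold qf nn
  rw [mul_sum]
  exact sum_congr rfl fun u _ => by rw [h.eig]; ring

theorem ray_F {H : SimpleGraph V} {l : ℝ} (h : ∀ y, qf H y ≤ l * nn y) (y : V → ℝ) :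
    qf H y - (nn y + 1) ^ 2 / 4 ≤ l ^ 2 - l := by
  have := h y
  nlinarith [sq_nonneg ((nn y + 1) / 2 - l)]

end

/-- The five families of exceptional sizes. -/
def Exc (m : ℕ) : Prop := ∃ p q : ℕ,
  (m = 4 * p * q + p + q ∧ ((p : ℤ) - q) ^ 2 + 1 ≤ 2 * (p + q)) ∨
  (m = 4 * p * q + p + 3 * q ∧
    (((p : ℤ) - q) ^ 2 ≤ 2 * p ∨ (((p : ℤ) - q) ^ 2 = 2 * p + 1 ∧ p < q))) ∨
  (m + 1 = 4 * p * q + p + q ∧ |(p : ℤ) - q| ≤ 4) ∨
  (m = (2 * p + 1) * (2 * q + 1) + p + q ∧ |(p : ℤ) - q| ≤ 1) ∨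
  (m = 4 * p * q + p + q + 1 ∧ |(p : ℤ) - q| ≤ 1)

/-- The inequality `(a t + a') (b t + b') ≥ t ^ 2 (t + 1) ^ 2`. -/
def Tin (a1 a2 b1 b2 : ℕ) (t : ℝ) : Prop :=
  t ^ 2 * (t + 1) ^ 2 ≤ (((a1 : ℝ) + a2) * t + a1) * (((b1 : ℝ) + b2) * t + b1)

/-- The defect `a b + s - t ^ 2 - t`. -/
noncomputable def dl (p a2 q b2 : ℕ) (t : ℝ) : ℝ :=
  (2 * (p : ℝ) + a2) * (2 * (q : ℝ) + b2) + p + q - t ^ 2 - t

def PerS : Prop := ∀ (V : Type) [Fintype V] (G : SimpleGraph V),
  0 ≤ lam G ∧ (∀ y, qf G y ≤ lam G * nn y) ∧ (1 ≤ lam G → ∃ x, Per G (lam G) x)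

def EdS : Prop := ∀ (V : Type) [Fintype V] (G : SimpleGraph V),
  ed G = (G.edgeSet.ncard : ℝ) ∧ ∀ H : SimpleGraph V, H ≤ G →
    (∃ ν : ℕ, ed G = ed H + ν) ∧ (ed G = ed H → G = H) ∧
    (ed G = ed H + 1 → ∃ p w, G.Adj p w ∧ ¬ H.Adj p w ∧
      ∀ u v, G.Adj u v ↔ H.Adj u v ∨ (u = p ∧ v = w) ∨ (u = w ∧ v = p))

def OpS : Prop := ∀ (V : Type) [Fintype V] (G : SimpleGraph V),
  (∀ (H : SimpleGraph V) (p w : V), p ≠ w → ¬ H.Adj p w →
    (∀ u v, G.Adj u v ↔ H.Adj u v ∨ (u = p ∧ v = w) ∨ (u = w ∧ v = p)) →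
    (∀ y, qf G y = qf H y + 2 * y p * y w) ∧ ed G = ed H + 1) ∧
  (∀ (H : SimpleGraph V) (w : V), (∀ u v, H.Adj u v ↔ G.Adj u v ∧ u ≠ w ∧ v ≠ w) →
    (∀ y, qf H (Function.update y w 0) = qf G y - 2 * y w * ns G y w) ∧ ed H = ed G - dg G w) ∧
  (∀ (y : V → ℝ) (w : V), nn (Function.update y w 0) = nn y - y w ^ 2)

def CoreS : Prop := ∀ (V : Type) [Fintype V] (G : SimpleGraph V), K122 G → 10 ^ 72 ≤ ed G →
  ed G - 1 ≤ lam G ^ 2 - lam G → ∃ (H : SimpleGraph V) (l : ℝ) (x : V → ℝ), H ≤ G ∧ Core H l x ∧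
    (∀ u v, G.Adj u v → ¬ H.Adj u v → 2 * x u * x v ≤ 1 - eps) ∧
    lam G ^ 2 - lam G - ed G + eps * (ed G - ed H) ≤ l ^ 2 - l - ed H

def NbS : Prop := ∀ (V : Type) [Fintype V] (H : SimpleGraph V) (l : ℝ) (x : V → ℝ), Core H l x →
  ∀ u, NI H u → (1 - eps) * l ^ 2 ≤ wt x (H.Adj u) * (l + x u ^ 2 / 4)

def KstS : Prop := ∀ (V : Type) [Fintype V] (H : SimpleGraph V) (l : ℝ) (x : V → ℝ), Core H l x →
  (∀ u, x u ^ 2 ≤ kap * l) → ∀ w,
    (∑ a, if H.Adj w a then x a ^ 2 * wt x (fun b => H.Adj a b ∧ H.Adj w b) else 0) ≤ l ^ 2 / 200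

def Light1S : Prop := ∀ (V : Type) [Fintype V] (H : SimpleGraph V) (l : ℝ) (x : V → ℝ),
  Core H l x → (∀ u, x u ^ 2 ≤ kap * l) → ∃ A B : V → Prop, (∀ v, A v → ¬ B v) ∧
    0.989 * l ≤ wt x A ∧ 0.999 * l ≤ wt x B ∧
    ∀ w, wt x (fun v => H.Adj w v ∧ A v) * wt x (fun v => H.Adj w v ∧ B v) ≤ 0.014 * l ^ 2

def LightS : Prop := ∀ (V : Type) [Fintype V] (H : SimpleGraph V) (l : ℝ) (x : V → ℝ),
  Core H l x → (∀ u, x u ^ 2 ≤ kap * l) → ∃ σ, Par H σ

def Heavy1S : Prop := ∀ (V : Type) [Fintype V] (H : SimpleGraph V) (l : ℝ) (x : V → ℝ),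
  Core H l x → ∀ u0, (∀ v, x v ≤ x u0) → kap * l ≤ x u0 ^ 2 →
    ((univ.filter fun v => x u0 / 4 ≤ x v).card : ℝ) ≤ 20480000 ∧
    ∀ v, x v < x u0 / 4 → x v ≤ 1 / 2

def HeavyS : Prop := ∀ (V : Type) [Fintype V] (H : SimpleGraph V) (l : ℝ) (x : V → ℝ),
  Core H l x → (∃ u, kap * l ≤ x u ^ 2) → ∃ σ, Par H σ ∧ mu H σ = 0 ∧ mt H σ false = 0

def XbS : Prop := ∀ (V : Type) [Fintype V] (H : SimpleGraph V) (l : ℝ) (x : V → ℝ) (σ : V → Bool),
  Core H l x → (∀ u, x u ^ 2 ≤ kap * l) → Par H σ → ∃ α : Bool → ℝ,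
    (∀ u, x u ≤ α (σ u)) ∧ (∀ u, NI H u → 0.99 * α (σ u) ≤ x u) ∧ (∀ c, 0 ≤ α c) ∧
    0.99 ≤ α true * α false ∧ ∀ c, wt x (fun v => σ v = c) ≤ 1.01 * l

def CntS : Prop := ∀ (V : Type) [Fintype V] (H : SimpleGraph V) (σ : V → Bool), Par H σ →
  (∀ c, ∃ p, mt H σ c = 2 * p) ∧
  ed H + mu H σ = ((mt H σ true : ℝ) + um H σ true) * ((mt H σ false : ℝ) + um H σ false) +
    ((mt H σ true : ℝ) + mt H σ false) / 2 ∧
  (∀ u, dg H u ≤ (mt H σ (!σ u) : ℝ) + um H σ (!σ u) + 1) ∧
  (∀ (y : V → ℝ) (c : Bool),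
    (∑ u, ∑ v, if H.Adj u v ∧ σ u = c ∧ σ v = c then y u * y v else 0) ≤
      wt y (fun u => σ u = c ∧ Mt H σ u))

def TinS : Prop := ∀ (V : Type) [Fintype V] (H : SimpleGraph V) (l : ℝ) (x : V → ℝ) (σ : V → Bool)
  (t : ℝ), Per H l x → 1 ≤ l → Par H σ → 0 < t → t ^ 2 + t = l ^ 2 - l + mw H σ x →
    Tin (mt H σ true) (um H σ true) (mt H σ false) (um H σ false) t

def Ari1S : Prop := ∀ (p a2 q b2 : ℕ) (t : ℝ), 10 ^ 6 ≤ t → Tin (2 * p) a2 (2 * q) b2 t →
  dl p a2 q b2 t ≤ 1 →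
    (dl p a2 q b2 t = 1 ∧ ((p = 1 ∧ a2 = 0 ∧ q = 0) ∨ (q = 1 ∧ b2 = 0 ∧ p = 0))) ∨
    (((p : ℝ) - q) ^ 2 ≤ 2 * (p + q) * dl p a2 q b2 t ∧ 0.45 * ((a2 : ℝ) + b2) ≤ dl p a2 q b2 t ∧
      (p : ℝ) + q ≤ t + 2 ∧ 0.9 * t ≤ 2 * p ∧ 0.9 * t ≤ 2 * q ∧
      2 * (p : ℝ) + a2 ≤ 1.1 * t ∧ 2 * (q : ℝ) + b2 ≤ 1.1 * t)

def Ari2S : Prop := ∀ (p a2 q b2 : ℕ) (t : ℝ), 10 ^ 6 ≤ t → Tin (2 * p) a2 (2 * q) b2 t →
  dl p a2 q b2 t ≤ 1 → a2 + b2 ≤ 2 → ((p : ℝ) - q) ^ 2 ≤ 2 * (p + q) →
  0.9 * t ≤ 2 * p → 0.9 * t ≤ 2 * q → Exc ((2 * p + a2) * (2 * q + b2) + p + q)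

def Ari3S : Prop := ∀ (m : ℕ) (t : ℝ), 10 ^ 12 ≤ m → Exc m → 0 < t → t ^ 2 + t = m - 1 →
  (∃ p a2 q b2 : ℕ, m = (2 * p + a2) * (2 * q + b2) + p + q ∧ 100 ≤ p ∧ 100 ≤ q ∧ a2 + b2 ≤ 2 ∧
    Tin (2 * p) a2 (2 * q) b2 t) ∨
  (∃ p q : ℕ, m = 4 * p * q + p + q + 1 ∧ 100 ≤ p ∧ (q = p ∨ q = p + 1))

def MuS : Prop := ∀ (V : Type) [Fintype V] (H : SimpleGraph V) (l : ℝ) (x : V → ℝ) (σ : V → Bool),
  Per H l x → 10 ^ 6 ≤ l → Par H σ → um H σ true = 0 → um H σ false = 0 → mu H σ = 1 →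
  (∀ u, x u ^ 2 ≤ 2) → 2 - 11 / (l - 1) ≤ mw H σ x

def Nu1S : Prop := ∀ (V : Type) [Fintype V] (G H : SimpleGraph V) (L l : ℝ) (y : V → ℝ),
  H ≤ G → Per G L y → (∀ z, qf H z ≤ l * nn z) → 10 ^ 30 ≤ L → ed G - ed H ≤ 10 ^ 8 →
  (∀ u, dg H u ≤ 1.5 * L) → (∀ u v, G.Adj u v → ¬ H.Adj u v → ¬ NI H u ∨ ¬ NI H v) →
  L ^ 2 - L - ed G + 0.9 * (ed G - ed H) ≤ l ^ 2 - l - ed H

def Nu2S : Prop := ∀ (V : Type) [Fintype V] (G H : SimpleGraph V) (L l : ℝ) (y : V → ℝ)
  (σ : V → Bool) (p w : V), Per G L y → (∀ z, qf H z ≤ l * nn z) → 10 ^ 6 ≤ L → Par H σ →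
  p ≠ w → ¬ NI H w → (∀ u v, G.Adj u v ↔ H.Adj u v ∨ (u = p ∧ v = w) ∨ (u = w ∧ v = p)) →
  (∀ c, (mt H σ c : ℝ) + um H σ c ≤ 1.15 * L) → L ^ 2 - L - 1.4 / L ≤ l ^ 2 - l

def BookS : Prop := ∀ (V : Type) [Fintype V] (G : SimpleGraph V),
  (∀ (σ : V → Bool) (c : Bool), (∀ u, NI G u) → mu G σ = 0 → mt G σ c = 2 → um G σ c = 0 →
    mt G σ (!c) = 0 → Nonempty (G ≃g split 2 (um G σ (!c)))) ∧
  (∀ (s : ℕ) (θ : ℝ), Nonempty (G ≃g split 2 s) → 0 < θ → θ ^ 2 - θ = 2 * s →
    θ ≤ lam G ∧ Fintype.card V = s + 2)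

def LowS : Prop := ∀ (V : Type) [Fintype V] (G : SimpleGraph V) (σ : V → Bool) (t : ℝ),
  mu G σ = 0 → 0 < t → Tin (mt G σ true) (um G σ true) (mt G σ false) (um G σ false) t →
  t + 1 ≤ lam G

def WfS : Prop := ∀ (V : Type) [Fintype V] (G : SimpleGraph V),
  (¬ (wheel 4).IsContained G → K122 G) ∧
  (∀ σ, Par G σ → ∀ n, 4 ≤ n → ¬ (wheel n).IsContained G)

def ConS : Prop := ∀ p a2 q b2 : ℕ, 0 < p → 0 < q →
  ∃ (V : Type) (_ : Fintype V) (G : SimpleGraph V) (σ : V → Bool), (∀ u, NI G u) ∧ Par G σ ∧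
    mu G σ = 0 ∧ mt G σ true = 2 * p ∧ um G σ true = a2 ∧ mt G σ false = 2 * q ∧
    um G σ false = b2 ∧ Fintype.card V = 2 * p + a2 + 2 * q + b2

def PenS : Prop := ∀ (p q : ℕ) (θ : ℝ), 100 ≤ p → (q = p ∨ q = p + 1) → 1 ≤ θ →
  θ ^ 2 - θ = 4 * p * q + p + q →
  ∃ (V : Type) (_ : Fintype V) (G : SimpleGraph V) (σ : V → Bool), (∀ u, NI G u) ∧ Par G σ ∧
    ed G = 4 * p * q + p + q + 1 ∧ Fintype.card V = 2 * p + 2 * q + 1 ∧ θ ≤ lam G

def UpS : Prop := ∀ (V : Type) [Fintype V] (G : SimpleGraph V) (m : ℕ), (∀ u, NI G u) → K122 G →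
  ed G = m → 10 ^ 72 ≤ m → (m : ℝ) - 1 ≤ lam G ^ 2 - lam G →
  (lam G ^ 2 - lam G = m - 1 ∧ ∃ s : ℕ, m = 2 * s + 1 ∧ Nonempty (G ≃g split 2 s)) ∨ Exc m

end W5

end

section

/-! Existence of a Perron vector. -/

namespace W5

open Finset
open scoped Classical

section
variable {V : Type} [Fintype V]

theorem mulVec_Per (G : SimpleGraph V) (x : V → ℝ) (u : V) :
    (G.adjMatrix ℝ).mulVec x u = ns G x u := by
  unfold ns Matrix.mulVec dotProduct
  refine sum_congr rfl fun v _ => ?_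
  show G.adjMatrix ℝ u v * x v = _
  rw [SimpleGraph.adjMatrix_apply]
  split_ifs <;> simp

theorem qf_smul_Per (G : SimpleGraph V) (c : ℝ) (x : V → ℝ) :
    qf G (fun v => c * x v) = c ^ 2 * qf G x := by
  rw [qf_eq, qf_eq, mul_sum]
  refine sum_congr rfl fun u _ => ?_
  rw [mul_sum]
  refine sum_congr rfl fun v _ => ?_
  split_ifs <;> ring

theorem nn_smul_Per (c : ℝ) (x : V → ℝ) : nn (fun v => c * x v) = c ^ 2 * nn x := by
  unfold nn
  rw [mul_sum]
  exact sum_congr rfl fun u _ => by ring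

theorem ns_smul_Per (G : SimpleGraph V) (c : ℝ) (x : V → ℝ) (u : V) :
    ns G (fun v => c * x v) u = c * ns G x u := by
  unfold ns
  rw [mul_sum]
  exact sum_congr rfl fun v _ => by split_ifs <;> simp

theorem nn_pos_Per {x : V → ℝ} (hx : x ≠ 0) : 0 < nn x := by
  obtain ⟨u, hu⟩ := Function.ne_iff.1 hx
  refine sum_pos' (fun v _ => sq_nonneg _) ⟨u, mem_univ _, ?_⟩
  have : x u ≠ 0 := hu
  positivity

theorem qf_add_Per (G : SimpleGraph V) (x : V → ℝ) (u : V) (t : ℝ) :
    qf G (fun v => x v + if v = u then t else 0) = qf G x + 2 * t * ns G x u := by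
  rw [qf_eq, qf_eq]
  have e : ∀ a b, (if G.Adj a b then (x a + if a = u then t else 0) * (x b + if b = u then t else 0)
      else 0) = (if G.Adj a b then x a * x b else 0) +
        (if a = u then (if G.Adj u b then t * x b else 0) else 0) +
        (if b = u then (if G.Adj u a then t * x a else 0) else 0) := by
    intro a b
    by_cases ha : a = u
    · by_cases hb : b = u
      · subst ha; subst hb; simp
      · subst ha
        by_cases h : G.Adj a b <;> simp [h, hb]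
        ring
    · by_cases hb : b = u
      · subst hb
        by_cases h : G.Adj a b
        · simp [h, ha, h.symm]; ring
        · have h' : ¬ G.Adj b a := fun h2 => h h2.symm
          simp [h, ha, h']
      · simp [ha, hb]
  simp only [e, sum_add_distrib, sum_ite_eq', mem_univ, if_true]
  have e2 : (∑ b, if G.Adj u b then t * x b else 0) = t * ns G x u := by
    unfold ns
    rw [mul_sum]
    exact sum_congr rfl fun v _ => by split_ifs <;> simp
  have e3 : (∑ a, ∑ b, if a = u then (if G.Adj u b then t * x b else 0) else 0) = t * ns G x u := by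
    rw [sum_comm]
    simp only [sum_ite_eq', mem_univ, if_true]
    exact e2
  rw [e3, e2]
  ring

theorem nn_add_Per (x : V → ℝ) (u : V) (t : ℝ) :
    nn (fun v => x v + if v = u then t else 0) = nn x + 2 * t * x u + t ^ 2 := by
  unfold nn
  have e : ∀ a, (x a + if a = u then t else 0) ^ 2 =
      x a ^ 2 + if a = u then 2 * t * x u + t ^ 2 else 0 := by
    intro a
    by_cases ha : a = u
    · subst ha; simp; ring
    · simp [ha]
  simp only [e, sum_add_distrib, sum_ite_eq', mem_univ, if_true]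
  ring

theorem max_Per (G : SimpleGraph V) (u0 : V) : ∃ (M : ℝ) (x : V → ℝ), 0 ≤ M ∧
    (∀ y, qf G y ≤ M * nn y) ∧ (∀ u, 0 ≤ x u) ∧ nn x = 1 ∧ ∀ u, ns G x u = M * x u := by
  have hcq : Continuous (qf G) := by
    have : qf G = fun x => ∑ u, ∑ v, if G.Adj u v then x u * x v else 0 := funext (qf_eq G)
    rw [this]
    refine continuous_finsetSum _ fun u _ => continuous_finsetSum _ fun v _ => ?_
    split_ifs
    · fun_prop
    · exact continuous_const
  have hcn : Continuous (nn : (V → ℝ) → ℝ) := by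
    unfold nn
    fun_prop
  have hK : IsCompact {x : V → ℝ | nn x = 1} := by
    refine (isCompact_closedBall (0 : V → ℝ) 1).of_isClosed_subset
      (isClosed_eq hcn continuous_const) fun x hx => ?_
    rw [mem_closedBall_zero_iff, pi_norm_le_iff_of_nonneg zero_le_one]
    intro u
    have h1 : x u ^ 2 ≤ nn x :=
      single_le_sum (f := fun v => x v ^ 2) (fun v _ => sq_nonneg _) (mem_univ u)
    have h2 : nn x = 1 := hx
    rw [Real.norm_eq_abs]
    exact abs_le_of_sq_le_sq (by linarith) zero_le_one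
  have he1 : nn (fun v => (0 : V → ℝ) v + if v = u0 then (1 : ℝ) else 0) = 1 := by
    rw [nn_add_Per]; simp [nn]
  have he2 : qf G (fun v => (0 : V → ℝ) v + if v = u0 then (1 : ℝ) else 0) = 0 := by
    rw [qf_add_Per]; simp [qf, ns]
  obtain ⟨x0, hx0, hmax⟩ := hK.exists_isMaxOn ⟨_, he1⟩ hcq.continuousOn
  have hx1 : nn x0 = 1 := hx0
  have hM : 0 ≤ qf G x0 := by
    have := hmax he1
    rw [← he2]
    exact this
  have hray : ∀ y, qf G y ≤ qf G x0 * nn y := by
    intro y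
    by_cases hy : y = 0
    · subst hy; simp [qf, nn]
    · have hp := nn_pos_Per hy
      have hs : 0 < √(nn y) := Real.sqrt_pos.2 hp
      have h1 : ((√(nn y))⁻¹) ^ 2 = (nn y)⁻¹ := by rw [inv_pow, Real.sq_sqrt hp.le]
      have h2 : nn (fun v => (√(nn y))⁻¹ * y v) = 1 := by
        rw [nn_smul_Per, h1]; field_simp
      have h3 : qf G (fun v => (√(nn y))⁻¹ * y v) ≤ qf G x0 := hmax h2
      rw [qf_smul_Per, h1, inv_mul_le_iff₀ hp] at h3
      linarith
  have ha1 : nn (fun v => |x0 v|) = 1 := by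
    rw [← hx1]; unfold nn
    exact sum_congr rfl fun v _ => sq_abs _
  have ha2 : qf G (fun v => |x0 v|) = qf G x0 := by
    refine le_antisymm (hmax ha1) ?_
    rw [qf_eq, qf_eq]
    refine sum_le_sum fun u _ => sum_le_sum fun v _ => ?_
    split_ifs
    · rw [← abs_mul]; exact le_abs_self _
    · exact le_rfl
  refine ⟨qf G x0, fun v => |x0 v|, hM, hray, fun u => abs_nonneg _, ha1, fun u => ?_⟩
  set M := qf G x0
  set d := ns G (fun v => |x0 v|) u - M * |x0 u| with hd
  have h1 : ∀ t : ℝ, 2 * t * d ≤ M * t ^ 2 := by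
    intro t
    have := hray (fun v => |x0 v| + if v = u then t else 0)
    rw [qf_add_Per, nn_add_Per, ha1, ha2] at this
    rw [hd]
    linarith
  have h2 := h1 (d / (M + 1))
  have h3 : d = d / (M + 1) * (M + 1) := by field_simp
  set s := d / (M + 1)
  have h4 : s ^ 2 * (M + 2) ≤ 0 := by rw [h3] at h2; nlinarith
  have h5 : s = 0 := by
    by_contra h
    have : 0 < s ^ 2 * (M + 2) := by positivity
    linarith
  rw [h5, zero_mul] at h3
  linarith

end

theorem perS : PerS := by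
  intro V _ G
  rcases isEmpty_or_nonempty V with hV | hV
  · have h0 : lam G = 0 := by
      unfold lam
      rw [← Real.sSup_empty]
      congr 1
      ext μ
      simp only [Set.mem_ofPred_eq, Set.mem_empty_iff_false, iff_false, not_exists, not_and]
      intro x hx
      exact absurd (Subsingleton.elim x 0) hx
    rw [h0]
    refine ⟨le_rfl, fun y => ?_, fun h => absurd h (by norm_num)⟩
    simp [qf]
  · obtain ⟨u0⟩ := hV
    obtain ⟨M, x, hM, hray, hpos, hn, heig⟩ := max_Per G u0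
    have hl : lam G = M := by
      unfold lam
      refine IsGreatest.csSup_eq ⟨⟨x, ?_, ?_⟩, ?_⟩
      · intro h
        rw [h] at hn
        simp [nn] at hn
      · funext u
        rw [mulVec_Per, heig]
        rfl
      · rintro μ ⟨y, hy, hμ⟩
        have h1 : qf G y = μ * nn y := by
          unfold qf nn
          rw [mul_sum]
          refine sum_congr rfl fun u _ => ?_
          rw [← mulVec_Per, hμ]
          simp only [Pi.smul_apply, smul_eq_mul]
          ring
        have h2 := hray y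
        rw [h1] at h2
        exact le_of_mul_le_mul_right h2 (nn_pos_Per hy)
    rw [hl]
    refine ⟨hM, hray, fun h1 => ⟨fun v => √(2 * M - 1) * x v, ?_, ?_, ?_, hray⟩⟩
    · intro u
      exact mul_nonneg (Real.sqrt_nonneg _) (hpos u)
    · intro u
      rw [ns_smul_Per, heig]
      ring
    · rw [nn_smul_Per, hn, Real.sq_sqrt (by linarith), mul_one]

end W5

end

section

/-! Edge counts and the effect of adding an edge or deleting a vertex. -/

namespace W5

open Finset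
open scoped Classical

theorem ed_eq_Ed {V : Type} [Fintype V] (G : SimpleGraph V) :
    ed G = (G.edgeSet.ncard : ℝ) := by
  have h1 := two_ed G
  have h2 : ∀ u, (∑ v, if G.Adj u v then (1 : ℝ) else 0) = (G.degree u : ℝ) := by
    intro u
    rw [Finset.sum_boole, ← SimpleGraph.card_neighborFinset_eq_degree,
      SimpleGraph.neighborFinset_eq_filter]
  have h3 := G.sum_degrees_eq_twice_card_edges
  have h4 : G.edgeSet.ncard = G.edgeFinset.card := by
    rw [← SimpleGraph.coe_edgeFinset, Set.ncard_coe_finset]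
  have h5 : (∑ u, (G.degree u : ℝ)) = 2 * (G.edgeFinset.card : ℝ) := by exact_mod_cast h3
  simp only [h2] at h1
  rw [h4]; linarith

theorem edS : EdS := by
  intro V _ G
  refine ⟨ed_eq_Ed G, fun H hHG => ?_⟩
  have hsub : H.edgeSet ⊆ G.edgeSet := SimpleGraph.edgeSet_mono hHG
  have hfin : G.edgeSet.Finite := Set.toFinite _
  have hle : H.edgeSet.ncard ≤ G.edgeSet.ncard := Set.ncard_le_ncard hsub hfin
  rw [ed_eq_Ed G, ed_eq_Ed H]
  refine ⟨⟨G.edgeSet.ncard - H.edgeSet.ncard, ?_⟩, fun h => ?_, fun h => ?_⟩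
  · rw [Nat.cast_sub hle]; ring
  · have h' : G.edgeSet.ncard = H.edgeSet.ncard := by exact_mod_cast h
    have := Set.eq_of_subset_of_ncard_le hsub h'.le hfin
    exact SimpleGraph.edgeSet_injective this.symm
  · have h' : G.edgeSet.ncard = H.edgeSet.ncard + 1 := by exact_mod_cast h
    have hd : (G.edgeSet \ H.edgeSet).ncard = 1 := by
      rw [Set.ncard_sdiff hsub]; omega
    obtain ⟨e, he⟩ := Set.ncard_eq_one.1 hd
    induction e using Sym2.ind with
    | _ p w =>
      have hm : s(p, w) ∈ G.edgeSet \ H.edgeSet := by rw [he]; exact Set.mem_singleton _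
      have hG : G.Adj p w := hm.1
      have hH : ¬ H.Adj p w := hm.2
      refine ⟨p, w, hG, hH, fun u v => ⟨fun huv => ?_, ?_⟩⟩
      · by_cases hh : H.Adj u v
        · exact Or.inl hh
        · have hm' : s(u, v) ∈ G.edgeSet \ H.edgeSet := ⟨huv, hh⟩
          rw [he] at hm'
          exact Or.inr (Sym2.eq_iff.1 (Set.mem_singleton_iff.1 hm'))
      · rintro (hh | ⟨rfl, rfl⟩ | ⟨rfl, rfl⟩)
        · exact hHG hh
        · exact hG
        · exact hG.symm

theorem ed_qf_Ed {V : Type} [Fintype V] (G : SimpleGraph V) :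
    2 * ed G = qf G (fun _ => 1) := by
  rw [two_ed, qf_eq]; simp

theorem pt_Ed {V : Type} [Fintype V] (p w : V) (c : ℝ) :
    (∑ u, ∑ v, if u = p ∧ v = w then c else 0) = c := by
  rw [sum_eq_single p]
  · rw [sum_eq_single w]
    · simp
    · intro b _ hb; simp [hb]
    · simp
  · intro b _ hb; simp [hb]
  · simp

theorem add_Ed {V : Type} [Fintype V] (G H : SimpleGraph V) (p w : V) (hpw : p ≠ w)
    (hH : ¬ H.Adj p w)
    (h : ∀ u v, G.Adj u v ↔ H.Adj u v ∨ (u = p ∧ v = w) ∨ (u = w ∧ v = p)) (y : V → ℝ) :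
    qf G y = qf H y + 2 * y p * y w := by
  have key : ∀ u v, (if G.Adj u v then y u * y v else 0) =
      (if H.Adj u v then y u * y v else 0) + (if u = p ∧ v = w then y p * y w else 0) +
        (if u = w ∧ v = p then y p * y w else 0) := by
    intro u v
    have hH' : ¬ H.Adj w p := fun hh => hH hh.symm
    by_cases h1 : u = p ∧ v = w
    · obtain ⟨rfl, rfl⟩ := h1
      have hg : G.Adj u v := (h u v).2 (Or.inr (Or.inl ⟨rfl, rfl⟩))
      simp [hg, hH, hpw]
    · by_cases h2 : u = w ∧ v = p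
      · obtain ⟨rfl, rfl⟩ := h2
        have hg : G.Adj u v := (h u v).2 (Or.inr (Or.inr ⟨rfl, rfl⟩))
        simp [hg, hH', hpw.symm, mul_comm]
      · have hi : G.Adj u v ↔ H.Adj u v := by
          rw [h]; tauto
        simp only [hi, if_neg h1, if_neg h2, add_zero]
  rw [qf_eq, qf_eq]
  simp only [key, sum_add_distrib, pt_Ed]
  ring

theorem del_Ed {V : Type} [Fintype V] (G H : SimpleGraph V) (w : V)
    (h : ∀ u v, H.Adj u v ↔ G.Adj u v ∧ u ≠ w ∧ v ≠ w) (y : V → ℝ) :
    qf H y = qf G y - 2 * y w * ns G y w := by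
  have key : ∀ u v, (if G.Adj u v then y u * y v else 0) =
      (if H.Adj u v then y u * y v else 0) +
        (if u = w then (if G.Adj w v then y w * y v else 0) else 0) +
        (if v = w then (if G.Adj w u then y w * y u else 0) else 0) := by
    intro u v
    by_cases h1 : u = w
    · subst h1
      have hh : ¬ H.Adj u v := fun hh => ((h u v).1 hh).2.1 rfl
      by_cases h2 : v = u
      · subst h2; simp
      · simp [hh, h2]
    · by_cases h2 : v = w
      · subst h2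
        have hh : ¬ H.Adj u v := fun hh => ((h u v).1 hh).2.2 rfl
        simp only [if_neg hh, if_neg h1, if_true, G.adj_comm v u, mul_comm (y v), zero_add]
      · have hi : H.Adj u v ↔ G.Adj u v := by
          rw [h]; tauto
        simp only [hi, if_neg h1, if_neg h2, add_zero]
  have e1 : (∑ u, ∑ v, if u = w then (if G.Adj w v then y w * y v else 0) else 0) =
      y w * ns G y w := by
    rw [sum_eq_single w]
    · unfold ns
      rw [mul_sum]
      refine sum_congr rfl fun v _ => ?_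
      by_cases hv : G.Adj w v <;> simp [hv]
    · intro b _ hb; simp [hb]
    · simp
  have e2 : (∑ u, ∑ v, if v = w then (if G.Adj w u then y w * y u else 0) else 0) =
      y w * ns G y w := by
    rw [sum_comm]; exact e1
  have e3 : qf G y = ∑ u, ∑ v, ((if H.Adj u v then y u * y v else 0) +
        (if u = w then (if G.Adj w v then y w * y v else 0) else 0) +
        (if v = w then (if G.Adj w u then y w * y u else 0) else 0)) := by
    rw [qf_eq G]
    exact sum_congr rfl fun u _ => sum_congr rfl fun v _ => key u v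
  rw [e3, qf_eq H]
  simp only [sum_add_distrib]
  rw [e1, e2]
  ring

theorem upd_Ed {V : Type} [Fintype V] (H : SimpleGraph V) (w : V)
    (h : ∀ u v, H.Adj u v → u ≠ w ∧ v ≠ w) (y : V → ℝ) :
    qf H (Function.update y w 0) = qf H y := by
  rw [qf_eq, qf_eq]
  refine sum_congr rfl fun u _ => sum_congr rfl fun v _ => ?_
  by_cases hh : H.Adj u v
  · rw [if_pos hh, if_pos hh, Function.update_of_ne (h u v hh).1,
      Function.update_of_ne (h u v hh).2]
  · rw [if_neg hh, if_neg hh]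

theorem opS : OpS := by
  intro V _ G
  refine ⟨fun H p w hpw hH h => ⟨add_Ed G H p w hpw hH h, ?_⟩, fun H w h => ⟨fun y => ?_, ?_⟩,
    fun y w => ?_⟩
  · have h1 := add_Ed G H p w hpw hH h (fun _ => 1)
    have h2 := ed_qf_Ed G
    have h3 := ed_qf_Ed H
    linarith
  · rw [upd_Ed H w (fun u v hh => ((h u v).1 hh).2) y]
    exact del_Ed G H w h y
  · have h1 := del_Ed G H w h (fun _ => 1)
    have h2 := ed_qf_Ed G
    have h3 := ed_qf_Ed H
    unfold dg
    linarith
  · unfold nn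
    have key : ∀ u, y u ^ 2 = Function.update y w 0 u ^ 2 + (if u = w then y w ^ 2 else 0) := by
      intro u
      by_cases hu : u = w
      · subst hu; simp
      · simp [hu]
    have e : (∑ u, y u ^ 2) =
        ∑ u, (Function.update y w 0 u ^ 2 + (if u = w then y w ^ 2 else 0)) :=
      sum_congr rfl fun u _ => key u
    rw [e, sum_add_distrib, sum_ite_eq']
    simp

end W5

end

section

namespace W5

open Finset
open scoped Classical

theorem coreS (hP : PerS) (hE : EdS) (hO : OpS) : CoreS := by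
  intro V _ G hK hm hl
  obtain ⟨H, hHG, hmax⟩ := Set.exists_max_image {H : SimpleGraph V | H ≤ G}
    (fun H => lam H ^ 2 - lam H - (1 - eps) * ed H) (Set.toFinite _) ⟨G, le_refl G⟩
  have hHG' : H ≤ G := hHG
  have e0 : eps = 1 / 20480000 := rfl
  have h1 := hmax G (le_refl G)
  have h2 : 0 ≤ ed H := by
    rw [(hE V H).1]
    positivity
  have h3 := (hP V H).1
  have h4 : ed H ≤ ed G := by
    obtain ⟨ν, hν⟩ := ((hE V G).2 H hHG').1
    have := Nat.cast_nonneg (α := ℝ) ν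
    linarith
  have hbig : 10 ^ 32 ≤ lam H := by
    refine abs_le_of_sq_le_sq' ?_ h3 |>.2
    rw [e0] at h1
    have : ((10 : ℝ) ^ 32) ^ 2 = 10 ^ 64 := by norm_num
    rw [this]
    have : (10 : ℝ) ^ 72 = 10 ^ 8 * 10 ^ 64 := by norm_num
    have : (1 : ℝ) ≤ 10 ^ 64 := by norm_num
    linarith
  obtain ⟨x, hx⟩ := (hP V H).2.2 (le_trans (by norm_num) hbig)
  have key : ∀ H' : SimpleGraph V, H' ≤ G → ∀ y, qf H' y - (nn y + 1) ^ 2 / 4 ≤
      lam H ^ 2 - lam H - (1 - eps) * (ed H - ed H') := by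
    intro H' hH' y
    have a1 := ray_F (hP V H').2.1 y
    have a2 := hmax H' hH'
    linarith
  have q1 := hx.qf_val
  have q2 := hx.nrm
  refine ⟨H, lam H, x, hHG', ⟨hx, ?_, hbig, fun u v huv => ?_, fun u => ?_, ?_⟩,
    fun u v huv hn => ?_, by linarith⟩
  · intro w a b p q g1 g2 g3 g4 g5 g6 g7 g8 g9
    exact hK w a b p q (hHG' g1) (hHG' g2) (hHG' g3) (hHG' g4) g5 (hHG' g6) (hHG' g7) (hHG' g8)
      (hHG' g9)
  · obtain ⟨H', hH'⟩ : ∃ H' : SimpleGraph V, ∀ a b, H'.Adj a b ↔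
        H.Adj a b ∧ ¬ (a = u ∧ b = v) ∧ ¬ (a = v ∧ b = u) :=
      ⟨⟨fun a b => H.Adj a b ∧ ¬ (a = u ∧ b = v) ∧ ¬ (a = v ∧ b = u),
        ⟨fun a b h => ⟨h.1.symm, fun g => h.2.2 ⟨g.2, g.1⟩, fun g => h.2.1 ⟨g.2, g.1⟩⟩⟩,
        ⟨fun a h => h.1.ne rfl⟩⟩, fun _ _ => Iff.rfl⟩
    obtain ⟨a1, a2⟩ := (hO V H).1 H' u v huv.ne (fun h => ((hH' u v).1 h).2.1 ⟨rfl, rfl⟩) (by
      intro a b
      rw [hH']
      constructor
      · tauto
      · rintro (h | ⟨rfl, rfl⟩ | ⟨rfl, rfl⟩)
        · exact h.1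
        · exact huv
        · exact huv.symm)
    have a3 := key H' (fun a b h => hHG' ((hH' a b).1 h).1) x
    have a4 := a1 x
    rw [q2, a2] at a3
    nlinarith
  · obtain ⟨H', hH'⟩ : ∃ H' : SimpleGraph V, ∀ a b, H'.Adj a b ↔ H.Adj a b ∧ a ≠ u ∧ b ≠ u :=
      ⟨⟨fun a b => H.Adj a b ∧ a ≠ u ∧ b ≠ u, ⟨fun a b h => ⟨h.1.symm, h.2.2, h.2.1⟩⟩,
        ⟨fun a h => h.1.ne rfl⟩⟩, fun _ _ => Iff.rfl⟩
    obtain ⟨a1, a2⟩ := (hO V H).2.1 H' u hH'
    have a3 := key H' (fun a b h => hHG' ((hH' a b).1 h).1) (Function.update x u 0)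
    rw [a1, (hO V H).2.2, q1, q2, a2, hx.eig] at a3
    nlinarith
  · have := mul_nonneg (show 0 ≤ eps by rw [e0]; norm_num) (sub_nonneg.2 h4)
    linarith
  · obtain ⟨H', hH'⟩ : ∃ H' : SimpleGraph V, ∀ a b, H'.Adj a b ↔
        H.Adj a b ∨ (a = u ∧ b = v) ∨ (a = v ∧ b = u) :=
      ⟨⟨fun a b => H.Adj a b ∨ (a = u ∧ b = v) ∨ (a = v ∧ b = u),
        ⟨fun a b h => h.elim (fun g => Or.inl g.symm) fun g =>
          Or.inr (g.elim (fun k => Or.inr ⟨k.2, k.1⟩) fun k => Or.inl ⟨k.2, k.1⟩)⟩,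
        ⟨fun a h => h.elim (fun g => g.ne rfl) fun g => g.elim
          (fun k => huv.ne (k.1.symm.trans k.2)) fun k => huv.ne (k.2.symm.trans k.1)⟩⟩,
        fun _ _ => Iff.rfl⟩
    obtain ⟨a1, a2⟩ := (hO V H').1 H u v huv.ne hn hH'
    have a3 := key H' (by
      intro a b h
      rcases (hH' a b).1 h with h | ⟨rfl, rfl⟩ | ⟨rfl, rfl⟩
      · exact hHG' h
      · exact huv
      · exact huv.symm) x
    rw [a1, q1, q2, a2] at a3
    nlinarith

end W5

end

section

/-! Neighbourhood weights and the codegree estimate. -/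

namespace W5

open Finset
open scoped Classical

theorem nbS : NbS := by
  intro V _ H l x hc u hu
  obtain ⟨v, hv⟩ := hu
  have he := hc.he u v hv
  have h1 : (0 : ℝ) < 1 - eps := by unfold eps; norm_num
  have hx : x u ≠ 0 := by
    intro h
    rw [h] at he
    simp at he
    linarith
  have hx2 : 0 < x u ^ 2 := by positivity
  have h2 := ns_sq_le H x u
  rw [hc.per.eig u] at h2
  have h3 := hc.hv u
  have hw := wt_nonneg x (H.Adj u)
  have h4 : (1 - eps) * (l * x u) ^ 2 ≤ (l * x u ^ 2 + x u ^ 4 / 4) * wt x (H.Adj u) := by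
    calc (1 - eps) * (l * x u) ^ 2 ≤ (1 - eps) * (dg H u * wt x (H.Adj u)) :=
          mul_le_mul_of_nonneg_left h2 h1.le
      _ = ((1 - eps) * dg H u) * wt x (H.Adj u) := by ring
      _ ≤ _ := mul_le_mul_of_nonneg_right h3 hw
  refine le_of_mul_le_mul_right ?_ hx2
  calc (1 - eps) * l ^ 2 * x u ^ 2 = (1 - eps) * (l * x u) ^ 2 := by ring
    _ ≤ _ := h4
    _ = _ := by ring

theorem sq_Kst {V : Type} [Fintype V] (H : SimpleGraph V) (x : V → ℝ) (w : V) :
    (∑ v, if H.Adj w v then x v ^ 2 * wt x (fun b => H.Adj v b ∧ H.Adj w b) ^ 2 else 0) =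
      ∑ a, ∑ b, if H.Adj w a ∧ H.Adj w b then
        x a ^ 2 * x b ^ 2 * wt x (fun v => H.Adj w v ∧ H.Adj a v ∧ H.Adj b v) else 0 := by
  have e1 : ∀ v, (if H.Adj w v then x v ^ 2 * wt x (fun b => H.Adj v b ∧ H.Adj w b) ^ 2 else 0) =
      ∑ a, ∑ b, if (H.Adj w a ∧ H.Adj w b) ∧ (H.Adj w v ∧ H.Adj a v ∧ H.Adj b v) then
        x a ^ 2 * x b ^ 2 * x v ^ 2 else 0 := by
    intro v
    by_cases hv : H.Adj w v
    · rw [if_pos hv, sq (wt _ _)]
      unfold wt
      rw [sum_mul_sum, mul_sum]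
      refine sum_congr rfl fun a _ => ?_
      rw [mul_sum]
      refine sum_congr rfl fun b _ => ?_
      by_cases h1 : H.Adj w a <;> by_cases h2 : H.Adj w b <;> by_cases h3 : H.Adj v a <;>
        by_cases h4 : H.Adj v b <;> simp [h1, h2, h3, h4, hv, H.adj_comm a v, H.adj_comm b v]
      ring
    · simp [hv]
  simp only [e1]
  rw [sum_comm]
  refine sum_congr rfl fun a _ => ?_
  rw [sum_comm]
  refine sum_congr rfl fun b _ => ?_
  by_cases h : H.Adj w a ∧ H.Adj w b
  · rw [if_pos h]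
    unfold wt
    rw [mul_sum]
    refine sum_congr rfl fun v _ => ?_
    by_cases h2 : H.Adj w v ∧ H.Adj a v ∧ H.Adj b v
    · rw [if_pos ⟨h, h2⟩, if_pos h2]
    · rw [if_neg (fun h3 => h2 h3.2), if_neg h2, mul_zero]
  · rw [if_neg h]
    exact sum_eq_zero fun v _ => if_neg fun h3 => h h3.1

theorem kstS : KstS := by
  intro V _ H l x hc hx w
  have hl : (0 : ℝ) < l := lt_of_lt_of_le (by norm_num) hc.big
  have hk : (0 : ℝ) < kap := by unfold kap; norm_num
  have hn : nn x ≤ 2 * l := by rw [hc.per.nrm]; linarith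
  have hn0 : 0 ≤ nn x := sum_nonneg fun u _ => sq_nonneg _
  have h1 : (∑ v, if H.Adj w v then x v ^ 2 * wt x (fun b => H.Adj v b ∧ H.Adj w b) ^ 2 else 0) ≤
      8 * kap * l ^ 3 := by
    rw [sq_Kst]
    have hb : ∀ a b, (if H.Adj w a ∧ H.Adj w b then
        x a ^ 2 * x b ^ 2 * wt x (fun v => H.Adj w v ∧ H.Adj a v ∧ H.Adj b v) else 0) ≤
        x a ^ 2 * x b ^ 2 * (kap * l) + if a = b then x a ^ 2 * (kap * l * (2 * l)) else 0 := by
      intro a b
      by_cases h : H.Adj w a ∧ H.Adj w b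
      · rw [if_pos h]
        by_cases hab : a = b
        · subst hab
          rw [if_pos rfl]
          have h2 : wt x (fun v => H.Adj w v ∧ H.Adj a v ∧ H.Adj a v) ≤ 2 * l :=
            (wt_le_nn _ _).trans hn
          have h3 : x a ^ 2 * wt x (fun v => H.Adj w v ∧ H.Adj a v ∧ H.Adj a v) ≤
              kap * l * (2 * l) :=
            mul_le_mul (hx a) h2 (wt_nonneg _ _) (by positivity)
          have h4 := mul_le_mul_of_nonneg_left h3 (sq_nonneg (x a))
          have h5 : 0 ≤ x a ^ 2 * x a ^ 2 * (kap * l) := by positivity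
          linarith
        · rw [if_neg hab, add_zero]
          refine mul_le_mul_of_nonneg_left ?_ (by positivity)
          refine wt_le_of_sub x _ _ (by positivity) hx fun p q hp hq => ?_
          exact hc.free w a b p q h.1 h.2 hp.1 hq.1 hab hp.2.1 hq.2.1 hp.2.2 hq.2.2
      · rw [if_neg h]
        split_ifs <;> positivity
    refine (sum_le_sum fun a _ => sum_le_sum fun b _ => hb a b).trans ?_
    have e : (∑ a, ∑ b, (x a ^ 2 * x b ^ 2 * (kap * l) +
        if a = b then x a ^ 2 * (kap * l * (2 * l)) else 0)) =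
        nn x * nn x * (kap * l) + nn x * (kap * l * (2 * l)) := by
      simp only [sum_add_distrib, sum_ite_eq, mem_univ, if_true]
      unfold nn
      rw [sum_mul_sum, sum_mul, sum_mul]
      congr 1
      exact sum_congr rfl fun a _ => by rw [sum_mul]
    rw [e]
    have h2 : nn x * nn x ≤ 2 * l * (2 * l) := mul_le_mul hn hn hn0 (by positivity)
    have h3 := mul_le_mul_of_nonneg_right h2 (by positivity : 0 ≤ kap * l)
    have h4 := mul_le_mul_of_nonneg_right hn (by positivity : 0 ≤ kap * l * (2 * l))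
    nlinarith
  have h2 := sum_mul_sq_le_sq_mul_sq univ x
    (fun v => if H.Adj w v then x v * wt x (fun b => H.Adj v b ∧ H.Adj w b) else 0)
  have e1 : (∑ a, if H.Adj w a then x a ^ 2 * wt x (fun b => H.Adj a b ∧ H.Adj w b) else 0) =
      ∑ v, x v * (if H.Adj w v then x v * wt x (fun b => H.Adj v b ∧ H.Adj w b) else 0) :=
    sum_congr rfl fun v _ => by split_ifs <;> ring
  have e2 : (∑ v, (if H.Adj w v then x v * wt x (fun b => H.Adj v b ∧ H.Adj w b) else 0) ^ 2) =
      ∑ v, if H.Adj w v then x v ^ 2 * wt x (fun b => H.Adj v b ∧ H.Adj w b) ^ 2 else 0 :=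
    sum_congr rfl fun v _ => by split_ifs <;> ring
  rw [← e1, e2] at h2
  have h3 : (∑ i, x i ^ 2) ≤ 2 * l := hn
  have h4 : (0 : ℝ) ≤
      ∑ v, if H.Adj w v then x v ^ 2 * wt x (fun b => H.Adj v b ∧ H.Adj w b) ^ 2 else 0 :=
    sum_nonneg fun v _ => by split_ifs <;> positivity
  have h5 := h2.trans (mul_le_mul h3 h1 h4 (by positivity))
  have e3 : 2 * l * (8 * kap * l ^ 3) = (l ^ 2 / 200) ^ 2 := by unfold kap; ring
  rw [e3] at h5
  exact le_of_sq_le_sq h5 (by positivity)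

end W5

end

section

/-! The light case, first step: two heavy sets that few vertices see together. -/

namespace W5

open Finset
open scoped Classical

theorem nb_Light1 (hN : NbS) {V : Type} [Fintype V] {H : SimpleGraph V} {l : ℝ} {x : V → ℝ}
    (hc : Core H l x) (hx : ∀ u, x u ^ 2 ≤ kap * l) {u : V} (hu : NI H u) :
    0.999 * l ≤ wt x (H.Adj u) := by
  have hl : (0 : ℝ) < l := lt_of_lt_of_le (by norm_num) hc.big
  have h1 := hN V H l x hc u hu
  have h2 := hx u
  have h3 := wt_nonneg x (H.Adj u)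
  have h4 : wt x (H.Adj u) * (l + x u ^ 2 / 4) ≤ wt x (H.Adj u) * (l + kap * l / 4) :=
    mul_le_mul_of_nonneg_left (by linarith) h3
  have h5 : (1 - eps) * l * l ≤ wt x (H.Adj u) * (1 + kap / 4) * l := by nlinarith
  have h6 := le_of_mul_le_mul_right h5 hl
  unfold eps kap at h6
  nlinarith

theorem light1S (hN : NbS) (hK : KstS) : Light1S := by
  intro V _ H l x hc hx
  have hl : (0 : ℝ) < l := lt_of_lt_of_le (by norm_num) hc.big
  have hl1 : (1 : ℝ) ≤ l := le_trans (by norm_num) hc.big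
  have hn : nn x ≤ 2 * l := by rw [hc.per.nrm]; linarith
  obtain ⟨u0, hu0⟩ : ∃ u0, NI H u0 := by
    by_contra h
    push Not at h
    have h1 : nn x = 0 := sum_eq_zero fun u _ => by rw [hc.per.zero hl (h u)]; norm_num
    rw [hc.per.nrm] at h1
    linarith
  have hB := nb_Light1 hN hc hx hu0
  have hK0 := hK V H l x hc hx u0
  obtain ⟨v0, hv0, hf0⟩ : ∃ v0, H.Adj u0 v0 ∧
      wt x (fun b => H.Adj v0 b ∧ H.Adj u0 b) ≤ l / 100 := by
    by_contra h
    push Not at h
    have h1 : wt x (H.Adj u0) * (l / 100) ≤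
        ∑ a, if H.Adj u0 a then x a ^ 2 * wt x (fun b => H.Adj a b ∧ H.Adj u0 b) else 0 := by
      unfold wt
      rw [sum_mul]
      refine sum_le_sum fun a _ => ?_
      split_ifs with ha
      · exact mul_le_mul_of_nonneg_left (h a ha).le (sq_nonneg _)
      · rw [zero_mul]
    nlinarith
  have hA : 0.989 * l ≤ wt x (fun b => H.Adj v0 b ∧ ¬ H.Adj u0 b) := by
    have h1 := wt_split x (H.Adj v0) (H.Adj u0)
    have h2 := nb_Light1 hN hc hx (u := v0) ⟨u0, hv0.symm⟩
    linarith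
  refine ⟨fun b => H.Adj v0 b ∧ ¬ H.Adj u0 b, H.Adj u0, fun v hv => hv.2, hA, hB, fun w => ?_⟩
  have hP : ∀ v, H.Adj u0 v → wt x (fun b => H.Adj w b ∧ H.Adj v0 b ∧ ¬ H.Adj u0 b) ≤
      wt x (fun b => H.Adj v b ∧ H.Adj w b) + 0.002 * l +
        wt x (fun b => H.Adj v b ∧ H.Adj u0 b) := by
    intro v hv
    have h1 := wt_split x (fun b => H.Adj w b ∧ H.Adj v0 b ∧ ¬ H.Adj u0 b) (H.Adj v)
    have h2 : wt x (fun b => (H.Adj w b ∧ H.Adj v0 b ∧ ¬ H.Adj u0 b) ∧ H.Adj v b) ≤
        wt x (fun b => H.Adj v b ∧ H.Adj w b) := wt_mono x fun b hb => ⟨hb.2, hb.1.1⟩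
    have h3 : wt x (fun b => (H.Adj w b ∧ H.Adj v0 b ∧ ¬ H.Adj u0 b) ∧ ¬ H.Adj v b) ≤
        wt x (fun b => ¬ H.Adj u0 b ∧ ¬ H.Adj v b) := wt_mono x fun b hb => ⟨hb.1.2.2, hb.2⟩
    have h4 := wt_split x (fun b => ¬ H.Adj u0 b) (H.Adj v)
    have h5 := wt_compl x (H.Adj u0)
    have h6 := wt_split x (H.Adj v) (H.Adj u0)
    have h7 : wt x (fun b => H.Adj v b ∧ ¬ H.Adj u0 b) ≤
        wt x (fun b => ¬ H.Adj u0 b ∧ H.Adj v b) := wt_mono x fun b hb => ⟨hb.2, hb.1⟩
    have h8 := nb_Light1 hN hc hx (u := v) ⟨u0, hv.symm⟩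
    linarith
  have hKw := hK V H l x hc hx w
  have h1 : wt x (fun b => H.Adj w b ∧ H.Adj v0 b ∧ ¬ H.Adj u0 b) *
      wt x (fun v => H.Adj w v ∧ H.Adj u0 v) ≤
      (∑ a, if H.Adj w a then x a ^ 2 * wt x (fun b => H.Adj a b ∧ H.Adj w b) else 0) +
      nn x * (0.002 * l) +
      ∑ a, if H.Adj u0 a then x a ^ 2 * wt x (fun b => H.Adj a b ∧ H.Adj u0 b) else 0 := by
    have e : wt x (fun b => H.Adj w b ∧ H.Adj v0 b ∧ ¬ H.Adj u0 b) *
        wt x (fun v => H.Adj w v ∧ H.Adj u0 v) = ∑ v, if H.Adj w v ∧ H.Adj u0 v then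
          x v ^ 2 * wt x (fun b => H.Adj w b ∧ H.Adj v0 b ∧ ¬ H.Adj u0 b) else 0 := by
      rw [mul_comm]
      conv_lhs => lhs; unfold wt
      rw [sum_mul]
      refine sum_congr rfl fun v _ => ?_
      split_ifs <;> simp
    rw [e]
    unfold nn
    rw [sum_mul, ← sum_add_distrib, ← sum_add_distrib]
    refine sum_le_sum fun v _ => ?_
    have a1 := mul_nonneg (sq_nonneg (x v)) (wt_nonneg x (fun b => H.Adj v b ∧ H.Adj w b))
    have a2 := mul_nonneg (sq_nonneg (x v)) (wt_nonneg x (fun b => H.Adj v b ∧ H.Adj u0 b))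
    have a3 : 0 ≤ x v ^ 2 * (0.002 * l) := by positivity
    by_cases h : H.Adj w v ∧ H.Adj u0 v
    · rw [if_pos h, if_pos h.1, if_pos h.2]
      have := mul_le_mul_of_nonneg_left (hP v h.2) (sq_nonneg (x v))
      linarith
    · rw [if_neg h]
      split_ifs <;> linarith
  have h2 := mul_le_mul_of_nonneg_right hn (by positivity : 0 ≤ 0.002 * l)
  nlinarith

end W5

end

section

namespace W5

open Finset
open scoped Classical

section
variable {V : Type} [Fintype V]

theorem miss_Light (x : V → ℝ) (A B N : V → Prop) (h : ∀ v, A v → ¬ B v) :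
    wt x (fun v => B v ∧ ¬ N v) + wt x N + wt x A ≤ nn x + wt x (fun v => N v ∧ A v) := by
  unfold wt nn
  rw [← sum_add_distrib, ← sum_add_distrib, ← sum_add_distrib]
  refine sum_le_sum fun v _ => ?_
  have h0 : 0 ≤ x v ^ 2 := sq_nonneg _
  have h1 := h v
  by_cases ha : A v <;> by_cases hb : B v <;> by_cases hn : N v <;> simp_all

theorem three_Light (x : V → ℝ) (C N₁ N₂ N₃ : V → Prop) :
    wt x C ≤ wt x (fun v => C v ∧ N₁ v ∧ N₂ v ∧ N₃ v) + wt x (fun v => C v ∧ ¬ N₁ v) +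
      wt x (fun v => C v ∧ ¬ N₂ v) + wt x (fun v => C v ∧ ¬ N₃ v) := by
  unfold wt
  rw [← sum_add_distrib, ← sum_add_distrib, ← sum_add_distrib]
  refine sum_le_sum fun v _ => ?_
  have h0 : 0 ≤ x v ^ 2 := sq_nonneg _
  by_cases hc : C v <;> by_cases h1 : N₁ v <;> by_cases h2 : N₂ v <;> by_cases h3 : N₃ v <;>
    simp [hc, h1, h2, h3] <;> linarith

theorem side_Light (H : SimpleGraph V) (hf : K122 H) (l : ℝ) (hl : 0 < l) (x : V → ℝ)
    (hx : ∀ u, x u ^ 2 ≤ kap * l) (C : V → Prop) (hC : 0.98 * l ≤ wt x C) (w a b : V)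
    (ha : H.Adj w a) (hb : H.Adj w b)
    (mw : wt x (fun v => C v ∧ ¬ H.Adj w v) ≤ 0.14 * l)
    (ma : wt x (fun v => C v ∧ ¬ H.Adj a v) ≤ 0.14 * l)
    (mb : wt x (fun v => C v ∧ ¬ H.Adj b v) ≤ 0.14 * l) : a = b := by
  by_contra hne
  have h1 := three_Light x C (H.Adj w) (H.Adj a) (H.Adj b)
  have hk : (0 : ℝ) < kap := by unfold kap; norm_num
  have h2 := wt_le_of_sub x (fun v => C v ∧ H.Adj w v ∧ H.Adj a v ∧ H.Adj b v) (kap * l)
    (mul_pos hk hl).le hx fun p q hp hq =>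
      hf w a b p q ha hb hp.2.1 hq.2.1 hne hp.2.2.1 hq.2.2.1 hp.2.2.2 hq.2.2.2
  unfold kap at h2
  linarith

end

theorem lightS (hN : NbS) (h1 : Light1S) : LightS := by
  intro V _ H l x hc hx
  obtain ⟨A, B, hAB, hA, hB, hp⟩ := h1 V H l x hc hx
  have hl : 0 < l := lt_of_lt_of_le (by norm_num) hc.big
  have hn : nn x ≤ 2 * l := by rw [hc.per.nrm]; linarith
  have hw : ∀ u, NI H u → 0.999 * l ≤ wt x (H.Adj u) := by
    intro u hu
    have h2 := hN V H l x hc u hu
    have h3 := hx u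
    have h4 := wt_nonneg x (H.Adj u)
    unfold kap at h3
    unfold eps at h2
    have h5 : wt x (H.Adj u) * (l + x u ^ 2 / 4) ≤ wt x (H.Adj u) * (1.0001 * l) :=
      mul_le_mul_of_nonneg_left (by linarith) h4
    by_contra hlt
    push Not at hlt
    have h6 : wt x (H.Adj u) * (1.0001 * l) ≤ 0.999 * l * (1.0001 * l) :=
      mul_le_mul_of_nonneg_right hlt.le (by positivity)
    have h7 : 0 < l ^ 2 := by positivity
    nlinarith
  have mT : ∀ u, NI H u → wt x (fun v => H.Adj u v ∧ A v) ≤ 0.12 * l →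
      wt x (fun v => B v ∧ ¬ H.Adj u v) ≤ 0.14 * l := by
    intro u hu h
    have h2 := miss_Light x A B (H.Adj u) hAB
    have h3 := hw u hu
    linarith
  have mF : ∀ u, NI H u → ¬ wt x (fun v => H.Adj u v ∧ A v) ≤ 0.12 * l →
      wt x (fun v => A v ∧ ¬ H.Adj u v) ≤ 0.14 * l := by
    intro u hu h
    push Not at h
    have h2 := miss_Light x B A (H.Adj u) fun v hb ha => hAB v ha hb
    have h3 := hw u hu
    have h4 : wt x (fun v => H.Adj u v ∧ B v) ≤ 0.12 * l := by
      by_contra hlt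
      push Not at hlt
      have h5 := mul_le_mul h.le hlt.le (by positivity) (wt_nonneg x _)
      have h6 := hp u
      have h7 : 0 < l ^ 2 := by positivity
      nlinarith
    linarith
  refine ⟨fun w => decide (wt x (fun v => H.Adj w v ∧ A v) ≤ 0.12 * l), ?_⟩
  intro w a b ha hb ea eb
  have nw : NI H w := ⟨a, ha⟩
  have na : NI H a := ⟨w, ha.symm⟩
  have nb : NI H b := ⟨w, hb.symm⟩
  simp only [decide_eq_decide] at ea eb
  by_cases hs : wt x (fun v => H.Adj w v ∧ A v) ≤ 0.12 * l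
  · exact side_Light H hc.free l hl x hx B (by linarith) w a b ha hb (mT w nw hs)
      (mT a na (ea.2 hs)) (mT b nb (eb.2 hs))
  · exact side_Light H hc.free l hl x hx A (by linarith) w a b ha hb (mF w nw hs)
      (mF a na fun h => hs (ea.1 h)) (mF b nb fun h => hs (eb.1 h))

end W5

end

section

/-! The heavy case, first step: few large entries, all other entries are small. -/

namespace W5

open Finset
open scoped Classical

section
variable {V : Type} [Fintype V]

theorem cnt_Heavy1 (P : V → Prop) [DecidablePred P] : (∑ v, if P v then (1 : ℝ) else 0) ≤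
    1 + ∑ v, ∑ v', if P v ∧ P v' ∧ v ≠ v' then (1 : ℝ) else 0 := by
  have h0 : ∀ v, (0 : ℝ) ≤ ∑ v', if P v ∧ P v' ∧ v ≠ v' then (1 : ℝ) else 0 :=
    fun v => sum_nonneg fun v' _ => by split_ifs <;> norm_num
  by_cases he : ∃ p, P p
  · obtain ⟨p, hp⟩ := he
    have h1 : ∀ v, (if P v then (1 : ℝ) else 0) ≤ (if v = p then (1 : ℝ) else 0) +
        ∑ v', if P v ∧ P v' ∧ v ≠ v' then (1 : ℝ) else 0 := by
      intro v
      by_cases hv : P v
      · by_cases hvp : v = p
        · rw [if_pos hv, if_pos hvp]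
          linarith [h0 v]
        · rw [if_pos hv, if_neg hvp, zero_add]
          have := single_le_sum (f := fun v' => if P v ∧ P v' ∧ v ≠ v' then (1 : ℝ) else 0)
            (fun v' _ => by split_ifs <;> norm_num) (mem_univ p)
          rw [if_pos ⟨hv, hp, hvp⟩] at this
          exact this
      · rw [if_neg hv]
        have := h0 v
        split_ifs <;> linarith
    refine (sum_le_sum fun v _ => h1 v).trans ?_
    rw [sum_add_distrib, sum_ite_eq']
    simp
  · push Not at he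
    have h2 : (0 : ℝ) ≤ ∑ v, ∑ v', if P v ∧ P v' ∧ v ≠ v' then (1 : ℝ) else 0 :=
      sum_nonneg fun v _ => h0 v
    have h3 : (∑ v, if P v then (1 : ℝ) else 0) = 0 := sum_eq_zero fun v _ => if_neg (he v)
    linarith

theorem swap_Heavy1 (H : SimpleGraph V) (f : V → V → ℝ) :
    (∑ v, ∑ w, if H.Adj v w then f w v else 0) = ∑ v, ∑ w, if H.Adj v w then f v w else 0 := by
  rw [sum_comm]
  refine sum_congr rfl fun v _ => sum_congr rfl fun w _ => ?_
  by_cases h : H.Adj v w
  · rw [if_pos h, if_pos h.symm]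
  · rw [if_neg h, if_neg fun h2 => h h2.symm]

theorem pair_Heavy1 {H : SimpleGraph V} (hf : K122 H) (x : V → ℝ) (u0 : V) (K : V → Prop)
    [DecidablePred K] (hx0 : ∀ v, 0 ≤ x v) (hx : ∀ v, x v ≤ x u0) :
    (∑ v, ∑ w, if H.Adj v w then (if H.Adj u0 v ∧ H.Adj u0 w ∧ K v then x w else 0) else 0) ≤
      ns H x u0 + x u0 * (∑ v, if K v then (1 : ℝ) else 0) ^ 2 := by
  rw [sum_comm]
  have h1 : ∀ w, (∑ v, if H.Adj v w then (if H.Adj u0 v ∧ H.Adj u0 w ∧ K v then x w else 0)
      else 0) ≤ (if H.Adj u0 w then x w else 0) + x u0 * ∑ v, ∑ v',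
        if H.Adj u0 w ∧ (K v ∧ H.Adj u0 v ∧ H.Adj v w) ∧ (K v' ∧ H.Adj u0 v' ∧ H.Adj v' w) ∧ v ≠ v'
          then (1 : ℝ) else 0 := by
    intro w
    by_cases hw : H.Adj u0 w
    · have e : (∑ v, if H.Adj v w then (if H.Adj u0 v ∧ H.Adj u0 w ∧ K v then x w else 0)
          else 0) = x w * ∑ v, if K v ∧ H.Adj u0 v ∧ H.Adj v w then (1 : ℝ) else 0 := by
        rw [mul_sum]
        refine sum_congr rfl fun v _ => ?_
        by_cases h1 : H.Adj v w <;> by_cases h2 : H.Adj u0 v <;> by_cases h3 : K v <;>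
          simp [h1, h2, h3, hw]
      have h2 := cnt_Heavy1 (fun v => K v ∧ H.Adj u0 v ∧ H.Adj v w)
      have e2 : (∑ v, ∑ v', if H.Adj u0 w ∧ (K v ∧ H.Adj u0 v ∧ H.Adj v w) ∧
          (K v' ∧ H.Adj u0 v' ∧ H.Adj v' w) ∧ v ≠ v' then (1 : ℝ) else 0) =
          ∑ v, ∑ v', if (K v ∧ H.Adj u0 v ∧ H.Adj v w) ∧
            (K v' ∧ H.Adj u0 v' ∧ H.Adj v' w) ∧ v ≠ v' then (1 : ℝ) else 0 := by
        refine sum_congr rfl fun v _ => sum_congr rfl fun v' _ => ?_
        by_cases h3 : (K v ∧ H.Adj u0 v ∧ H.Adj v w) ∧ (K v' ∧ H.Adj u0 v' ∧ H.Adj v' w) ∧ v ≠ v'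
        · rw [if_pos h3, if_pos ⟨hw, h3⟩]
        · rw [if_neg h3, if_neg fun h4 => h3 h4.2]
      rw [e, if_pos hw, e2]
      have h3 : (0 : ℝ) ≤ ∑ v, ∑ v', if (K v ∧ H.Adj u0 v ∧ H.Adj v w) ∧
            (K v' ∧ H.Adj u0 v' ∧ H.Adj v' w) ∧ v ≠ v' then (1 : ℝ) else 0 :=
        sum_nonneg fun v _ => sum_nonneg fun v' _ => by split_ifs <;> norm_num
      have h4 := mul_le_mul_of_nonneg_left h2 (hx0 w)
      have h5 := mul_le_mul_of_nonneg_right (hx w) h3
      linarith
    · simp [hw]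
  refine (sum_le_sum fun w _ => h1 w).trans ?_
  rw [sum_add_distrib, ← mul_sum]
  refine add_le_add le_rfl (mul_le_mul_of_nonneg_left ?_ (hx0 u0))
  rw [sq, sum_mul_sum, sum_comm]
  refine sum_le_sum fun v _ => ?_
  rw [sum_comm]
  refine sum_le_sum fun v' _ => ?_
  by_cases hk : K v ∧ K v'
  · rw [if_pos hk.1, if_pos hk.2, mul_one]
    have := wt_le_of_sub (fun _ => (1 : ℝ)) (fun w => H.Adj u0 w ∧ (K v ∧ H.Adj u0 v ∧ H.Adj v w) ∧
      (K v' ∧ H.Adj u0 v' ∧ H.Adj v' w) ∧ v ≠ v') 1 zero_le_one (fun _ => by norm_num)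
      (fun p q hp hq => hf u0 v v' p q hp.2.1.2.1 hp.2.2.1.2.1 hp.1 hq.1 hp.2.2.2 hp.2.1.2.2
        hq.2.1.2.2 hp.2.2.1.2.2 hq.2.2.1.2.2)
    refine le_trans (le_of_eq ?_) this
    unfold wt
    refine sum_congr rfl fun w _ => ?_
    split_ifs <;> norm_num
  · have h0 : (∑ w, if H.Adj u0 w ∧ (K v ∧ H.Adj u0 v ∧ H.Adj v w) ∧
        (K v' ∧ H.Adj u0 v' ∧ H.Adj v' w) ∧ v ≠ v' then (1 : ℝ) else 0) = 0 :=
      sum_eq_zero fun w _ => if_neg fun h => hk ⟨h.2.1.1, h.2.2.1.1⟩
    rw [h0]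
    split_ifs <;> norm_num

end

theorem heavy1S : Heavy1S := by
  intro V _ H l x hc u0 hmax hk
  have hl : (0 : ℝ) < l := lt_of_lt_of_le (by norm_num) hc.big
  have hkap : (0 : ℝ) < kap := by unfold kap; norm_num
  have hp := hc.per.pos
  have hx0 : 0 < x u0 := by
    rcases (hp u0).lt_or_eq with h | h
    · exact h
    · rw [← h] at hk
      have : 0 < kap * l := by positivity
      linarith
  have hn : nn x ≤ 2 * l := by rw [hc.per.nrm]; linarith
  set k : ℝ := ∑ v, if x u0 / 4 ≤ x v then (1 : ℝ) else 0 with hkd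
  have hk0 : 0 ≤ k := sum_nonneg fun v _ => by split_ifs <;> norm_num
  have hcard : ((univ.filter fun v => x u0 / 4 ≤ x v).card : ℝ) = k := by
    rw [hkd, sum_boole]
  have hk1 : k ≤ 20480000 := by
    have h1 : k * (x u0 ^ 2 / 16) ≤ nn x := by
      rw [hkd, sum_mul]
      refine sum_le_sum fun v _ => ?_
      split_ifs with h
      · have := pow_le_pow_left₀ (by positivity) h 2
        linarith
      · rw [zero_mul]; positivity
    have h2 : k * (kap * l / 16) ≤ k * (x u0 ^ 2 / 16) :=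
      mul_le_mul_of_nonneg_left (by linarith) hk0
    have h3 : k * l ≤ 20480000 * l := by
      unfold kap at h2
      linarith
    exact le_of_mul_le_mul_right h3 hl
  refine ⟨hcard ▸ hk1, ?_⟩
  have hS1 : (∑ v, ∑ w, if H.Adj v w then (if H.Adj u0 v then x w else 0) else 0) =
      l ^ 2 * x u0 := by
    have e : ∀ v, (∑ w, if H.Adj v w then (if H.Adj u0 v then x w else 0) else 0) =
        l * if H.Adj u0 v then x v else 0 := by
      intro v
      by_cases h : H.Adj u0 v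
      · simp only [h, if_true]
        exact hc.per.eig v
      · simp [h]
    simp only [e]
    rw [← mul_sum]
    have := hc.per.eig u0
    unfold ns at this
    rw [this]
    ring
  have hS2 := swap_Heavy1 H (fun v w => if H.Adj u0 v then x w else 0)
  have hP1 := pair_Heavy1 hc.free x u0 (fun v => x u0 / 4 ≤ x v) hp hmax
  have hP2 := swap_Heavy1 H
    (fun v w => if H.Adj u0 v ∧ H.Adj u0 w ∧ x u0 / 4 ≤ x v then x w else 0)
  set NL : ℝ := ∑ v, ∑ w, if H.Adj v w ∧ x v < x u0 / 4 ∧ x w < x u0 / 4 then (1 : ℝ) else 0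
    with hNL
  have hor : ∀ v, (x u0 / 4 ≤ x v ∧ ¬ x v < x u0 / 4) ∨ (¬ x u0 / 4 ≤ x v ∧ x v < x u0 / 4) := by
    intro v
    rcases le_or_gt (x u0 / 4) (x v) with h | h
    · exact Or.inl ⟨h, not_lt.2 h⟩
    · exact Or.inr ⟨not_le.2 h, h⟩
  have hpt : ∀ v w, (if H.Adj v w then (if H.Adj u0 v then x w else 0) else 0) +
      (if H.Adj v w then (if H.Adj u0 w then x v else 0) else 0) +
      x u0 / 2 * (if H.Adj v w ∧ x v < x u0 / 4 ∧ x w < x u0 / 4 then (1 : ℝ) else 0) ≤
      x u0 * (if H.Adj v w then (1 : ℝ) else 0) +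
      (if H.Adj v w then (if H.Adj u0 v ∧ H.Adj u0 w ∧ x u0 / 4 ≤ x v then x w else 0) else 0) +
      (if H.Adj v w then (if H.Adj u0 w ∧ H.Adj u0 v ∧ x u0 / 4 ≤ x w then x v else 0) else 0) := by
    intro v w
    have a1 := hp v
    have a2 := hp w
    have a3 := hmax v
    have a4 := hmax w
    by_cases h : H.Adj v w
    · rcases hor v with ⟨h3, h5⟩ | ⟨h3, h5⟩ <;> rcases hor w with ⟨h4, h6⟩ | ⟨h4, h6⟩ <;>
        by_cases h1 : H.Adj u0 v <;> by_cases h2 : H.Adj u0 w <;>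
        simp only [h, h1, h2, h3, h4, h5, h6, if_true, if_false, and_true, and_false,
          and_self] <;> linarith
    · simp [h]
  have hsum := sum_le_sum fun v (_ : v ∈ univ) => sum_le_sum fun w (_ : w ∈ univ) => hpt v w
  simp only [sum_add_distrib, ← mul_sum] at hsum
  rw [hS2, hP2, hS1, ← two_ed, ← hNL] at hsum
  rw [hc.per.eig u0] at hP1
  have hP3 : (∑ v, ∑ w, if H.Adj v w then
      (if H.Adj u0 v ∧ H.Adj u0 w ∧ x u0 / 4 ≤ x v then x w else 0) else 0) ≤
      l * x u0 + x u0 * k ^ 2 := hP1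
  have hm := mul_le_mul_of_nonneg_left hc.hm hx0.le
  have hN : NL ≤ 4 * (k ^ 2 + 1) := by
    refine le_of_mul_le_mul_left ?_ hx0
    nlinarith
  intro v hv
  have hd : dg H v ≤ k + NL := by
    have h1 : (∑ w, if H.Adj v w ∧ x v < x u0 / 4 ∧ x w < x u0 / 4 then (1 : ℝ) else 0) ≤ NL :=
      single_le_sum (f := fun v => ∑ w,
        if H.Adj v w ∧ x v < x u0 / 4 ∧ x w < x u0 / 4 then (1 : ℝ) else 0)
        (fun v _ => sum_nonneg fun w _ => by split_ifs <;> norm_num) (mem_univ v)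
    refine le_trans ?_ (add_le_add le_rfl h1)
    rw [hkd, ← sum_add_distrib]
    unfold dg ns
    refine sum_le_sum fun w _ => ?_
    by_cases h : H.Adj v w <;> rcases hor w with ⟨h4, h6⟩ | ⟨h4, h6⟩ <;>
      simp [h, hv, h4, h6]
  have h1 : l * x v ≤ dg H v * x u0 := by
    rw [← hc.per.eig v]
    unfold dg ns
    rw [sum_mul]
    refine sum_le_sum fun w _ => ?_
    split_ifs
    · rw [one_mul]; exact hmax w
    · rw [zero_mul]
  have h2 : dg H v ≤ 5 * 20480000 ^ 2 := by nlinarith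
  have h3 : l * x v ≤ 5 * 20480000 ^ 2 * x u0 :=
    h1.trans (mul_le_mul_of_nonneg_right h2 hx0.le)
  have h4 : x u0 ^ 2 ≤ 2 * l :=
    (single_le_sum (f := fun v => x v ^ 2) (fun v _ => sq_nonneg _) (mem_univ u0)).trans hn
  have h5 := pow_le_pow_left₀ (mul_nonneg hl.le (hp v)) h3 2
  have h6 : l * (l * x v ^ 2) ≤ l * (2 * (5 * 20480000 ^ 2) ^ 2) := by nlinarith
  have h7 := le_of_mul_le_mul_left h6 hl
  have h8 : 10 ^ 32 * x v ^ 2 ≤ l * x v ^ 2 := mul_le_mul_of_nonneg_right hc.big (sq_nonneg _)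
  refine le_of_sq_le_sq ?_ (by norm_num)
  linarith

end W5

end

section

namespace W5

open Finset
open scoped Classical

theorem wtK_Heavy {V : Type} [Fintype V] {H : SimpleGraph V} {l : ℝ} {x : V → ℝ} (h : Per H l x)
    (K : V → Prop) :
    l * wt x K ≤ l * wt x (fun v => ¬ K v) + ((univ.filter K).card : ℝ) * wt x K := by
  obtain ⟨a, ha⟩ : ∃ a : V → V → ℝ, ∀ u v, a u v = if H.Adj u v then x u * x v else 0 :=
    ⟨_, fun _ _ => rfl⟩
  have a0 : ∀ u v, 0 ≤ a u v := fun u v => by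
    rw [ha]
    have := mul_nonneg (h.pos u) (h.pos v)
    split_ifs <;> simp [this]
  have a1 : ∀ u v, a u v = a v u := fun u v => by
    rw [ha, ha, mul_comm]
    simp only [H.adj_comm]
  have a2 : ∀ u, l * x u ^ 2 = ∑ v, a u v := fun u => by
    rw [show l * x u ^ 2 = x u * (l * x u) by ring, ← h.eig, ns, mul_sum]
    refine sum_congr rfl fun v _ => ?_
    rw [ha]
    split_ifs <;> simp
  have a3 : ∀ u v, a u v ≤ x u ^ 2 / 2 + x v ^ 2 / 2 := fun u v => by
    rw [ha]
    split_ifs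
    · nlinarith [sq_nonneg (x u - x v)]
    · positivity
  have w1 : wt x K = ∑ v ∈ univ.filter K, x v ^ 2 := by rw [wt, sum_filter]
  have w2 : wt x (fun v => ¬ K v) = ∑ v ∈ univ.filter (fun v => ¬ K v), x v ^ 2 := by
    rw [wt, sum_filter]
    exact sum_congr rfl fun v _ => by split_ifs <;> rfl
  have b1 : l * wt x K = ∑ u ∈ univ.filter K, ∑ v ∈ univ.filter K, a u v +
      ∑ u ∈ univ.filter K, ∑ v ∈ univ.filter (fun v => ¬ K v), a u v := by
    rw [w1, mul_sum, ← sum_add_distrib]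
    exact sum_congr rfl fun u _ => by rw [a2, sum_filter_add_sum_filter_not]
  have b2 : ∑ u ∈ univ.filter K, ∑ v ∈ univ.filter (fun v => ¬ K v), a u v ≤
      l * wt x (fun v => ¬ K v) := by
    rw [w2, mul_sum, sum_comm]
    refine sum_le_sum fun v _ => ?_
    rw [a2, sum_congr rfl fun u _ => a1 u v]
    exact sum_le_sum_of_subset_of_nonneg (filter_subset _ _) fun u _ _ => a0 v u
  have b3 : ∑ u ∈ univ.filter K, ∑ v ∈ univ.filter K, a u v ≤
      ((univ.filter K).card : ℝ) * wt x K := by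
    refine (sum_le_sum fun u _ => sum_le_sum fun v _ => a3 u v).trans (le_of_eq ?_)
    simp only [sum_add_distrib, sum_const, nsmul_eq_mul, ← sum_div, ← mul_sum, w1]
    ring
  linarith

theorem heavyS (hN : NbS) (h1 : Heavy1S) : HeavyS := by
  intro V _ H l x hc ⟨u₁, hu₁⟩
  have : Nonempty V := ⟨u₁⟩
  obtain ⟨u0, hu0⟩ := Finite.exists_max x
  have hp := hc.per
  have hl := hc.big
  have e0 : eps = 1 / 20480000 := rfl
  have e1 : kap = 1 / 640000 := rfl
  have hk0 : kap * l ≤ x u0 ^ 2 := hu₁.trans (pow_le_pow_left₀ (hp.pos _) (hu0 _) 2)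
  obtain ⟨k1, k2⟩ := h1 V H l x hc u0 hu0 hk0
  obtain ⟨K, hK⟩ : ∃ K : V → Prop, ∀ v, K v ↔ x u0 / 4 ≤ x v := ⟨_, fun _ => Iff.rfl⟩
  have k3 : ((univ.filter K).card : ℝ) ≤ 20480000 := by
    rwa [filter_congr fun v _ => hK v]
  have k4 : ∀ v, ¬ K v → x v ≤ 1 / 2 := fun v hv => k2 v (not_le.1 fun h => hv ((hK v).2 h))
  have s1 : ∀ u v, H.Adj u v → ¬ K u → K v := by
    intro u v huv hu
    by_contra hv
    have b1 := hc.he u v huv
    have b2 := mul_le_mul (k4 u hu) (k4 v hv) (hp.pos v) (by norm_num)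
    rw [e0] at b1
    linarith
  have hl' : (20480000 : ℝ) ^ 3 ≤ l := le_trans (by norm_num) hl
  have s2 : wt x K ≤ l + 20480000 := by
    have b1 := wtK_Heavy hp K
    have b2 := wt_compl x K
    have b3 := mul_le_mul_of_nonneg_right k3 (wt_nonneg x K)
    rw [hp.nrm] at b2
    have b4 : wt x (fun v => ¬ K v) = 2 * l - 1 - wt x K := by linarith
    rw [b4] at b1
    by_contra hcon
    push Not at hcon
    have b5 := mul_lt_mul_of_pos_right hcon (show 0 < 2 * l - 20480000 by linarith)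
    nlinarith
  have s3 : ∀ u v, K u → ¬ K v → NI H v → H.Adj u v := by
    intro u v hu hv hni
    by_contra huv
    have b1 := hN V H l x hc v hni
    have b2 := wt_split x K fun y => y = u
    have b3 : wt x (H.Adj v) ≤ wt x fun y => K y ∧ ¬ y = u := wt_mono x fun y hy =>
      ⟨s1 v y hy hv, fun e => huv (e ▸ hy.symm)⟩
    have b4 : x u ^ 2 ≤ wt x fun y => K y ∧ y = u := by
      have := single_le_sum (f := fun y => if K y ∧ y = u then x y ^ 2 else 0)
        (fun y _ => by split_ifs <;> positivity) (mem_univ u)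
      rw [if_pos ⟨hu, rfl⟩] at this
      refine this.trans (le_of_eq (sum_congr rfl fun y _ => ?_))
      split_ifs <;> rfl
    have b5 : (x u0 / 4) ^ 2 ≤ x u ^ 2 :=
      pow_le_pow_left₀ (by have := hp.pos u0; positivity) ((hK u).1 hu) 2
    have b6 : x v ^ 2 ≤ (1 / 2) ^ 2 := pow_le_pow_left₀ (hp.pos v) (k4 v hv) 2
    have b7 : wt x (H.Adj v) ≤ l * (1 - 1 / 10240000) + 20480000 := by
      rw [e1] at hk0
      linarith
    have b8 := mul_le_mul b7 (show l + x v ^ 2 / 4 ≤ l + 1 by linarith) (by positivity)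
      (by positivity)
    have b9 := mul_le_mul_of_nonneg_right hl' (show 0 ≤ l by linarith)
    rw [e0] at b1
    nlinarith
  have s4 : ∃ p q, p ≠ q ∧ ¬ K p ∧ ¬ K q ∧ NI H p ∧ NI H q := by
    have x0 : 0 < x u0 := by
      rcases (hp.pos u0).eq_or_lt with h | h
      · rw [← h, e1] at hk0
        linarith
      · exact h
    have b1 : l * x u0 ≤ ((univ.filter (H.Adj u0)).card : ℝ) * x u0 := by
      rw [← hp.eig, ns, ← sum_filter, ← nsmul_eq_mul]
      exact sum_le_card_nsmul _ _ _ fun v _ => hu0 v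
    have b2 := le_of_mul_le_mul_right b1 x0
    have b3 : univ.filter (H.Adj u0) ⊆ univ.filter K ∪ univ.filter fun v => H.Adj u0 v ∧ ¬ K v := by
      intro v hv
      simp only [mem_filter, mem_union, mem_univ, true_and] at hv ⊢
      tauto
    have b4 : ((univ.filter (H.Adj u0)).card : ℝ) ≤ (univ.filter K).card +
        (univ.filter fun v => H.Adj u0 v ∧ ¬ K v).card := by
      exact_mod_cast (card_le_card b3).trans (card_union_le _ _)
    have b5 : 1 < (univ.filter fun v => H.Adj u0 v ∧ ¬ K v).card := by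
      have : (1 : ℝ) < (univ.filter fun v => H.Adj u0 v ∧ ¬ K v).card := by linarith
      exact_mod_cast this
    obtain ⟨p, hp', q, hq', hpq⟩ := one_lt_card.1 b5
    simp only [mem_filter, mem_univ, true_and] at hp' hq'
    exact ⟨p, q, hpq, hp'.2, hq'.2, ⟨u0, hp'.1.symm⟩, ⟨u0, hq'.1.symm⟩⟩
  refine ⟨fun v => decide (K v), fun w a b ha hb ea eb => ?_, ?_, ?_⟩
  · simp only [decide_eq_decide] at ea eb
    by_cases hw : K w
    · obtain ⟨p, q, hpq, g1, g2, g3, g4⟩ := s4
      by_contra hab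
      exact hpq (hc.free w a b p q ha hb (s3 w p hw g1 g3) (s3 w q hw g2 g4) hab
        (s3 a p (ea.2 hw) g1 g3) (s3 a q (ea.2 hw) g2 g4) (s3 b p (eb.2 hw) g1 g3)
        (s3 b q (eb.2 hw) g2 g4))
    · exact absurd (ea.1 (s1 w a ha hw)) hw
  · rw [mu, card_eq_zero, filter_eq_empty_iff]
    rintro ⟨u, v⟩ - ⟨g1, g2, -, g4, g5⟩
    exact g5 (s3 u v (by simpa using g1) (by simpa using g2) g4)
  · rw [mt, card_eq_zero, filter_eq_empty_iff]
    rintro u - ⟨g1, v, g2, g3⟩
    simp only [decide_eq_decide, decide_eq_false_iff_not] at g1 g3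
    exact g1 (g3.1 (s1 u v g2 g1))

end W5

end

section

/-! The entries of the Perron vector are almost constant on each side. -/

namespace W5

open Finset
open scoped Classical

section
variable {V : Type} [Fintype V] {H : SimpleGraph V} {l : ℝ} {x : V → ℝ} {σ : V → Bool}

theorem cross_Xb (hN : NbS) (hc : Core H l x) (hl : ∀ u, x u ^ 2 ≤ kap * l) (hp : Par H σ)
    {u : V} (hu : NI H u) :
    (1 - 3 / 10 ^ 6) * l ≤ wt x (fun v => H.Adj u v ∧ σ v = !σ u) := by
  have l0 : 0 < l := lt_of_lt_of_le (by norm_num) hc.big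
  have h1 := hN V H l x hc u hu
  have h2 := wt_le_of_sub x (fun v => H.Adj u v ∧ ¬ σ v = !σ u) (kap * l)
    ((sq_nonneg _).trans (hl u)) hl fun p q a b =>
      hp u p q a.1 b.1 (by simpa using a.2) (by simpa using b.2)
  have h3 := wt_split x (H.Adj u) fun v => σ v = !σ u
  have h4 := mul_le_mul_of_nonneg_left (show l + x u ^ 2 / 4 ≤ (1 + kap / 4) * l by
    linarith [hl u]) (wt_nonneg x (H.Adj u))
  have h5 : (1 - eps) * l ≤ wt x (H.Adj u) * (1 + kap / 4) :=
    le_of_mul_le_mul_right (by nlinarith) l0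
  unfold eps kap at *
  linarith

theorem nb_Xb (hN : NbS) (hc : Core H l x) (hl : ∀ u, x u ^ 2 ≤ kap * l) (hp : Par H σ)
    {u : V} (hu : NI H u) : ∃ v, H.Adj u v ∧ σ v = !σ u := by
  by_contra h
  have h1 := cross_Xb hN hc hl hp hu
  have h2 : wt x (fun v => H.Adj u v ∧ σ v = !σ u) = 0 :=
    sum_eq_zero fun v _ => if_neg fun e => h ⟨v, e⟩
  have := hc.big
  linarith

theorem side_Xb (hN : NbS) (hc : Core H l x) (hl : ∀ u, x u ^ 2 ≤ kap * l) (hp : Par H σ)
    (c : Bool) : ∃ u, NI H u ∧ σ u = c := by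
  have hb := hc.big
  have : ∃ u, NI H u := by
    by_contra h
    have h1 := hc.per.nrm
    have h2 : nn x = 0 := sum_eq_zero fun u _ => by
      rw [hc.per.zero (by linarith) fun e => h ⟨u, e⟩]
      norm_num
    linarith
  obtain ⟨u, hu⟩ := this
  by_cases e : σ u = c
  · exact ⟨u, hu, e⟩
  · obtain ⟨v, h1, h2⟩ := nb_Xb hN hc hl hp hu
    exact ⟨v, ⟨u, h1.symm⟩, by rw [h2]; revert e; cases σ u <;> cases c <;> simp⟩

theorem low_Xb (hN : NbS) (hc : Core H l x) (hl : ∀ u, x u ^ 2 ≤ kap * l) (hp : Par H σ)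
    (c : Bool) : (1 - 3 / 10 ^ 6) * l ≤ wt x (fun v => σ v = c) := by
  obtain ⟨u, hu, e⟩ := side_Xb hN hc hl hp (!c)
  exact (cross_Xb hN hc hl hp hu).trans (wt_mono x fun v h => by rw [h.2, e, Bool.not_not])

theorem up_Xb (hN : NbS) (hc : Core H l x) (hl : ∀ u, x u ^ 2 ≤ kap * l) (hp : Par H σ)
    (c : Bool) : wt x (fun v => σ v = c) ≤ (1 + 3 / 10 ^ 6) * l := by
  have h1 := wt_compl x fun v => σ v = c
  have h2 := (low_Xb hN hc hl hp (!c)).trans
    (wt_mono x (T := fun v => ¬ σ v = c) fun v h => by rw [h]; simp)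
  have := hc.per.nrm
  linarith

end

theorem xbS (hN : NbS) : XbS := by
  intro V _ H l x σ hc hl hp
  have hb := hc.big
  have x0 := hc.per.pos
  have : ∀ c, ∃ u, σ u = c ∧ ∀ v, σ v = c → x v ≤ x u := fun c => by
    obtain ⟨u, -, e⟩ := side_Xb hN hc hl hp c
    obtain ⟨w, h1, h2⟩ := exists_max_image (univ.filter fun v => σ v = c) x ⟨u, by simpa using e⟩
    exact ⟨w, by simpa using h1, fun v hv => h2 v (by simpa using hv)⟩
  choose m hm hx using this
  set S : Bool → ℝ := fun c => ∑ v, if σ v = c then x v else 0 with hS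
  have hA : ∀ c, l * x (m c) ≤ S (!c) + x (m c) := fun c => by
    have h1 := wt_le_of_sub (fun v => if σ v = c then √(x v) else 0)
      (fun v => H.Adj (m c) v ∧ σ v = c) (x (m c)) (x0 _)
      (fun v => by
        split_ifs with h
        · rw [Real.sq_sqrt (x0 v)]
          exact hx c v h
        · simpa using x0 _)
      fun p q a b => hp (m c) p q a.1 b.1 (a.2.trans (hm c).symm) (b.2.trans (hm c).symm)
    rw [← hc.per.eig]
    refine le_trans ?_ (add_le_add le_rfl h1)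
    unfold ns wt
    rw [hS, ← sum_add_distrib]
    refine sum_le_sum fun v _ => ?_
    have := x0 v
    by_cases a : H.Adj (m c) v <;> cases c <;> cases e : σ v <;> simp [a, e, this]
  have hB : ∀ u, NI H u → S (!σ u) ≤ l * x u + 3 * x (m (σ u)) * (6 / 10 ^ 6 * l) := fun u hu => by
    have h1 := wt_split x (fun v => σ v = !σ u) (H.Adj u)
    have h2 := (cross_Xb hN hc hl hp hu).trans
      (wt_mono x (T := fun v => σ v = (!σ u) ∧ H.Adj u v) fun v h => h.symm)
    have h3 := up_Xb hN hc hl hp (!σ u)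
    have h4 : wt x (fun v => σ v = (!σ u) ∧ ¬ H.Adj u v) ≤ 6 / 10 ^ 6 * l := by linarith
    rw [← hc.per.eig]
    refine le_trans ?_ (add_le_add le_rfl
      (mul_le_mul_of_nonneg_left h4 (mul_nonneg (by norm_num) (x0 _))))
    unfold ns wt
    rw [hS, mul_sum, ← sum_add_distrib]
    refine sum_le_sum fun v _ => ?_
    have := x0 v
    by_cases e : σ v = !σ u
    · by_cases a : H.Adj u v
      · simp [a, e]
      · rw [if_pos e, if_neg a, if_pos ⟨e, a⟩, zero_add]
        by_cases n : NI H v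
        · obtain ⟨w, b1, b2⟩ := nb_Xb hN hc hl hp n
          have b3 := hc.he v w b1
          have b4 := mul_le_mul_of_nonneg_left
            (hx (σ u) w (by rw [b2, e, Bool.not_not])) this
          have b5 : 1 ≤ 3 * x (m (σ u)) * x v := by
            unfold eps at b3
            linarith
          nlinarith
        · rw [hc.per.zero (by linarith) n]
          simp
    · by_cases a : H.Adj u v <;> simp [a, e, this]
  have hC : ∀ c, (1 - 3 / 10 ^ 6) * l ≤ x (m (!c)) * (1.0001 * l * x (m c)) := fun c => by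
    obtain ⟨u, hu, rfl⟩ := side_Xb hN hc hl hp c
    have h1 := hB u hu
    have h2 := mul_le_mul_of_nonneg_left (hx _ u rfl) (show 0 ≤ l by linarith)
    have h3 : 0 ≤ l * x (m (σ u)) := mul_nonneg (by linarith) (x0 _)
    refine (low_Xb hN hc hl hp (!σ u)).trans (le_trans ?_
      (mul_le_mul_of_nonneg_left (show S (!σ u) ≤ _ by linarith) (x0 _)))
    unfold wt
    rw [hS, mul_sum]
    refine sum_le_sum fun v _ => ?_
    split_ifs with e
    · rw [sq]
      exact mul_le_mul_of_nonneg_right (hx _ v e) (x0 v)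
    · simp
  refine ⟨fun c => x (m c), fun u => hx _ u rfl, fun u hu => ?_, fun c => x0 _, ?_, fun c => ?_⟩
  · have h1 := hA (σ u)
    have h2 := hB u hu
    have h3 := mul_le_mul_of_nonneg_right hb (x0 (m (σ u)))
    have h4 := x0 (m (σ u))
    exact le_of_mul_le_mul_left (a := l) (by linarith) (by linarith)
  · have h1 := hC false
    refine le_of_mul_le_mul_left (a := l) ?_ (by linarith)
    simp only [Bool.not_false] at h1
    linarith
  · linarith [up_Xb hN hc hl hp c]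

end W5

end

section

namespace W5

open Finset
open scoped Classical

section
variable {V : Type} [Fintype V] {H : SimpleGraph V} {σ : V → Bool}

theorem key_Cnt (h : Par H σ) (c : Bool) (u : V) :
    (∑ v, if H.Adj u v ∧ σ u = c ∧ σ v = c then (1 : ℝ) else 0) =
      if σ u = c ∧ Mt H σ u then 1 else 0 := by
  by_cases hu : σ u = c ∧ Mt H σ u
  · rw [if_pos hu]
    obtain ⟨h1, v, h2, h3⟩ := hu
    rw [sum_eq_single v, if_pos ⟨h2, h1, h3.trans h1⟩]
    · intro b _ hb
      exact if_neg fun g => hb (h u b v g.1 h2 (g.2.2.trans h1.symm) h3)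
    · simp
  · rw [if_neg hu]
    exact sum_eq_zero fun v _ => if_neg fun g => hu ⟨g.2.1, v, g.1, g.2.2.trans g.2.1.symm⟩

theorem mt_Cnt (c : Bool) : (mt H σ c : ℝ) = ∑ u, if σ u = c ∧ Mt H σ u then (1 : ℝ) else 0 := by
  rw [mt, sum_boole]

theorem ni_Cnt (c : Bool) :
    (mt H σ c : ℝ) + um H σ c = ∑ u, if σ u = c ∧ NI H u then (1 : ℝ) else 0 := by
  rw [mt_Cnt, um, ← sum_boole, ← sum_add_distrib]
  refine sum_congr rfl fun u _ => ?_
  by_cases h1 : σ u = c
  · by_cases h2 : Mt H σ u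
    · have h3 : NI H u := h2.imp fun _ g => g.1
      simp [h1, h2, h3]
    · simp [h1, h2]
  · simp [h1]

theorem mu_Cnt : (mu H σ : ℝ) = ∑ u, ∑ v, if Ms H σ u v then (1 : ℝ) else 0 := by
  rw [mu, ← sum_boole, Fintype.sum_prod_type]

end

theorem cntS : CntS := by
  intro V _ H σ h
  refine ⟨fun c => ?_, ?_, fun u => ?_, fun y c => ?_⟩
  · obtain ⟨G, hG⟩ : ∃ G : SimpleGraph V, ∀ u v, G.Adj u v ↔ H.Adj u v ∧ σ u = c ∧ σ v = c :=
      ⟨⟨fun u v => H.Adj u v ∧ σ u = c ∧ σ v = c, ⟨fun a b g => ⟨g.1.symm, g.2.2, g.2.1⟩⟩,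
        ⟨fun a g => g.1.ne rfl⟩⟩, fun _ _ => Iff.rfl⟩
    refine ⟨G.edgeFinset.card, ?_⟩
    rw [← G.sum_degrees_eq_twice_card_edges]
    refine Nat.cast_injective (R := ℝ) ?_
    rw [mt_Cnt, Nat.cast_sum]
    refine sum_congr rfl fun u _ => ?_
    rw [← key_Cnt h, ← SimpleGraph.card_neighborFinset_eq_degree,
      SimpleGraph.neighborFinset_eq_filter, ← sum_boole]
    refine sum_congr rfl fun v _ => ?_
    simp only [hG]
  · have a1 : 2 * ed H = (∑ u, ∑ v, if H.Adj u v ∧ σ u = true ∧ σ v = true then (1 : ℝ) else 0) +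
        (∑ u, ∑ v, if H.Adj u v ∧ σ u = false ∧ σ v = false then (1 : ℝ) else 0) +
        (∑ u, ∑ v, if H.Adj u v ∧ σ u = true ∧ σ v = false then (1 : ℝ) else 0) +
        (∑ u, ∑ v, if H.Adj v u ∧ σ v = true ∧ σ u = false then (1 : ℝ) else 0) := by
      rw [two_ed]
      simp only [← sum_add_distrib]
      refine sum_congr rfl fun u _ => sum_congr rfl fun v _ => ?_
      by_cases g : H.Adj u v
      · cases σ u <;> cases σ v <;> simp [g, g.symm]
      · have g' : ¬ H.Adj v u := fun k => g k.symm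
        simp [g, g']
    rw [sum_comm (f := fun u v => if H.Adj v u ∧ σ v = true ∧ σ u = false then (1 : ℝ) else 0)]
      at a1
    simp only [key_Cnt h, ← mt_Cnt] at a1
    have a2 : (∑ u, ∑ v, if H.Adj u v ∧ σ u = true ∧ σ v = false then (1 : ℝ) else 0) + mu H σ =
        ((mt H σ true : ℝ) + um H σ true) * ((mt H σ false : ℝ) + um H σ false) := by
      rw [ni_Cnt, ni_Cnt, mu_Cnt, sum_mul_sum]
      simp only [← sum_add_distrib]
      refine sum_congr rfl fun u _ => sum_congr rfl fun v _ => ?_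
      by_cases g : H.Adj u v
      · have g1 : NI H u := ⟨v, g⟩
        have g2 : NI H v := ⟨u, g.symm⟩
        cases e1 : σ u <;> cases e2 : σ v <;> simp [Ms, g, g1, g2, e1, e2]
      · by_cases g1 : NI H u <;> by_cases g2 : NI H v <;> cases e1 : σ u <;> cases e2 : σ v <;>
          simp [Ms, g, g1, g2, e1, e2]
    linarith
  · have a1 : dg H u ≤ (∑ v, if σ v = (!σ u) ∧ NI H v then (1 : ℝ) else 0) +
        ∑ v, if H.Adj u v ∧ σ u = σ u ∧ σ v = σ u then (1 : ℝ) else 0 := by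
      rw [dg, ns, ← sum_add_distrib]
      refine sum_le_sum fun v _ => ?_
      by_cases g : H.Adj u v
      · have g2 : NI H v := ⟨u, g.symm⟩
        cases σ u <;> cases σ v <;> simp [g, g2]
      · simp only [g, false_and, if_false]
        split_ifs <;> norm_num
    rw [key_Cnt h, ← ni_Cnt] at a1
    refine a1.trans (add_le_add le_rfl ?_)
    split_ifs <;> norm_num
  · have a1 : ∀ u v, (if H.Adj u v ∧ σ u = c ∧ σ v = c then y u * y v else 0) ≤
        y u ^ 2 / 2 * (if H.Adj u v ∧ σ u = c ∧ σ v = c then (1 : ℝ) else 0) +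
        y v ^ 2 / 2 * (if H.Adj v u ∧ σ v = c ∧ σ u = c then (1 : ℝ) else 0) := by
      intro u v
      by_cases g : H.Adj u v ∧ σ u = c ∧ σ v = c
      · rw [if_pos g, if_pos g, if_pos ⟨g.1.symm, g.2.2, g.2.1⟩]
        nlinarith [sq_nonneg (y u - y v)]
      · rw [if_neg g, if_neg g, if_neg fun k => g ⟨k.1.symm, k.2.2, k.2.1⟩]
        simp
    refine (sum_le_sum fun u _ => sum_le_sum fun v _ => a1 u v).trans (le_of_eq ?_)
    simp only [sum_add_distrib]
    rw [sum_comm (f := fun u v =>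
      y v ^ 2 / 2 * (if H.Adj v u ∧ σ v = c ∧ σ u = c then (1 : ℝ) else 0))]
    simp only [← mul_sum, key_Cnt h]
    rw [← sum_add_distrib, wt]
    refine sum_congr rfl fun u _ => ?_
    by_cases g : σ u = c ∧ Mt H σ u
    · simp only [g, and_self, if_true]
      ring
    · simp only [g, if_false]
      ring

end W5

end

section

namespace W5

open Finset
open scoped Classical

section
variable {V : Type} [Fintype V] {H : SimpleGraph V} {σ : V → Bool}

theorem pi_Tin (c : Bool) (t : ℝ) :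
    (∑ u, if σ u = c then (if Mt H σ u then 1 / t else if NI H u then 1 / (t + 1) else 0) else 0) =
      (mt H σ c : ℝ) / t + um H σ c / (t + 1) := by
  rw [mt, um, ← sum_boole, ← sum_boole, sum_div, sum_div, ← sum_add_distrib]
  refine sum_congr rfl fun u _ => ?_
  by_cases h1 : σ u = c <;> by_cases h2 : Mt H σ u <;> by_cases h3 : NI H u <;> simp [h1, h2, h3]

theorem tin_iff_Tin (a1 a2 b1 b2 : ℕ) {t : ℝ} (ht : 0 < t) : Tin a1 a2 b1 b2 t ↔
    1 ≤ ((a1 : ℝ) / t + a2 / (t + 1)) * ((b1 : ℝ) / t + b2 / (t + 1)) := by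
  have e : (((a1 : ℝ) + a2) * t + a1) * (((b1 : ℝ) + b2) * t + b1) = t ^ 2 * (t + 1) ^ 2 *
      (((a1 : ℝ) / t + a2 / (t + 1)) * ((b1 : ℝ) / t + b2 / (t + 1))) := by
    field_simp
    ring
  rw [Tin, e, le_mul_iff_one_le_right (by positivity)]

theorem cs_Tin (x : V → ℝ) (c : Bool) {t : ℝ} (ht : 0 < t) :
    (∑ u, if σ u = c ∧ NI H u then x u else 0) ^ 2 ≤
      ((mt H σ c : ℝ) / t + um H σ c / (t + 1)) *
        ((t + 1) * wt x (fun u => σ u = c ∧ NI H u) - wt x (fun u => σ u = c ∧ Mt H σ u)) := by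
  rw [← pi_Tin, wt, wt, mul_sum, ← sum_sub_distrib]
  refine sum_sq_le_sum_mul_sum_of_sq_le_mul _ (fun u _ => ?_) (fun u _ => ?_)
    fun u _ => le_of_eq ?_
  · split_ifs <;> positivity
  · by_cases h1 : σ u = c <;> by_cases h2 : Mt H σ u
    · have h3 : NI H u := h2.imp fun _ g => g.1
      simp only [h1, h2, h3, and_self, if_true]
      nlinarith [mul_nonneg ht.le (sq_nonneg (x u))]
    · simp only [h1, h2, true_and, if_false, sub_zero]
      split_ifs <;> positivity
    · simp [h1]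
    · simp [h1]
  · by_cases h1 : σ u = c <;> by_cases h2 : Mt H σ u
    · have h3 : NI H u := h2.imp fun _ g => g.1
      simp only [h1, h2, h3, and_self, if_true]
      field_simp
      ring
    · by_cases h3 : NI H u
      · simp only [h1, h2, h3, true_and, if_false, if_true, sub_zero]
        field_simp
      · simp [h1, h2, h3]
    · simp [h1]
    · simp [h1]

end

theorem tinS (hC : CntS) : TinS := by
  intro V _ H l x σ t hp hl h ht he
  obtain ⟨-, -, -, h4⟩ := hC V H σ h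
  have a1 : qf H x = (∑ u, ∑ v, if H.Adj u v ∧ σ u = true ∧ σ v = true then x u * x v else 0) +
      (∑ u, ∑ v, if H.Adj u v ∧ σ u = false ∧ σ v = false then x u * x v else 0) +
      (∑ u, ∑ v, if H.Adj u v ∧ σ u = true ∧ σ v = false then x u * x v else 0) +
      (∑ u, ∑ v, if H.Adj v u ∧ σ v = true ∧ σ u = false then x v * x u else 0) := by
    rw [qf_eq]
    simp only [← sum_add_distrib]
    refine sum_congr rfl fun u _ => sum_congr rfl fun v _ => ?_
    by_cases g : H.Adj u v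
    · cases σ u <;> cases σ v <;> simp [g, g.symm, mul_comm]
    · have g' : ¬ H.Adj v u := fun k => g k.symm
      simp [g, g']
  rw [sum_comm (f := fun u v => if H.Adj v u ∧ σ v = true ∧ σ u = false then x v * x u else 0)]
    at a1
  have a2 : 2 * (∑ u, ∑ v, if H.Adj u v ∧ σ u = true ∧ σ v = false then x u * x v else 0) +
      mw H σ x = 2 * ((∑ u, if σ u = true ∧ NI H u then x u else 0) *
        ∑ u, if σ u = false ∧ NI H u then x u else 0) := by
    rw [mw, sum_mul_sum]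
    simp only [mul_sum, ← sum_add_distrib]
    refine sum_congr rfl fun u _ => sum_congr rfl fun v _ => ?_
    by_cases g : H.Adj u v
    · have g1 : NI H u := ⟨v, g⟩
      have g2 : NI H v := ⟨u, g.symm⟩
      cases e1 : σ u <;> cases e2 : σ v <;> simp [Ms, g, g1, g2, e1, e2]
    · by_cases g1 : NI H u <;> by_cases g2 : NI H v <;> cases e1 : σ u <;> cases e2 : σ v <;>
        simp [Ms, g, g1, g2, e1, e2, mul_assoc]
  have a3 : nn x = wt x (fun u => σ u = true ∧ NI H u) + wt x (fun u => σ u = false ∧ NI H u) := by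
    rw [nn, wt, wt, ← sum_add_distrib]
    refine sum_congr rfl fun u _ => ?_
    by_cases g : NI H u
    · cases σ u <;> simp [g]
    · simp [g, hp.zero (by linarith) g]
  have a4 : ∀ c, wt x (fun u => σ u = c ∧ Mt H σ u) ≤ wt x (fun u => σ u = c ∧ NI H u) :=
    fun c => wt_mono x fun u g => ⟨g.1, g.2.imp fun _ k => k.1⟩
  have b1 := h4 x true
  have b2 := h4 x false
  have c1 := cs_Tin (H := H) (σ := σ) x true ht
  have c2 := cs_Tin (H := H) (σ := σ) x false ht
  have d1 := a4 true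
  have d2 := a4 false
  have d3 := mul_nonneg ht.le (wt_nonneg x fun u => σ u = true ∧ NI H u)
  have d4 := mul_nonneg ht.le (wt_nonneg x fun u => σ u = false ∧ NI H u)
  have q1 := hp.qf_val
  have q2 := hp.nrm
  rw [tin_iff_Tin _ _ _ _ ht]
  have p0 : 0 ≤ (mt H σ true : ℝ) / t + um H σ true / (t + 1) := by positivity
  have q0 : 0 ≤ (mt H σ false : ℝ) / t + um H σ false / (t + 1) := by positivity
  generalize (mt H σ true : ℝ) / t + um H σ true / (t + 1) = p at *
  generalize (mt H σ false : ℝ) / t + um H σ false / (t + 1) = q at *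
  generalize (∑ u, if σ u = true ∧ NI H u then x u else 0) = A at *
  generalize (∑ u, if σ u = false ∧ NI H u then x u else 0) = B at *
  obtain ⟨P, hP⟩ : ∃ P, P = (t + 1) * wt x (fun u => σ u = true ∧ NI H u) -
    wt x (fun u => σ u = true ∧ Mt H σ u) := ⟨_, rfl⟩
  obtain ⟨Q, hQ⟩ : ∃ Q, Q = (t + 1) * wt x (fun u => σ u = false ∧ NI H u) -
    wt x (fun u => σ u = false ∧ Mt H σ u) := ⟨_, rfl⟩
  have e1 : (t + 1) * wt x (fun u => σ u = true ∧ NI H u) +
      (t + 1) * wt x (fun u => σ u = false ∧ NI H u) = (t + 1) * (2 * l - 1) := by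
    rw [← q2, a3]
    ring
  have e2 : t * wt x (fun u => σ u = true ∧ NI H u) +
      t * wt x (fun u => σ u = false ∧ NI H u) = t * (2 * l - 1) := by
    rw [← q2, a3]
    ring
  have f1 : P + Q ≤ 2 * (A * B) := by nlinarith [sq_nonneg (l - (t + 1))]
  have f2 : 0 ≤ P := by linarith
  have f3 : 0 ≤ Q := by linarith
  have f4 : 0 < P + Q := by
    have := mul_pos ht (show 0 < 2 * l - 1 by linarith)
    linarith
  rw [← hP] at c1
  rw [← hQ] at c2
  have f5 := mul_le_mul c1 c2 (sq_nonneg _) (mul_nonneg p0 f2)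
  have f6 := pow_le_pow_left₀ f4.le f1 2
  have f7 := mul_nonneg (mul_nonneg p0 q0) (sq_nonneg (P - Q))
  refine le_of_mul_le_mul_right ?_ (pow_pos f4 2)
  nlinarith

theorem lowS (hP : PerS) : LowS := by
  intro V _ G σ t hmu ht hT
  rw [tin_iff_Tin _ _ _ _ ht] at hT
  have hcross : ∀ u v, σ v = !σ u → NI G u → NI G v → G.Adj u v := by
    have key : ∀ u v, σ u = true → σ v = false → NI G u → NI G v → G.Adj u v := by
      intro u v h1 h2 h3 h4
      by_contra h
      rw [mu, card_eq_zero, filter_eq_empty_iff] at hmu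
      exact hmu (mem_univ (u, v)) ⟨h1, h2, h3, h4, h⟩
    intro u v h1 h3 h4
    cases e : σ u
    · exact (key v u (by rw [h1, e]; rfl) e h4 h3).symm
    · exact key u v e (by rw [h1, e]; rfl) h3 h4
  obtain ⟨z, hz⟩ : ∃ z : V → ℝ, ∀ u,
    z u = if Mt G σ u then 1 / t else if NI G u then 1 / (t + 1) else 0 := ⟨_, fun _ => rfl⟩
  have z0 : ∀ u, 0 ≤ z u := fun u => by
    rw [hz]
    split_ifs <;> positivity
  have z1 := pi_Tin (H := G) (σ := σ) true t
  have z2 := pi_Tin (H := G) (σ := σ) false t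
  simp only [← hz] at z1 z2
  have p0 : 0 ≤ (mt G σ true : ℝ) / t + um G σ true / (t + 1) := by positivity
  have q0 : 0 ≤ (mt G σ false : ℝ) / t + um G σ false / (t + 1) := by positivity
  generalize (mt G σ true : ℝ) / t + um G σ true / (t + 1) = p at *
  generalize (mt G σ false : ℝ) / t + um G σ false / (t + 1) = q at *
  have p1 : 0 < p := by
    rcases p0.eq_or_lt with h | h
    · rw [← h] at hT
      linarith
    · exact h
  obtain ⟨k, hk1, hk2⟩ : ∃ k : Bool → ℝ, k true = 1 ∧ k false = p :=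
    ⟨fun c => cond c 1 p, rfl, rfl⟩
  have k0 : ∀ c, 0 ≤ k c := fun c => by
    cases c
    · rwa [hk2]
    · rw [hk1]
      norm_num
  obtain ⟨y, hy⟩ : ∃ y : V → ℝ, ∀ u, y u = k (σ u) * z u := ⟨_, fun _ => rfl⟩
  have y0 : ∀ u, 0 ≤ y u := fun u => hy u ▸ mul_nonneg (k0 _) (z0 u)
  have y1 : ∀ u, ¬ NI G u → y u = 0 := fun u h => by
    rw [hy, hz, if_neg fun g : Mt G σ u => h (g.imp fun _ k => k.1), if_neg h, mul_zero]
  obtain ⟨S, hS⟩ : ∃ S : Bool → ℝ, ∀ c, S c = ∑ v, if σ v = c then y v else 0 :=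
    ⟨_, fun _ => rfl⟩
  have S0 : ∀ c, S c = k c * ∑ v, if σ v = c then z v else 0 := fun c => by
    rw [hS, mul_sum]
    refine sum_congr rfl fun v _ => ?_
    split_ifs with h
    · rw [hy, h]
    · simp
  have S1 : S true = p := by rw [S0, z1, hk1, one_mul]
  have S2 : S false = p * q := by rw [S0, z2, hk2]
  have split : ∀ f : Bool → ℝ, ∑ u, y u * f (σ u) = S true * f true + S false * f false := by
    intro f
    rw [hS, hS, sum_mul, sum_mul, ← sum_add_distrib]
    refine sum_congr rfl fun u _ => ?_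
    cases σ u <;> simp
  have a1 : ∀ u, y u * S (!σ u) + (if Mt G σ u then y u ^ 2 else 0) ≤ y u * ns G y u := by
    intro u
    by_cases hu : NI G u
    · have b1 : ∀ v, (if σ v = !σ u then y v else 0) ≤ if G.Adj u v then y v else 0 := by
        intro v
        by_cases h1 : σ v = !σ u
        · by_cases h2 : NI G v
          · rw [if_pos h1, if_pos (hcross u v h1 hu h2)]
          · simp [y1 v h2]
        · rw [if_neg h1]
          split_ifs
          · exact y0 v
          · exact le_rfl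
      by_cases hm : Mt G σ u
      · rw [if_pos hm, sq, ← mul_add]
        refine mul_le_mul_of_nonneg_left ?_ (y0 u)
        obtain ⟨w, w1, w2⟩ := id hm
        have b2 : y w = y u := by
          rw [hy, hy, hz, hz, w2, if_pos hm, if_pos ⟨u, w1.symm, w2.symm⟩]
        rw [hS, ns, ← add_sum_erase _ _ (mem_univ w), ← add_sum_erase _ _ (mem_univ w), if_pos w1,
          if_neg (by rw [w2]; simp), b2]
        have := sum_le_sum fun v (_ : v ∈ univ.erase w) => b1 v
        linarith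
      · rw [if_neg hm, add_zero, hS]
        exact mul_le_mul_of_nonneg_left (sum_le_sum fun v _ => b1 v) (y0 u)
    · simp [y1 u hu]
  have a2 : ∀ u, (t + 1) * y u ^ 2 = y u * k (σ u) + (if Mt G σ u then y u ^ 2 else 0) := by
    intro u
    rw [hy, hz]
    split_ifs
    · field_simp
    · field_simp
      ring
    · simp
  have a3 := sum_le_sum fun u (_ : u ∈ univ) => a1 u
  have a4 := sum_congr (rfl : univ = univ) fun u _ => a2 u
  rw [sum_add_distrib, split fun c => S (!c)] at a3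
  rw [sum_add_distrib, split k, ← mul_sum] at a4
  have a5 : 0 ≤ ∑ u, if Mt G σ u then y u ^ 2 else 0 :=
    sum_nonneg fun u _ => by split_ifs <;> positivity
  have a6 := (hP V G).2.1 y
  simp only [Bool.not_true, Bool.not_false, S1, S2, hk1, hk2] at a3 a4
  unfold qf nn at a6
  have a7 : 0 < ∑ u, y u ^ 2 := by
    refine (mul_pos_iff_of_pos_left (show 0 < t + 1 by positivity)).1 ?_
    have : 0 ≤ p * q * p := by positivity
    linarith
  refine le_of_mul_le_mul_right ?_ a7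
  have := mul_le_mul_of_nonneg_left hT p0
  nlinarith

end W5

end

section

/-! Arithmetic of the complete structures, first step. -/

namespace W5

open Finset
open scoped Classical

theorem key_Ari1 {p a2 q b2 : ℕ} {t : ℝ} (h : Tin (2 * p) a2 (2 * q) b2 t) :
    ((p : ℝ) + q) * (t * (t + 1)) - 4 * p * q * (t + 1) + a2 * b2 * t ≤
      dl p a2 q b2 t * (t * (t + 1)) := by
  unfold Tin at h
  unfold dl
  push_cast at h
  linarith

theorem edge_Ari1 {p a2 b2 : ℕ} {t d : ℝ} (ht : 10 ^ 6 ≤ t)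
    (hd : d = (2 * (p : ℝ) + a2) * b2 + p - t ^ 2 - t) (h1 : d ≤ 1)
    (hK : (p : ℝ) * (t * (t + 1)) + a2 * b2 * t ≤ d * (t * (t + 1))) :
    d = 1 ∧ p = 1 ∧ a2 = 0 := by
  have ht0 : 0 < t := by linarith
  have hT : 0 < t * (t + 1) := by positivity
  have hab : (0 : ℝ) ≤ a2 * b2 * t := by positivity
  rcases Nat.eq_zero_or_pos p with hp | hp
  · exfalso
    subst hp
    simp only [Nat.cast_zero, mul_zero, zero_add, add_zero, zero_mul] at hd hK
    have e : (a2 : ℝ) * b2 = d + t ^ 2 + t := by linarith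
    rw [e] at hK
    have h2 : t * (t * (t + 1)) ≤ t * (t * d) := by linarith
    have h3 := le_of_mul_le_mul_left (le_of_mul_le_mul_left h2 ht0) ht0
    linarith
  · have hp1 : (1 : ℝ) ≤ p := by exact_mod_cast hp
    have h2 : (p : ℝ) ≤ d := le_of_mul_le_mul_right (by linarith) hT
    have h3 : d = 1 := by linarith
    have h4 : (p : ℝ) = 1 := by linarith
    refine ⟨h3, by exact_mod_cast h4, ?_⟩
    rw [h3, h4] at hK
    have h5 : (a2 : ℝ) * b2 * t = 0 := by linarith
    rcases mul_eq_zero.1 h5 with h6 | h6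
    · rcases mul_eq_zero.1 h6 with h7 | h7
      · exact_mod_cast h7
      · rw [h7, h3, h4] at hd
        nlinarith
    · linarith

theorem main_Ari1 {p q a b t d g : ℝ} (ht : 10 ^ 6 ≤ t) (hp : 1 ≤ p) (hq : 1 ≤ q) (ha : 0 ≤ a)
    (hb : 0 ≤ b) (hk : a + b = 0 ∨ 1 ≤ a + b) (hg0 : 0 ≤ g) (hg : g ^ 2 = 4 * p * q)
    (hd : d = (2 * p + a) * (2 * q + b) + p + q - t ^ 2 - t) (h1 : d ≤ 1)
    (hK : (p + q) * t - g ^ 2 ≤ d * t) :
    (p - q) ^ 2 ≤ 2 * (p + q) * d ∧ 0.45 * (a + b) ≤ d ∧ p + q ≤ t + 2 ∧ 0.9 * t ≤ 2 * p ∧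
      0.9 * t ≤ 2 * q ∧ 2 * p + a ≤ 1.1 * t ∧ 2 * q + b ≤ 1.1 * t := by
  have ht0 : 0 < t := by linarith
  have hpq : 1 ≤ p * q := one_le_mul_of_one_le_of_one_le hp hq
  have hg2 : 2 ≤ g := le_of_sq_le_sq (by linarith) hg0
  have hgs : g ≤ p + q := le_of_sq_le_sq (by linarith [sq_nonneg (p - q)]) (by linarith)
  have hpb : 0 ≤ p * b := by positivity
  have hqa : 0 ≤ q * a := by positivity
  have hab : 0 ≤ a * b := by positivity
  have hd2 : g ^ 2 + 2 * (p * b) + 2 * (q * a) + (p + q) - t ^ 2 - t ≤ d := by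
    rw [hd, hg]; linarith
  have h2 : p + q - g ≤ d := by
    rcases le_total g t with h | h
    · refine le_of_mul_le_mul_right ?_ ht0
      linarith [mul_le_mul_of_nonneg_left h hg0]
    · linarith [mul_nonneg (sub_nonneg.2 h) (by linarith : 0 ≤ g + t)]
  have h3 : g * (t - g) ≤ d * t := by linarith [mul_le_mul_of_nonneg_right hgs ht0.le]
  have h4 : t - 2 < g := by
    by_contra h
    push Not at h
    linarith [mul_nonneg (sub_nonneg.2 hg2) (sub_nonneg.2 h), mul_le_mul_of_nonneg_right h1 ht0.le]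
  have h5 : g - 1 ≤ t := by
    by_contra h
    push Not at h
    linarith [mul_nonneg (by linarith : 0 ≤ g - 1 - t) (by linarith : 0 ≤ g + t)]
  have h6 : p + q ≤ t + 2 := by linarith
  have hd0 : 0 ≤ d := by linarith
  have h7 : (p - q) ^ 2 ≤ 2 * (p + q) * d := by
    have e : (p - q) ^ 2 = (p + q - g) * (p + q + g) := by linarith
    rw [e]
    have := mul_le_mul h2 (by linarith : p + q + g ≤ 2 * (p + q)) (by linarith) hd0
    linarith
  have h8 : (p - q) ^ 2 ≤ (0.002 * t) ^ 2 := by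
    have : 2 * (p + q) * d ≤ 2 * (t + 2) * 1 :=
      mul_le_mul (by linarith) h1 hd0 (by linarith)
    linarith [mul_le_mul_of_nonneg_right ht ht0.le]
  obtain ⟨h9, h10⟩ := abs_le_of_sq_le_sq' h8 (by positivity)
  have h11 : 0.99 * t ≤ 2 * p := by linarith
  have h12 : 0.99 * t ≤ 2 * q := by linarith
  have h13 : 0.45 * (a + b) ≤ d := by
    rcases hk with hk | hk
    · rw [hk]; linarith
    · have c1 := mul_le_mul_of_nonneg_right h11 hb
      have c2 := mul_le_mul_of_nonneg_right h12 ha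
      have c3 : 0.99 * (t * (a + b)) - 1 ≤ (t - g) * (t + g + 1) := by linarith
      have c4 : t ≤ t * (a + b) := le_mul_of_one_le_right ht0.le hk
      have c5 : g ≤ t := by
        by_contra h
        push Not at h
        linarith [mul_nonneg (sub_nonneg.2 h.le) (by linarith : 0 ≤ t + g + 1)]
      have c6 : (t - g) * (t + g + 1) ≤ (t - g) * (2.001 * t) :=
        mul_le_mul_of_nonneg_left (by linarith) (by linarith)
      have c7 : 0.49 * (a + b) * t ≤ (t - g) * t := by linarith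
      have c8 := le_of_mul_le_mul_right c7 ht0
      have c9 : 0.999 * t * (0.49 * (a + b)) ≤ g * (t - g) :=
        mul_le_mul (by linarith) c8 (by positivity) hg0
      refine le_of_mul_le_mul_right ?_ ht0
      linarith
  exact ⟨h7, h13, h6, by linarith, by linarith, by linarith, by linarith⟩

theorem ari1S : Ari1S := by
  intro p a2 q b2 t ht hT h1
  have hK := key_Ari1 hT
  have ht0 : 0 < t := by linarith
  rcases Nat.eq_zero_or_pos q with hq | hq
  · subst hq
    obtain ⟨h2, h3, h4⟩ := edge_Ari1 (p := p) (a2 := a2) (b2 := b2) ht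
      (d := dl p a2 0 b2 t) (by unfold dl; simp) h1 (by simpa using hK)
    exact Or.inl ⟨h2, Or.inl ⟨h3, h4, rfl⟩⟩
  rcases Nat.eq_zero_or_pos p with hp | hp
  · subst hp
    obtain ⟨h2, h3, h4⟩ := edge_Ari1 (p := q) (a2 := b2) (b2 := a2) ht
      (d := dl 0 a2 q b2 t) (by unfold dl; simp; ring) h1 (by
        simp only [Nat.cast_zero, zero_add, mul_zero, zero_mul, sub_zero] at hK
        linarith)
    exact Or.inl ⟨h2, Or.inr ⟨h3, h4, rfl⟩⟩
  right
  have hpq : (0 : ℝ) ≤ 4 * p * q := by positivity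
  refine main_Ari1 (g := √(4 * p * q)) ht (by exact_mod_cast hp) (by exact_mod_cast hq)
    (Nat.cast_nonneg _) (Nat.cast_nonneg _) ?_ (Real.sqrt_nonneg _) (Real.sq_sqrt hpq) rfl h1 ?_
  · rcases Nat.eq_zero_or_pos (a2 + b2) with h | h
    · left; exact_mod_cast h
    · right; exact_mod_cast h
  · rw [Real.sq_sqrt hpq]
    have : (0 : ℝ) ≤ a2 * b2 * t := by positivity
    refine le_of_mul_le_mul_right ?_ (by linarith : 0 < t + 1)
    linarith

end W5

end

section

namespace W5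

open Finset
open scoped Classical

lemma big_Ari3 (p q m : ℤ) (hp : 0 ≤ p) (hq : 0 ≤ q) (hm : 10 ^ 12 ≤ m)
    (h1 : m ≤ 4 * p * q + 4 * (p + q) + 1) (h2 : (p - q) ^ 2 ≤ 2 * (p + q) + 16) : 101 ≤ p := by
  by_contra hn
  have hp' : p ≤ 100 := by omega
  have hq' : q ≤ 1000 := by
    by_contra hq'
    have : 1000 < q := by omega
    nlinarith
  nlinarith

lemma up_Ari3 (t n u G : ℝ) (_ht : 0 < t) (hn : t ^ 2 + t = n) (hu : 0 < u) (hG : 0 ≤ G)
    (h : n * u ^ 2 ≤ G * (G + u)) : u * t ≤ G := by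
  by_contra hc
  push Not at hc
  have h1 : G * (G + u) < (u * t) * (u * t + u) :=
    mul_lt_mul'' hc (by linarith) hG (by linarith)
  have h2 : (u * t) * (u * t + u) = n * u ^ 2 := by rw [← hn]; ring
  linarith

lemma lo_Ari3 (t n K D : ℝ) (ht : 0 < t) (hn : t ^ 2 + t = n) (hD : 0 < D)
    (h : K * (K + D) ≤ n * D ^ 2) : K ≤ D * t := by
  by_contra hc
  push Not at hc
  have h0 : 0 < D * t := mul_pos hD ht
  have h1 : (D * t) * (D * t + D) < K * (K + D) :=
    mul_lt_mul'' hc (by linarith) h0.le (by linarith)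
  have h2 : (D * t) * (D * t + D) = n * D ^ 2 := by rw [← hn]; ring
  linarith

/-- reduction of the inequality when one side has no unmatched vertex -/
lemma tin0_Ari3 (p a q : ℕ) (t : ℝ) (ht : 0 < t) (hp : 1 ≤ p) (hq : 1 ≤ q)
    (hn : t ^ 2 + t = (2 * (p : ℝ) + a) * (2 * q) + p + q - 1)
    (h : (4 * (p : ℤ) * q + 2 * a * q + (p + q - 1)) * (p + q - 1) ^ 2
      ≤ 4 * p * q * (4 * p * q + (p + q - 1))) : Tin (2 * p) a (2 * q) 0 t := by
  have hp' : (1 : ℝ) ≤ p := by exact_mod_cast hp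
  have hq' : (1 : ℝ) ≤ q := by exact_mod_cast hq
  have h' : (4 * (p : ℝ) * q + 2 * a * q + (p + q - 1)) * (p + q - 1) ^ 2
      ≤ 4 * p * q * (4 * p * q + (p + q - 1)) := by exact_mod_cast h
  have h3 := up_Ari3 t (4 * (p : ℝ) * q + 2 * a * q + (p + q - 1)) (p + q - 1) (4 * p * q) ht
    (by linarith) (by linarith) (by positivity) h'
  unfold Tin
  push_cast
  have h4 : 0 ≤ (4 * (p : ℝ) * q - (p + q - 1) * t) * (t + 1) :=
    mul_nonneg (by linarith) (by linarith)
  have h5 : t ^ 2 * (t + 1) ^ 2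
      = (t ^ 2 + t) * ((2 * (p : ℝ) + a) * (2 * q) + p + q - 1) := by rw [← hn]; ring
  rw [h5]
  nlinarith

lemma tin1_Ari3 (p q : ℕ) (t : ℝ) (ht : 0 < t) (hp : 100 ≤ p) (hq : 100 ≤ q)
    (hn : t ^ 2 + t = (2 * (p : ℝ) + 1) * (2 * q + 1) + p + q - 1)
    (he : |(p : ℤ) - q| ≤ 1) : Tin (2 * p) 1 (2 * q) 1 t := by
  have hp' : (100 : ℝ) ≤ p := by exact_mod_cast hp
  have hq' : (100 : ℝ) ≤ q := by exact_mod_cast hq
  obtain ⟨u, hu⟩ : ∃ u : ℝ, u = p + q - 1 := ⟨_, rfl⟩
  obtain ⟨G, hG⟩ : ∃ G : ℝ, G = 4 * p * q := ⟨_, rfl⟩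
  have hu' : 3 ≤ u := by linarith
  have hn' : t ^ 2 + t = G + 3 * u + 3 := by rw [hn, hu, hG]; ring
  have hGu : G = (u + 1) ^ 2 ∨ G = (u + 1) ^ 2 - 1 := by
    have h1 : (p : ℤ) = q ∨ (p : ℤ) = q + 1 ∨ (q : ℤ) = p + 1 := by
      rw [abs_le] at he; omega
    rcases h1 with h | h | h
    · have : (p : ℝ) = q := by exact_mod_cast h
      left; rw [hu, hG, this]; ring
    · have : (p : ℝ) = q + 1 := by exact_mod_cast h
      right; rw [hu, hG, this]; ring
    · have : (q : ℝ) = p + 1 := by exact_mod_cast h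
      right; rw [hu, hG, this]; ring
  have h3 : (G + 3 * u + 3) * u - G ≤ (G - 1) * t := by
    refine lo_Ari3 t _ _ _ ht hn' (by rcases hGu with h | h <;> nlinarith) ?_
    obtain ⟨v, rfl⟩ : ∃ v : ℝ, u = v + 3 := ⟨u - 3, by ring⟩
    have hv : 0 ≤ v := by linarith
    rw [← sub_nonneg]
    rcases hGu with h | h
    · rw [h]; ring_nf; positivity
    · rw [h]; ring_nf; positivity
  unfold Tin
  push_cast
  have h5 : t ^ 2 * (t + 1) ^ 2 = (G + 3 * u + 3) ^ 2 := by rw [← hn']; ring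
  have h6 : ((2 * (p : ℝ) + 1) * t + 2 * p) * ((2 * q + 1) * t + 2 * q)
      = (G + 2 * u + 3) * (t ^ 2 + t) + G + (G - 1) * t := by rw [hu, hG]; ring
  rw [h5, h6, hn']
  nlinarith

lemma fam1_Ari3 (p q : ℤ) (hp : 100 ≤ p) (hq : 100 ≤ q)
    (h : (p - q) ^ 2 ≤ 2 * p ∨ ((p - q) ^ 2 = 2 * p + 1 ∧ p < q)) :
    (4 * p * q + 2 * 1 * q + (p + q - 1)) * (p + q - 1) ^ 2
      ≤ 4 * p * q * (4 * p * q + (p + q - 1)) := by
  obtain ⟨u, hu⟩ : ∃ u : ℤ, u = p + q - 1 := ⟨_, rfl⟩
  obtain ⟨e, he⟩ : ∃ e : ℤ, e = p - q := ⟨_, rfl⟩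
  obtain ⟨r, hr⟩ : ∃ r : ℤ, r = 2 * p - 1 - e ^ 2 := ⟨_, rfl⟩
  have key : 4 * p * q * (4 * p * q + (p + q - 1))
      - (4 * p * q + 2 * 1 * q + (p + q - 1)) * (p + q - 1) ^ 2
      = u ^ 2 * (r + 2) + 3 * u * (1 - e + r) + (1 - e + r) ^ 2 := by
    rw [hr, he, hu]; ring
  rw [← sub_nonneg, key]
  rw [← he] at h
  have hu0 : 0 ≤ u := by omega
  rcases h with h | ⟨h, h'⟩
  · have h1 : 0 ≤ r + 1 := by linarith
    have h2 : 3 * e ≤ u := by
      by_cases h50 : e ≤ 49
      · omega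
      · have : 4 * e + 1 ≤ e ^ 2 := by nlinarith
        omega
    have h3 : 0 ≤ u ^ 2 * (r + 1) := by positivity
    have h4 : 0 ≤ u * (r + 1) := by positivity
    have h5 : 0 ≤ u * (u - 3 * e) := mul_nonneg hu0 (by linarith)
    nlinarith [sq_nonneg (1 - e + r)]
  · have h1 : r = -2 := by linarith
    have h2 : 0 ≤ 1 - e + r := by omega
    have h3 : r + 2 = 0 := by linarith
    rw [h3]
    positivity

lemma fam2_Ari3 (p q : ℤ) (hq : 100 ≤ q) (h1 : q ≤ p + 1) (h2 : p ≤ q + 3) :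
    (4 * p * q + 2 * 2 * q + (p + q - 1)) * (p + q - 1) ^ 2
      ≤ 4 * p * q * (4 * p * q + (p + q - 1)) := by
  obtain ⟨v, rfl⟩ : ∃ v : ℤ, q = v + 100 := ⟨q - 100, by ring⟩
  have hv : 0 ≤ v := by omega
  have : p = v + 99 ∨ p = v + 100 ∨ p = v + 101 ∨ p = v + 102 ∨ p = v + 103 := by omega
  rw [← sub_nonneg]
  rcases this with h | h | h | h | h <;> (rw [h]; ring_nf; positivity)

lemma two_Ari3 (m p q : ℕ) (t : ℝ) (ht : 0 < t) (hn : t ^ 2 + t = m - 1) (hp : 101 ≤ p)
    (hq : 101 ≤ q) (hm : m + 1 = 4 * p * q + p + q) (h1 : q ≤ p) (h2 : p ≤ q + 4) :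
    ∃ p a2 q b2 : ℕ, m = (2 * p + a2) * (2 * q + b2) + p + q ∧ 100 ≤ p ∧ 100 ≤ q ∧ a2 + b2 ≤ 2 ∧
      Tin (2 * p) a2 (2 * q) b2 t := by
  obtain ⟨P, rfl⟩ : ∃ P, p = P + 1 := ⟨p - 1, by omega⟩
  have hm' : m = (2 * P + 2) * (2 * q + 0) + P + q := by nlinarith
  refine ⟨P, 2, q, 0, hm', by omega, by omega, le_rfl, ?_⟩
  refine tin0_Ari3 P 2 q t ht (by omega) (by omega) ?_ ?_
  · rw [hn, hm']; push_cast; ring
  · exact_mod_cast fam2_Ari3 P q (by omega) (by omega) (by omega)

theorem ari3S : Ari3S := by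
  rintro m t hm ⟨p, q, h⟩ ht hn
  have hm' : (10 : ℤ) ^ 12 ≤ m := by exact_mod_cast hm
  have hp0 : (0 : ℤ) ≤ p := Int.natCast_nonneg p
  have hq0 : (0 : ℤ) ≤ q := Int.natCast_nonneg q
  have hb : (m : ℤ) ≤ 4 * p * q + 4 * (p + q) + 1 ∧ ((p : ℤ) - q) ^ 2 ≤ 2 * (p + q) + 16 := by
    have hab : ∀ c : ℤ, |(p : ℤ) - q| ≤ c → c ≤ 4 → ((p : ℤ) - q) ^ 2 ≤ 2 * (p + q) + 16 := by
      intro c h1 h2
      rw [abs_le] at h1
      nlinarith
    rcases h with ⟨h1, h2⟩ | ⟨h1, h2⟩ | ⟨h1, h2⟩ | ⟨h1, h2⟩ | ⟨h1, h2⟩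
    · zify at h1; exact ⟨by linarith, by linarith⟩
    · zify at h1
      refine ⟨by linarith, ?_⟩
      rcases h2 with h2 | ⟨h2, _⟩ <;> linarith
    · zify at h1; exact ⟨by linarith, hab 4 h2 le_rfl⟩
    · zify at h1; exact ⟨by linarith, hab 1 h2 (by norm_num)⟩
    · zify at h1; exact ⟨by linarith, hab 1 h2 (by norm_num)⟩
  have hp : 101 ≤ p := by exact_mod_cast big_Ari3 p q m hp0 hq0 hm' hb.1 hb.2
  have hq : 101 ≤ q := by
    exact_mod_cast big_Ari3 q p m hq0 hp0 hm' (by linarith [hb.1]) (by linarith [hb.2])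
  rcases h with ⟨h1, h2⟩ | ⟨h1, h2⟩ | ⟨h1, h2⟩ | ⟨h1, h2⟩ | ⟨h1, h2⟩
  · refine Or.inl ⟨p, 0, q, 0, by rw [h1]; ring, by omega, by omega, by omega, ?_⟩
    refine tin0_Ari3 p 0 q t ht (by omega) (by omega) ?_ ?_
    · rw [hn, h1]; push_cast; ring
    · have h3 : ((p : ℤ) + q - 1) ^ 2 ≤ 4 * p * q := by linarith
      have h4 : (0 : ℤ) ≤ 4 * p * q + (p + q - 1) := by
        have : (0 : ℤ) ≤ p * q := by positivity
        have : (101 : ℤ) ≤ p := by exact_mod_cast hp
        linarith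
      have := mul_le_mul_of_nonneg_left h3 h4
      push_cast
      linarith
  · refine Or.inl ⟨p, 1, q, 0, by rw [h1]; ring, by omega, by omega, by omega, ?_⟩
    refine tin0_Ari3 p 1 q t ht (by omega) (by omega) ?_ ?_
    · rw [hn, h1]; push_cast; ring
    · refine fam1_Ari3 p q (by omega) (by omega) ?_
      rcases h2 with h2 | ⟨h2, h3⟩
      · exact Or.inl h2
      · exact Or.inr ⟨h2, by exact_mod_cast h3⟩
  · rw [abs_le] at h2
    rcases le_total q p with h3 | h3
    · exact Or.inl (two_Ari3 m p q t ht hn hp hq h1 h3 (by omega))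
    · exact Or.inl (two_Ari3 m q p t ht hn hq hp (by rw [h1]; ring) h3 (by omega))
  · refine Or.inl ⟨p, 1, q, 1, h1, by omega, by omega, le_rfl, ?_⟩
    refine tin1_Ari3 p q t ht (by omega) (by omega) ?_ h2
    rw [hn, h1]; push_cast; ring
  · rw [abs_le] at h2
    rcases le_total p q with h3 | h3
    · exact Or.inr ⟨p, q, h1, by omega, by omega⟩
    · exact Or.inr ⟨q, p, by rw [h1]; ring, by omega, by omega⟩

end W5

end

section

/-! Weight of a single missing cross pair. -/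

namespace W5

open Finset
open scoped Classical

section
variable {V : Type} [Fintype V]

theorem side_Mu {H : SimpleGraph V} {l : ℝ} {x : V → ℝ} {σ : V → Bool} (hP : Per H l x)
    (hl : 0 < l) (hσ : Par H σ) (c : Bool) (hu : um H σ c = 0) (p : V)
    (hp : ∀ w z, σ w = c → σ z = !c → NI H w → NI H z → ¬ H.Adj w z → z = p) {w : V}
    (hw : NI H w) (hc : σ w = c) : ∃ w', NI H w' ∧ σ w' = c ∧
      l * x w ≤ x w' + (∑ z, if σ z = !c then x z else 0) ∧
      x w' + (∑ z, if σ z = !c then x z else 0) - x p ≤ l * x w := by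
  have hm : Mt H σ w := by
    by_contra h
    unfold um at hu
    rw [card_eq_zero, filter_eq_empty_iff] at hu
    exact hu (mem_univ w) ⟨hc, hw, h⟩
  obtain ⟨w', h1, h2⟩ := hm
  have e : ∀ a : V, x a = ∑ z, if z = a then x z else 0 := fun a => by
    rw [sum_ite_eq']; simp
  refine ⟨w', ⟨w, h1.symm⟩, h2.trans hc, ?_, ?_⟩
  · rw [← hP.eig w, e w', ← sum_add_distrib]
    refine sum_le_sum fun z _ => ?_
    have := hP.pos z
    by_cases ha : H.Adj w z
    · rw [if_pos ha]
      by_cases hz : σ z = σ w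
      · rw [if_pos (hσ w z w' ha h1 hz h2)]
        split_ifs <;> linarith
      · have : σ z = !c := by
          rw [hc] at hz
          exact Bool.eq_not_iff.2 hz
        rw [if_pos this]
        split_ifs <;> linarith
    · rw [if_neg ha]
      split_ifs <;> linarith
  · rw [← hP.eig w, e w', e p, ← sum_add_distrib, ← sum_sub_distrib]
    refine sum_le_sum fun z _ => ?_
    have := hP.pos z
    by_cases hz : z = w'
    · subst hz
      have h3 : ¬ σ z = !c := by rw [h2, hc]; simp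
      rw [if_pos rfl, if_neg h3, if_pos h1]
      split_ifs <;> linarith
    · rw [if_neg hz]
      by_cases ha : H.Adj w z
      · rw [if_pos ha]
        split_ifs <;> linarith
      · rw [if_neg ha]
        by_cases h3 : σ z = !c
        · by_cases h4 : NI H z
          · rw [if_pos h3, if_pos (hp w z hc h3 hw h4 ha)]
            linarith
          · rw [hP.zero hl h4]
            simp
        · rw [if_neg h3]
          split_ifs <;> linarith

theorem ext_Mu {H : SimpleGraph V} {l : ℝ} {x : V → ℝ} {σ : V → Bool} (hP : Per H l x)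
    (hl1 : 1 ≤ l) (hσ : Par H σ) (c : Bool) (hu : um H σ c = 0) (p r : V)
    (hp : ∀ w z, σ w = c → σ z = !c → NI H w → NI H z → ¬ H.Adj w z → z = p)
    (hr : NI H r) (hrc : σ r = c) : ∃ a, x r ≤ x a ∧
      (l - 1) * x a ≤ (∑ z, if σ z = !c then x z else 0) ∧
      (∑ z, if σ z = !c then x z else 0) - x p ≤ (l - 1) * x r ∧
      wt x (fun z => σ z = c) ≤ x a * ∑ z, if σ z = c then x z else 0 := by
  have hl : 0 < l := by linarith
  have hne : (univ.filter fun z => NI H z ∧ σ z = c).Nonempty := ⟨r, by simp [hr, hrc]⟩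
  obtain ⟨a, ha, hmax⟩ := exists_max_image _ x hne
  obtain ⟨b, hb, hmin⟩ := exists_min_image _ x hne
  simp only [mem_filter, mem_univ, true_and] at ha hb hmax hmin
  obtain ⟨a', h1, h2, h3, -⟩ := side_Mu hP hl hσ c hu p hp ha.1 ha.2
  obtain ⟨b', h4, h5, -, h6⟩ := side_Mu hP hl hσ c hu p hp hb.1 hb.2
  have h7 := hmax a' ⟨h1, h2⟩
  have h8 := hmin b' ⟨h4, h5⟩
  have h9 := hmin r ⟨hr, hrc⟩
  refine ⟨a, hmax r ⟨hr, hrc⟩, by linarith, ?_, ?_⟩
  · have := mul_le_mul_of_nonneg_left h9 (sub_nonneg.2 hl1)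
    linarith
  · unfold wt
    rw [mul_sum]
    refine sum_le_sum fun z _ => ?_
    by_cases hz : σ z = c
    · rw [if_pos hz, if_pos hz]
      by_cases h : NI H z
      · rw [sq]
        exact mul_le_mul_of_nonneg_right (hmax z ⟨h, hz⟩) (hP.pos z)
      · rw [hP.zero hl h]; simp
    · rw [if_neg hz, if_neg hz, mul_zero]

end

theorem ari_Mu {T a b p r : ℝ} (hT : 999999 ≤ T) (ha : 0 ≤ a) (hb : 0 ≤ b) (ha2 : a ^ 2 ≤ 2)
    (hb2 : b ^ 2 ≤ 2) (h1 : T * a - b ≤ T * p) (h2 : T * b - a ≤ T * r)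
    (h3 : 2 * T + 1 ≤ a * (T * b + a) + b * (T * a + b)) : 2 - 11 / T ≤ 2 * p * r := by
  have hT0 : 0 < T := by linarith
  have h4 : 2 * T - 3 ≤ 2 * T * (a * b) := by nlinarith
  have ha3 : a ≤ 1.5 := by nlinarith
  have hb3 : b ≤ 1.5 := by nlinarith
  have h5 : 0.9 ≤ a * b := by
    by_contra h
    push Not at h
    nlinarith
  have ha4 : 0.6 ≤ a := by nlinarith
  have hb4 : 0.6 ≤ b := by nlinarith
  have h6 : 0 ≤ T * a - b := by nlinarith
  have h7 : 0 ≤ T * b - a := by nlinarith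
  have h8 : (T * a - b) * (T * b - a) ≤ T * p * (T * r) :=
    mul_le_mul h1 h2 h7 (h6.trans h1)
  have h9 : T * (2 * T - 11) ≤ T * (T * (2 * p * r)) := by
    have := mul_le_mul_of_nonneg_left h4 hT0.le
    have := mul_le_mul_of_nonneg_left (add_le_add ha2 hb2) hT0.le
    nlinarith
  have h10 := le_of_mul_le_mul_left h9 hT0
  have e : 2 - 11 / T = (2 * T - 11) / T := by field_simp
  rw [e, div_le_iff₀ hT0]
  linarith

theorem muS : MuS := by
  intro V _ H l x σ hP hl hσ hu1 hu2 hmu hx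
  have hl1 : 1 ≤ l := le_trans (by norm_num) hl
  unfold mu at hmu
  obtain ⟨⟨u, v⟩, he⟩ := card_eq_one.1 hmu
  have hm : ∀ a b, Ms H σ a b ↔ (a, b) = (u, v) := by
    intro a b
    rw [← mem_singleton, ← he]
    simp
  have huv := (hm u v).2 rfl
  obtain ⟨a, a1, a2, a3, a4⟩ := ext_Mu hP hl1 hσ true hu1 v u
    (fun w z h1 h2 h3 h4 h5 => (Prod.ext_iff.1 ((hm w z).1 ⟨h1, h2, h3, h4, h5⟩)).2)
    huv.2.2.1 huv.1
  obtain ⟨b, b1, b2, b3, b4⟩ := ext_Mu hP hl1 hσ false hu2 u v
    (fun w z h1 h2 h3 h4 h5 =>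
      (Prod.ext_iff.1 ((hm z w).1 ⟨h2, h1, h4, h3, fun h => h5 h.symm⟩)).1)
    huv.2.2.2.1 huv.2.1
  simp only [Bool.not_true, Bool.not_false] at a2 a3 b2 b3
  have hT : 0 ≤ l - 1 := by linarith
  have c1 := mul_le_mul_of_nonneg_left a1 hT
  have c2 := mul_le_mul_of_nonneg_left b1 hT
  have c3 := wt_compl x (fun z => σ z = true)
  have c4 : wt x (fun z => ¬ σ z = true) ≤ wt x (fun z => σ z = false) :=
    wt_mono x fun z hz => by simpa using hz
  have c5 : (∑ z, if σ z = true then x z else 0) ≤ (l - 1) * x b + x a := by linarith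
  have c6 : (∑ z, if σ z = false then x z else 0) ≤ (l - 1) * x a + x b := by linarith
  have c7 := mul_le_mul_of_nonneg_left c5 (hP.pos a)
  have c8 := mul_le_mul_of_nonneg_left c6 (hP.pos b)
  have c9 := hP.nrm
  have h1 := ari_Mu (T := l - 1) (a := x a) (b := x b) (p := x u) (r := x v) (by linarith)
    (hP.pos a) (hP.pos b) (hx a) (hx b) (by linarith) (by linarith) (by linarith)
  refine h1.trans ?_
  have h0 : ∀ s t, 0 ≤ if Ms H σ s t then 2 * x s * x t else 0 := fun s t => by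
    have := hP.pos s
    have := hP.pos t
    split_ifs <;> positivity
  have h2 := single_le_sum (f := fun t => if Ms H σ u t then 2 * x u * x t else 0)
    (fun t _ => h0 u t) (mem_univ v)
  rw [if_pos huv] at h2
  exact h2.trans (single_le_sum (f := fun s => ∑ t, if Ms H σ s t then 2 * x s * x t else 0)
    (fun s _ => sum_nonneg fun t _ => h0 s t) (mem_univ u))

end W5

end

section

/-! The effect of the edges outside the core. -/

namespace W5

open Finset
open scoped Classical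

section
variable {V : Type} [Fintype V]

theorem two_Nu {G : SimpleGraph V} {L : ℝ} {y : V → ℝ} (hP : Per G L y) (hL : 0 < L) {u : V}
    (hd : dg G u ≤ 2 * L) : y u ≤ 2 := by
  have h1 := ns_sq_le G y u
  rw [hP.eig] at h1
  have h2 : wt y (G.Adj u) ≤ 2 * L := (wt_le_nn _ _).trans (by rw [hP.nrm]; linarith)
  have h3 : dg G u * wt y (G.Adj u) ≤ 2 * L * (2 * L) :=
    mul_le_mul hd h2 (wt_nonneg _ _) (by positivity)
  have h4 : L * y u ≤ L * 2 := le_of_sq_le_sq (by nlinarith) (by positivity)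
  exact le_of_mul_le_mul_left h4 hL

theorem dg_zero_Nu {H : SimpleGraph V} {w : V} (hw : ¬ NI H w) : dg H w = 0 :=
  sum_eq_zero fun v _ => if_neg fun h => hw ⟨v, h⟩

theorem side_Nu {G H : SimpleGraph V} {L : ℝ} {y : V → ℝ} (hP : Per G L y) (hL : 1 ≤ L)
    (hle : ∀ u v, H.Adj u v → G.Adj u v) (σ : V → Bool) (c : Bool)
    (he : ∀ z, σ z = !c → NI H z → ns G y z = ns H y z)
    (ho : (∑ u, ∑ v, if H.Adj u v ∧ σ u = !c ∧ σ v = !c then y u * y v else 0) ≤
      wt y (fun u => σ u = !c ∧ Mt H σ u)) : wt y (fun z => σ z = !c ∧ NI H z) ≤ L := by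
  have hp := hP.pos
  have h1 : L * wt y (fun z => σ z = !c ∧ NI H z) ≤
      (∑ u, ∑ v, if H.Adj u v ∧ σ u = !c ∧ σ v = !c then y u * y v else 0) +
      ∑ u, ∑ v, if G.Adj v u ∧ σ v = c then y v * y u else 0 := by
    unfold wt
    rw [mul_sum, ← sum_add_distrib]
    refine sum_le_sum fun z _ => ?_
    rw [← sum_add_distrib]
    by_cases hz : σ z = !c ∧ NI H z
    · have e : L * y z ^ 2 = ∑ v, if H.Adj z v then y z * y v else 0 := by
        rw [sq, ← mul_assoc, ← hP.eig, he z hz.1 hz.2, mul_comm]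
        unfold ns
        rw [mul_sum]
        exact sum_congr rfl fun v _ => by split_ifs <;> simp
      rw [if_pos hz, e]
      refine sum_le_sum fun v _ => ?_
      have a1 := mul_nonneg (hp z) (hp v)
      have a2 := mul_comm (y z) (y v)
      by_cases h : H.Adj z v
      · rw [if_pos h]
        by_cases h2 : σ v = c
        · rw [if_pos (⟨hle _ _ h.symm, h2⟩ : G.Adj v z ∧ σ v = c)]
          split_ifs <;> linarith
        · rw [if_pos (⟨h, hz.1, Bool.eq_not_iff.2 h2⟩ : H.Adj z v ∧ σ z = !c ∧ σ v = !c)]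
          split_ifs <;> linarith
      · rw [if_neg h]
        split_ifs <;> linarith
    · rw [if_neg hz, mul_zero]
      refine sum_nonneg fun v _ => ?_
      have a1 := mul_nonneg (hp z) (hp v)
      have a2 := mul_comm (y z) (y v)
      split_ifs <;> linarith
  have h2 : (∑ u, ∑ v, if G.Adj v u ∧ σ v = c then y v * y u else 0) =
      L * wt y (fun z => σ z = c) := by
    rw [sum_comm]
    unfold wt
    rw [mul_sum]
    refine sum_congr rfl fun v _ => ?_
    by_cases h : σ v = c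
    · rw [if_pos h, sq, ← mul_assoc, ← hP.eig, mul_comm]
      unfold ns
      rw [mul_sum]
      refine sum_congr rfl fun u _ => ?_
      by_cases h2 : G.Adj v u <;> simp [h, h2]
    · simp [h]
  have h3 : wt y (fun u => σ u = !c ∧ Mt H σ u) ≤ wt y (fun z => σ z = !c ∧ NI H z) :=
    wt_mono y fun u hu => ⟨hu.1, by obtain ⟨v, hv, -⟩ := hu.2; exact ⟨v, hv⟩⟩
  have h4 := wt_compl y (fun z => σ z = c)
  have h5 : wt y (fun z => σ z = !c ∧ NI H z) ≤ wt y (fun z => ¬ σ z = c) :=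
    wt_mono y fun z hz => Bool.eq_not_iff.1 hz.1
  rw [hP.nrm] at h4
  have h6 : (2 * L - 1) * wt y (fun z => σ z = !c ∧ NI H z) ≤ (2 * L - 1) * L := by
    have h7 : L * wt y (fun z => σ z = c) ≤
        L * (2 * L - 1 - wt y (fun z => σ z = !c ∧ NI H z)) :=
      mul_le_mul_of_nonneg_left (by linarith) (by linarith)
    linarith
  exact le_of_mul_le_mul_left h6 (by linarith)

theorem cs_Nu (H : SimpleGraph V) (σ : V → Bool) (c : Bool) (y : V → ℝ) :
    (∑ z, if σ z = c ∧ NI H z then y z else 0) ^ 2 ≤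
      ((mt H σ c : ℝ) + um H σ c) * wt y (fun z => σ z = c ∧ NI H z) := by
  have h := sum_mul_sq_le_sq_mul_sq univ (fun v => if σ v = c ∧ NI H v then (1 : ℝ) else 0)
    (fun v => if σ v = c ∧ NI H v then y v else 0)
  have e1 : (∑ z, if σ z = c ∧ NI H z then y z else 0) = ∑ v,
      (if σ v = c ∧ NI H v then (1 : ℝ) else 0) * (if σ v = c ∧ NI H v then y v else 0) :=
    sum_congr rfl fun v _ => by split_ifs <;> simp
  have e2 : (mt H σ c : ℝ) + um H σ c = ∑ v, (if σ v = c ∧ NI H v then (1 : ℝ) else 0) ^ 2 := by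
    unfold mt um
    rw [← sum_boole, ← sum_boole, ← sum_add_distrib]
    refine sum_congr rfl fun v _ => ?_
    by_cases h1 : Mt H σ v
    · have h2 : NI H v := by obtain ⟨z, hz, -⟩ := h1; exact ⟨z, hz⟩
      by_cases h3 : σ v = c <;> simp [h1, h2, h3]
    · by_cases h2 : NI H v <;> by_cases h3 : σ v = c <;> simp [h1, h2, h3]
  have e3 : wt y (fun z => σ z = c ∧ NI H z) =
      ∑ v, (if σ v = c ∧ NI H v then y v else 0) ^ 2 :=
    sum_congr rfl fun v _ => by split_ifs <;> simp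
  rw [e1, e2, e3]; exact h

theorem own_Nu {H : SimpleGraph V} {σ : V → Bool} (hσ : Par H σ) {y : V → ℝ} (hp : ∀ u, 0 ≤ y u)
    (h2 : ∀ u, y u ≤ 2) (p : V) :
    ns H y p ≤ (∑ z, if σ z = !σ p ∧ NI H z then y z else 0) + 2 := by
  obtain ⟨q, hq⟩ : ∃ q, ∀ z, H.Adj p z → σ z = σ p → z = q := by
    by_cases h : Mt H σ p
    · obtain ⟨q, h1, h3⟩ := h
      exact ⟨q, fun z h4 h5 => hσ p z q h4 h1 h5 h3⟩
    · exact ⟨p, fun z h4 h5 => absurd ⟨z, h4, h5⟩ h⟩
  have e : y q = ∑ z, if z = q then y z else 0 := by rw [sum_ite_eq']; simp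
  refine le_trans ?_ (add_le_add le_rfl (h2 q))
  rw [e, ← sum_add_distrib]
  refine sum_le_sum fun z _ => ?_
  have := hp z
  by_cases h : H.Adj p z
  · rw [if_pos h]
    by_cases h3 : σ z = σ p
    · rw [if_pos (hq z h h3)]
      split_ifs <;> linarith
    · rw [if_pos (⟨Bool.eq_not_iff.2 h3, p, h.symm⟩ : σ z = !σ p ∧ NI H z)]
      split_ifs <;> linarith
  · rw [if_neg h]
    split_ifs <;> linarith

end

theorem nu1S : Nu1S := by
  intro V _ G H L l y hle hP hr hL hν hd hx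
  have hL0 : (0 : ℝ) < L := lt_of_lt_of_le (by norm_num) hL
  have hp := hP.pos
  have hE : (∑ u, ∑ v, if G.Adj u v ∧ ¬ H.Adj u v then (1 : ℝ) else 0) = 2 * (ed G - ed H) := by
    rw [mul_sub, two_ed, two_ed, ← sum_sub_distrib]
    refine sum_congr rfl fun u _ => ?_
    rw [← sum_sub_distrib]
    refine sum_congr rfl fun v _ => ?_
    by_cases h : H.Adj u v
    · simp [h, hle h]
    · simp [h]
  have hdg : ∀ u, dg G u ≤ dg H u + 2 * (ed G - ed H) := by
    intro u
    have h1 := single_le_sum (f := fun u => ∑ v, if G.Adj u v ∧ ¬ H.Adj u v then (1 : ℝ) else 0)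
      (fun u _ => sum_nonneg fun v _ => by split_ifs <;> norm_num) (mem_univ u)
    rw [hE] at h1
    refine le_trans ?_ (add_le_add le_rfl h1)
    unfold dg ns
    rw [← sum_add_distrib]
    refine sum_le_sum fun v _ => ?_
    by_cases h : H.Adj u v <;> by_cases h2 : G.Adj u v <;> simp [h, h2]
  have h2 : ∀ u, y u ≤ 2 := fun u => two_Nu hP hL0 (by linarith [hdg u, hd u])
  have h3 : ∀ w, ¬ NI H w → y w ≤ 0.025 := by
    intro w hw
    have h4 := hdg w
    rw [dg_zero_Nu hw] at h4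
    have h5 : L * y w ≤ dg G w * 2 := by
      rw [← hP.eig]
      unfold dg ns
      rw [sum_mul]
      refine sum_le_sum fun v _ => ?_
      have := h2 v
      split_ifs <;> linarith
    have h6 := mul_le_mul_of_nonneg_right hL (hp w)
    linarith
  have h4 : qf G y ≤ qf H y + 0.05 * (2 * (ed G - ed H)) := by
    rw [← hE, qf_eq, qf_eq, mul_sum, ← sum_add_distrib]
    refine sum_le_sum fun u _ => ?_
    rw [mul_sum, ← sum_add_distrib]
    refine sum_le_sum fun v _ => ?_
    by_cases h : H.Adj u v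
    · simp [h, hle h]
    · by_cases h5 : G.Adj u v
      · rw [if_pos h5, if_neg h, if_pos ⟨h5, h⟩]
        have a1 := hp u
        have a2 := hp v
        have a3 := h2 u
        have a4 := h2 v
        rcases hx u v h5 h with h6 | h6
        · have := h3 u h6
          nlinarith
        · have := h3 v h6
          nlinarith
      · simp [h, h5]
  have h5 := ray_F hr y
  rw [hP.nrm] at h5
  rw [hP.qf_val] at h4
  linarith

theorem nu2S (hO : OpS) (hC : CntS) : Nu2S := by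
  intro V _ G H L l y σ p w hP hr hL hσ hpw hw hG hs
  have hL0 : (0 : ℝ) < L := lt_of_lt_of_le (by norm_num) hL
  have hp := hP.pos
  have hw1 : ∀ v, ¬ H.Adj w v := fun v h => hw ⟨v, h⟩
  have hw2 : ∀ v, ¬ H.Adj v w := fun v h => hw ⟨v, h.symm⟩
  have hns : ∀ (f : V → ℝ) (u : V), ns G f u =
      ns H f u + (if u = p then f w else 0) + if u = w then f p else 0 := by
    intro f u
    have e1 : (if u = p then f w else 0) = ∑ v, if v = w then (if u = p then f v else 0) else 0 := by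
      rw [sum_ite_eq']; simp
    have e2 : (if u = w then f p else 0) = ∑ v, if v = p then (if u = w then f v else 0) else 0 := by
      rw [sum_ite_eq']; simp
    rw [e1, e2]
    unfold ns
    rw [← sum_add_distrib, ← sum_add_distrib]
    refine sum_congr rfl fun v _ => ?_
    by_cases h1 : u = w
    · subst h1
      by_cases h2 : v = p <;> simp [hG, hw1, h2, hpw.symm]
    · by_cases h2 : v = w
      · subst h2
        by_cases h3 : u = p <;> simp [hG, hw2, h3, h1, hpw]
      · simp [hG, h1, h2]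
  have hz : ∀ (f : V → ℝ) (u : V), ¬ NI H u → ns H f u = 0 :=
    fun f u hu => sum_eq_zero fun v _ => if_neg fun h => hu ⟨v, h⟩
  have hyw : L * y w = y p := by
    rw [← hP.eig, hns, hz y w hw, if_neg hpw.symm, if_pos rfl]; ring
  obtain ⟨-, -, hd, ho⟩ := hC V H σ hσ
  have h2 : ∀ u, y u ≤ 2 := by
    intro u
    refine two_Nu hP hL0 ?_
    have h1 : dg G u = dg H u + (if u = p then 1 else 0) + if u = w then 1 else 0 :=
      hns (fun _ => 1) u
    have h3 := hd u
    have h4 := hs (!σ u)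
    rw [h1]
    split_ifs <;> linarith
  have hyp : y p ≤ 1.08 := by
    have h1 := hns y p
    rw [hP.eig, if_pos rfl, if_neg hpw] at h1
    have h3 := own_Nu hσ hp h2 p
    have h4 := side_Nu hP (by linarith) (fun u v h => (hG u v).2 (Or.inl h)) σ (σ p)
      (fun z h5 h6 => by
        have h7 : z ≠ p := by
          rintro rfl
          simp at h5
        have h8 : z ≠ w := by
          rintro rfl
          exact hw h6
        rw [hns, if_neg h7, if_neg h8]; ring) (ho y (!σ p))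
    have h5 := (cs_Nu H σ (!σ p) y).trans
      (mul_le_mul (hs (!σ p)) h4 (wt_nonneg _ _) (by positivity))
    have h6 : (∑ z, if σ z = !σ p ∧ NI H z then y z else 0) ≤ 1.073 * L :=
      le_of_sq_le_sq (h5.trans (by nlinarith)) (by positivity)
    have h7 : L * y p ≤ L * 1.08 := by linarith [h2 w]
    exact le_of_mul_le_mul_left h7 hL0
  obtain ⟨-, hO2, hO3⟩ := hO V G
  have h3 := (hO2 H w (fun u v => by
    constructor
    · intro h
      exact ⟨(hG u v).2 (Or.inl h), fun e => hw1 v (e ▸ h), fun e => hw2 u (e ▸ h)⟩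
    · rintro ⟨h, h4, h5⟩
      rcases (hG u v).1 h with h6 | h6 | h6
      · exact h6
      · exact absurd h6.2 h5
      · exact absurd h6.1 h4)).1 y
  have h4 := ray_F hr (Function.update y w 0)
  rw [h3, hO3, hP.qf_val, hP.nrm, hP.eig] at h4
  have h5 : L * y w ≤ 1.08 := hyw ▸ hyp
  have h6 := hp w
  have h7 : y w ≤ 0.01 := by nlinarith
  have h8 : (L * y w) ^ 2 ≤ 1.08 ^ 2 := pow_le_pow_left₀ (by positivity) h5 2
  have h9 : y w ^ 3 ≤ 0.01 ^ 3 := pow_le_pow_left₀ h6 h7 3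
  have h10 : L * y w * y w ^ 3 ≤ 1.08 * 0.01 ^ 3 := mul_le_mul h5 h9 (by positivity) (by norm_num)
  have h11 : L * y w ^ 2 + y w ^ 4 / 4 ≤ 1.4 / L := by
    rw [le_div_iff₀ hL0]
    nlinarith
  nlinarith

end W5

end

section

namespace W5

open Finset
open scoped Classical

theorem bookS (hP : PerS) : BookS := by
  intro V _ G
  refine ⟨fun σ c hni hmu h1 h2 h3 => ?_, fun s θ ⟨φ⟩ h0 hθ => ⟨?_, ?_⟩⟩
  · have hcross : ∀ u v, σ u = c → ¬ σ v = c → G.Adj u v := by
      have key : ∀ u v, σ u = true → σ v = false → G.Adj u v := by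
        intro u v g1 g2
        by_contra h
        rw [mu, card_eq_zero, filter_eq_empty_iff] at hmu
        exact hmu (mem_univ (u, v)) ⟨g1, g2, hni u, hni v, h⟩
      intro u v g1 g2
      cases c
      · exact (key v u (by simpa using g2) g1).symm
      · exact key u v g1 (by simpa using g2)
    have m1 : ∀ u, σ u = c → Mt G σ u := by
      intro u hu
      by_contra h
      rw [um, card_eq_zero, filter_eq_empty_iff] at h2
      exact h2 (mem_univ u) ⟨hu, hni u, h⟩
    have m2 : ∀ u, ¬ σ u = c → ¬ Mt G σ u := by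
      intro u hu h
      rw [mt, card_eq_zero, filter_eq_empty_iff] at h3
      exact h3 (mem_univ u) ⟨Bool.eq_not_of_ne hu, h⟩
    have c1 : Fintype.card {u // σ u = c} = 2 := by
      rw [Fintype.card_subtype, ← h1, mt]
      exact congrArg card (filter_congr fun u _ => ⟨fun h => ⟨h, m1 u h⟩, fun h => h.1⟩)
    have c2 : Fintype.card {u // ¬ σ u = c} = um G σ (!c) := by
      rw [Fintype.card_subtype, um]
      exact congrArg card (filter_congr fun u _ =>
        ⟨fun h => ⟨Bool.eq_not_of_ne h, hni u, m2 u h⟩, fun h => by simp [h.1]⟩)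
    obtain ⟨e₁⟩ : Nonempty (Fin 2 ≃ {u // σ u = c}) := ⟨(Fintype.equivFinOfCardEq c1).symm⟩
    obtain ⟨e₂⟩ : Nonempty (Fin (um G σ (!c)) ≃ {u // ¬ σ u = c}) :=
      ⟨(Fintype.equivFinOfCardEq c2).symm⟩
    refine ⟨SimpleGraph.Iso.symm
      ⟨(e₁.sumCongr e₂).trans (Equiv.sumCompl fun u => σ u = c), ?_⟩⟩
    rintro (i | i) (j | j)
    · show G.Adj (e₁ i).1 (e₁ j).1 ↔ i ≠ j
      refine ⟨fun h e => h.ne (by rw [e]), fun h => ?_⟩
      obtain ⟨w, w1, w2⟩ := m1 _ (e₁ i).2
      obtain ⟨k, hk⟩ := e₁.surjective ⟨w, w2.trans (e₁ i).2⟩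
      have hw : (e₁ k).1 = w := congrArg Subtype.val hk
      have hik : i ≠ k := fun e => w1.ne (by rw [e, hw])
      obtain rfl : j = k := by omega
      rwa [hw]
    · exact iff_of_true (hcross _ _ (e₁ i).2 (e₂ j).2) trivial
    · exact iff_of_true (hcross _ _ (e₁ j).2 (e₂ i).2).symm trivial
    · refine iff_of_false (fun h => m2 _ (e₂ i).2 ⟨_, h, ?_⟩) fun h => h
      have g1 := (e₂ i).2
      have g2 := (e₂ j).2
      exact (Bool.eq_not_of_ne g2).trans (Bool.eq_not_of_ne g1).symm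
  · obtain ⟨z, z1, z2⟩ : ∃ z : Fin 2 ⊕ Fin s → ℝ, (∀ i, z (.inl i) = θ) ∧ ∀ i, z (.inr i) = 2 :=
      ⟨Sum.elim (fun _ => θ) fun _ => 2, fun _ => rfl, fun _ => rfl⟩
    have a1 : qf G (fun v => z (φ v)) = 2 * θ ^ 2 + 8 * s * θ := by
      have : qf G (fun v => z (φ v)) =
          ∑ a, ∑ b, if (split 2 s).Adj a b then z a * z b else 0 := by
        rw [qf_eq, ← Equiv.sum_comp φ.toEquiv]
        refine sum_congr rfl fun u _ => ?_
        rw [← Equiv.sum_comp φ.toEquiv]
        refine sum_congr rfl fun v _ => ?_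
        exact if_congr φ.map_adj_iff.symm rfl rfl
      rw [this]
      simp [Fintype.sum_sum_type, split, z1, z2, Fin.sum_univ_two]
      ring
    have a2 : nn (fun v => z (φ v)) = 2 * θ ^ 2 + 4 * s := by
      have : nn (fun v => z (φ v)) = ∑ a, z a ^ 2 := by
        rw [nn, ← Equiv.sum_comp φ.toEquiv]
        rfl
      rw [this]
      simp [Fintype.sum_sum_type, z1, z2]
      ring
    have a3 := (hP V G).2.1 fun v => z (φ v)
    rw [a1, a2] at a3
    refine le_of_mul_le_mul_right (le_trans (le_of_eq ?_) a3) (by positivity)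
    linear_combination 2 * θ * hθ
  · rw [Fintype.card_congr φ.toEquiv]
    simp [add_comm]

theorem wfS : WfS := by
  intro V _ G
  refine ⟨fun h w a b p q g1 g2 g3 g4 g5 g6 g7 g8 g9 => ?_, fun σ hσ n hn ⟨f⟩ => ?_⟩
  · by_contra hpq
    refine h ⟨⟨⟨fun o => o.elim w ![a, p, b, q], ?_⟩, ?_⟩⟩
    · rintro (_ | i) (_ | j) h
      · exact h.elim
      · fin_cases j <;> assumption
      · fin_cases i
        exacts [g1.symm, g3.symm, g2.symm, g4.symm]
      · have h' : (SimpleGraph.cycleGraph 4).Adj i j := h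
        fin_cases i <;> fin_cases j <;>
          first
            | exact absurd h' (by decide)
            | assumption
            | exact g6.symm
            | exact g7.symm
            | exact g8.symm
            | exact g9.symm
    · have n1 := g1.ne
      have n2 := g2.ne
      have n3 := g3.ne
      have n4 := g4.ne
      have n6 := g6.ne
      have n7 := g7.ne
      have n8 := g8.ne
      have n9 := g9.ne
      rintro (_ | i) (_ | j) h
      · rfl
      · fin_cases j <;> exact absurd h (by assumption)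
      · fin_cases i <;> exact absurd h.symm (by assumption)
      · fin_cases i <;> fin_cases j <;>
          first
            | rfl
            | exact absurd h (by assumption)
            | exact absurd h.symm (by assumption)
  · obtain ⟨k, rfl⟩ : ∃ k, n = k + 4 := ⟨n - 4, by omega⟩
    have hub : ∀ i, G.Adj (f none) (f (some i)) := fun i => f.toHom.map_adj trivial
    obtain ⟨j, hj⟩ : ∃ j : Fin (k + 4), ∀ i, i ≠ j → ¬ σ (f (some i)) = σ (f none) := by
      by_cases h : ∃ j, σ (f (some j)) = σ (f none)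
      · obtain ⟨j, hj⟩ := h
        exact ⟨j, fun i hi e =>
          hi (Option.some_injective _ (f.injective (hσ _ _ _ (hub i) (hub j) e hj)))⟩
      · exact ⟨0, fun i _ e => h ⟨i, e⟩⟩
    have n2 : (1 + 1 : Fin (k + 4)) ≠ 0 := by
      intro h
      have := congrArg Fin.val h
      simp [Fin.val_add, Nat.mod_eq_of_lt] at this
    have n3 : (1 + 1 + 1 : Fin (k + 4)) ≠ 0 := by
      intro h
      have := congrArg Fin.val h
      simp [Fin.val_add, Nat.mod_eq_of_lt] at this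
    have s1 := Bool.eq_not_of_ne (hj (j + 1) (by simp))
    have s2 := Bool.eq_not_of_ne (hj (j + 1 + 1) (by rw [add_assoc]; simpa using n2))
    have s3 := Bool.eq_not_of_ne (hj (j + 1 + 1 + 1)
      (by rw [add_assoc j, add_assoc j]; simpa using n3))
    have rim : ∀ i : Fin (k + 4), G.Adj (f (some i)) (f (some (i + 1))) := fun i =>
      f.toHom.map_adj (show (SimpleGraph.cycleGraph (k + 2 + 2)).Adj i (i + 1) from
        SimpleGraph.cycleGraph_adj.2 (Or.inr (add_sub_cancel_left i 1)))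
    have := Option.some_injective _ (f.injective
      (hσ _ _ _ (rim (j + 1 + 1)) (rim (j + 1)).symm (s3.trans s2.symm) (s1.trans s2.symm)))
    rw [add_assoc (j + 1)] at this
    exact n2 (by simpa using this)

end W5

end

section

/-! The constructions. -/

namespace W5

open Finset
open scoped Classical

/-- The partner in a perfect matching. -/
def fl_Con {n : ℕ} (x : Fin n × Bool) : Fin n × Bool := (x.1, !x.2)

theorem fl_fl_Con {n : ℕ} (x : Fin n × Bool) : fl_Con (fl_Con x) = x := by simp [fl_Con]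

theorem fl_ne_Con {n : ℕ} (x : Fin n × Bool) : x ≠ fl_Con x := by
  obtain ⟨i, b⟩ := x
  cases b <;> simp [fl_Con]

/-- Adjacency of two matchings with extra vertices, joined completely. -/
def adj_Con {p a q b : ℕ} : (Fin p × Bool ⊕ Fin a) ⊕ (Fin q × Bool ⊕ Fin b) →
    (Fin p × Bool ⊕ Fin a) ⊕ (Fin q × Bool ⊕ Fin b) → Prop
  | .inl (.inl x), .inl v => v = .inl (fl_Con x)
  | .inl (.inr _), .inl _ => False
  | .inr (.inl x), .inr v => v = .inl (fl_Con x)
  | .inr (.inr _), .inr _ => False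
  | .inl _, .inr _ => True
  | .inr _, .inl _ => True

/-- The graph of the first construction. -/
def gr_Con (p a q b : ℕ) : SimpleGraph ((Fin p × Bool ⊕ Fin a) ⊕ (Fin q × Bool ⊕ Fin b)) where
  Adj := adj_Con
  symm := ⟨by
    rintro ((x | x) | (x | x)) ((y | y) | (y | y)) h <;> simp_all [adj_Con, fl_fl_Con]⟩
  loopless := ⟨by rintro ((x | x) | (x | x)) <;> simp [adj_Con, fl_ne_Con]⟩

theorem conS : ConS := by
  intro p a q b hp hq
  have hN : ∀ u, NI (gr_Con p a q b) u := by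
    rintro (x | x)
    · exact ⟨.inr (.inl (⟨0, hq⟩, true)), by cases x <;> trivial⟩
    · exact ⟨.inl (.inl (⟨0, hp⟩, true)), by cases x <;> trivial⟩
  have m1 : ∀ x, Mt (gr_Con p a q b) Sum.isLeft (.inl (.inl x)) :=
    fun x => ⟨.inl (.inl (fl_Con x)), rfl, rfl⟩
  have m2 : ∀ x, ¬ Mt (gr_Con p a q b) Sum.isLeft (.inl (.inr x)) := by
    rintro x ⟨y | y, h1, h2⟩
    · exact h1
    · simp at h2
  have m3 : ∀ x, Mt (gr_Con p a q b) Sum.isLeft (.inr (.inl x)) :=
    fun x => ⟨.inr (.inl (fl_Con x)), rfl, rfl⟩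
  have m4 : ∀ x, ¬ Mt (gr_Con p a q b) Sum.isLeft (.inr (.inr x)) := by
    rintro x ⟨y | y, h1, h2⟩
    · simp at h2
    · exact h1
  refine ⟨_, inferInstance, gr_Con p a q b, Sum.isLeft, hN, ?_, ?_, ?_, ?_, ?_, ?_, ?_⟩
  · rintro ((x | x) | (x | x)) (y | y) (z | z) h1 h2 h3 h4 <;> simp_all [gr_Con, adj_Con]
  · rw [mu, card_eq_zero, filter_eq_empty_iff]
    rintro ⟨(x | x) | x, y | y⟩ - <;> simp [Ms, gr_Con, adj_Con]
  · rw [mt, card_filter]
    simp only [Fintype.sum_sum_type]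
    simp [m1, m2, m3, m4, mul_comm]
  · rw [um, card_filter]
    simp only [Fintype.sum_sum_type]
    simp [m1, m2, m3, m4, hN]
  · rw [mt, card_filter]
    simp only [Fintype.sum_sum_type]
    simp [m1, m2, m3, m4, mul_comm]
  · rw [um, card_filter]
    simp only [Fintype.sum_sum_type]
    simp [m1, m2, m3, m4, hN]
  · simp only [Fintype.card_sum, Fintype.card_prod, Fintype.card_fin, Fintype.card_bool]
    ring

/-- Adjacency of two joined matchings with a pendant vertex. -/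
def padj_Con {p q : ℕ} (z : Fin p × Bool) : Option (Fin p × Bool ⊕ Fin q × Bool) →
    Option (Fin p × Bool ⊕ Fin q × Bool) → Prop
  | none, none => False
  | none, some (.inl y) => y = z
  | none, some (.inr _) => False
  | some (.inl x), none => x = z
  | some (.inr _), none => False
  | some (.inl x), some (.inl y) => y = fl_Con x
  | some (.inr x), some (.inr y) => y = fl_Con x
  | some (.inl _), some (.inr _) => True
  | some (.inr _), some (.inl _) => True

/-- The graph of the second construction. -/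
def pgr_Con {p : ℕ} (q : ℕ) (z : Fin p × Bool) :
    SimpleGraph (Option (Fin p × Bool ⊕ Fin q × Bool)) where
  Adj := padj_Con z
  symm := ⟨by rintro (_ | x | x) (_ | y | y) h <;> simp_all [padj_Con, fl_fl_Con]⟩
  loopless := ⟨by rintro (_ | x | x) <;> simp [padj_Con, fl_ne_Con]⟩

/-- A test vector. -/
def vec_Con {A B : Type} (al be ga : ℝ) : Option (A ⊕ B) → ℝ
  | none => ga
  | some (.inl _) => al
  | some (.inr _) => be

theorem qf_Con {p : ℕ} (q : ℕ) (z : Fin p × Bool) (al be ga : ℝ) :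
    qf (pgr_Con q z) (vec_Con al be ga) =
      8 * p * q * al * be + 2 * p * al ^ 2 + 2 * q * be ^ 2 + 2 * al * ga := by
  simp only [qf_eq, Fintype.sum_option, Fintype.sum_sum_type, pgr_Con, padj_Con, vec_Con,
    sum_ite_eq', mem_univ, if_true, if_false, sum_add_distrib, sum_const, card_univ,
    Fintype.card_prod, Fintype.card_fin, Fintype.card_bool, nsmul_eq_mul]
  push_cast
  ring

theorem nn_Con (p q : ℕ) (al be ga : ℝ) :
    nn (vec_Con al be ga : Option (Fin p × Bool ⊕ Fin q × Bool) → ℝ) =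
      2 * p * al ^ 2 + 2 * q * be ^ 2 + ga ^ 2 := by
  simp only [nn, Fintype.sum_option, Fintype.sum_sum_type, vec_Con, sum_const, card_univ,
    Fintype.card_prod, Fintype.card_fin, Fintype.card_bool, nsmul_eq_mul]
  push_cast
  ring

theorem penS (hP : PerS) : PenS := by
  intro p q θ hp hq h1 hθ
  have z : Fin p × Bool := (⟨0, by omega⟩, false)
  have hp' : (100 : ℝ) ≤ p := by exact_mod_cast hp
  refine ⟨_, inferInstance, pgr_Con q z, fun u => u.elim false Sum.isLeft, ?_, ?_, ?_, ?_, ?_⟩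
  · rintro (_ | x | x)
    · exact ⟨some (.inl z), rfl⟩
    · exact ⟨some (.inl (fl_Con x)), rfl⟩
    · exact ⟨some (.inl z), trivial⟩
  · rintro (_ | x | x) (_ | y | y) (_ | w | w) h1 h2 h3 h4 <;> simp_all [pgr_Con, padj_Con]
  · have e1 := qf_Con q z 1 1 1
    have e2 : (vec_Con 1 1 1 : Option (Fin p × Bool ⊕ Fin q × Bool) → ℝ) = fun _ => 1 := by
      funext u
      rcases u with _ | x | x <;> rfl
    have e3 := two_ed (pgr_Con q z)
    rw [e2, qf_eq] at e1
    simp only [mul_one, one_pow] at e1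
    linarith
  · simp only [Fintype.card_option, Fintype.card_sum, Fintype.card_prod, Fintype.card_fin,
      Fintype.card_bool]
    ring
  · have hr := (hP _ (pgr_Con q z)).2.1
    rcases hq with rfl | rfl
    · have h2 := hr (vec_Con 1 1 0)
      rw [qf_Con, nn_Con] at h2
      have h3 : θ ≤ 2 * q + 1 := by nlinarith
      have h4 : (2 * q + 1 : ℝ) * (4 * q) ≤ lam (pgr_Con q z) * (4 * q) := by linarith
      exact h3.trans (le_of_mul_le_mul_right h4 (by linarith))
    · have h2 := hr (vec_Con (4 * p + 3) (4 * p + 1) 2)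
      rw [qf_Con, nn_Con] at h2
      push_cast at h2 hθ
      have h3 : (4 * p + 3) * θ ≤ (2 * p + 2) * (4 * p + 3) - 1 := by
        by_contra hc
        have h5 : (2 * p + 2) * (4 * p + 3) - 1 < (4 * p + 3) * θ := not_le.mp hc
        have h6 : ((4 * p + 3) * θ) ^ 2 - (4 * p + 3) * ((4 * p + 3) * θ) =
            (4 * p + 3) ^ 2 * (4 * p * (p + 1) + p + (p + 1)) := by
          rw [← hθ]
          ring
        nlinarith
      have hn : (0 : ℝ) < 2 * p * (4 * p + 3) ^ 2 + 2 * (p + 1) * (4 * p + 1) ^ 2 + 2 ^ 2 := by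
        positivity
      have h4 := mul_le_mul_of_nonneg_left h2 (show (0 : ℝ) ≤ 4 * p + 3 by positivity)
      have h5 := mul_le_mul_of_nonneg_right h3 hn.le
      refine le_of_mul_le_mul_right (a := ((4 * p + 3 : ℝ)) *
        (2 * p * (4 * p + 3) ^ 2 + 2 * (p + 1) * (4 * p + 1) ^ 2 + 2 ^ 2)) ?_ (by positivity)
      have h6 : (0 : ℝ) ≤ p ^ 2 := by positivity
      linarith

end W5

end
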